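import Pool.Agent.W_c2305b_h19.NoBlock
import Pool.Agent.W82_c2305b.Sel4
import Pool.Agent.W82_c2305b.CoreB

/-!
# Part B: a violation has boundedly many boundary corners (MP_c2305b_co)
-/

namespace C2305bB

open Set MeasureTheory Filter Topology C2305b.TL
open C2305bH52 (needle)

theorem Blk.mono {L R η η' : ℝ} {J : Type} {T : Tiling J} {D : Set V} {F : J → Fr} {W : ℕ}
    {q : ℕ → V} (hL : 0 ≤ L) (hη : η ≤ η') (B : Blk L R η T D F W q) :
    Blk L R η' T D F W q where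
  convD := B.convD
  sub := B.sub
  intR := B.intR
  sharp := B.sharp
  fit := B.fit
  qW := B.qW
  qR := B.qR
  qD := B.qD
  ne := B.ne
  hs := B.hs
  cap := B.cap
  flat := by
    intro r hr r' hr'
    obtain ⟨h1, h2⟩ := B.flat r hr r' hr'
    exact ⟨h1, h2.trans (mul_le_mul_of_nonneg_right (mul_le_mul_of_nonneg_left hη hL) h1.le)⟩

theorem Cost.mono {L τ a κ κ' γ A A' C1 C2 L1 : ℝ} {J : Type} {T : Tiling J} {D : Set V}
    {F : J → Fr} {W : ℕ} {q : ℕ → V} (hA : A ≤ A') (hC1 : 0 ≤ C1) (hC2 : 0 ≤ C2)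
    (Cst : Cost L τ a κ κ' γ A C1 C2 L1 T D F W q) :
    Cost L τ a κ κ' γ A' C1 C2 L1 T D F W q where
  good := Cst.good
  verts := Cst.verts.trans (mul_le_mul_of_nonneg_right hA (Nat.cast_nonneg _))
  bad := by
    intro h
    obtain ⟨B1, B2, h1, h2, h3, h4⟩ := Cst.bad h
    refine ⟨B1, B2, h1, h2, h3.trans ?_, h4.trans ?_⟩
    · exact mul_le_mul_of_nonneg_right (mul_le_mul_of_nonneg_right hA hC1) (Nat.cast_nonneg _)
    · exact mul_le_mul_of_nonneg_right (mul_le_mul_of_nonneg_right hA hC2) (Nat.cast_nonneg _)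

theorem exists_tan_le {η : ℝ} (hη : 0 < η) : ∃ M : ℕ, 3 ≤ M ∧ Real.tan (Real.pi / M) ≤ η := by
  have h1 : Tendsto (fun M : ℕ => Real.pi / (M : ℝ)) atTop (𝓝 0) :=
    tendsto_const_div_atTop_nhds_zero_nat Real.pi
  have h2 : Tendsto Real.tan (𝓝 0) (𝓝 0) := by
    have := (Real.continuousAt_tan.2 (by rw [Real.cos_zero]; exact one_ne_zero) :
      ContinuousAt Real.tan 0).tendsto
    rwa [Real.tan_zero] at this
  have h3 := (h2.comp h1).eventually (gt_mem_nhds hη)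
  obtain ⟨M, hM1, hM2⟩ := (h3.and (eventually_ge_atTop 3)).exists
  exact ⟨M, hM2, le_of_lt hM1⟩

/-- **Part B.** -/
theorem partB {R τ G a : ℝ} (hR : 1 ≤ R) (hτ : 0 < τ) (hG : 0 < G) (ha : 0 < a) :
    W82.PartB R τ G a := by
  set A : ℝ := max (8 * G / τ * (G / τ + 4 * (G + 1))) 1 with hA
  obtain ⟨κ, hκ0, hκ1, H1⟩ := no_block R τ a (τ / (8 * G)) A hR hτ ha (by positivity)
    (le_max_right _ _)
  refine ⟨κ, hκ0, hκ1, fun C1 hC1 => ?_⟩
  have hC1' : (1 : ℝ) ≤ max C1 1 := le_max_right _ _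
  obtain ⟨W, hW, κ', hκ'0, hκ'1, H2⟩ := H1 (max C1 1) (by linarith)
  refine ⟨κ', hκ'0, hκ'1, fun C2 hC2 L1 => ?_⟩
  have hC2' : (1 : ℝ) ≤ max C2 1 := le_max_right _ _
  obtain ⟨η, hη, H3⟩ := H2 (max C2 1) (by linarith) L1
  obtain ⟨M, hM, hMη⟩ := exists_tan_le hη
  obtain ⟨B0, H4⟩ := W82.exists_block (a := a) hR hτ hG W M hW hM hC1' hC2' κ κ' L1
  refine ⟨B0, ?_⟩
  intro L hL ι _ D P h hi F o Lam hneed hvol hLam hcap hTv hb1 hb2
  by_contra hcon
  push Not at hcon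
  have hs : 0 ≤ Lam + ((W82.Vb D P).ncard : ℝ) := by positivity
  obtain ⟨q, B, Cst⟩ := H4 L hL ι D P h hi F o Lam hneed hvol hLam hcap hTv
    (fun hl => by
      obtain ⟨Bad, h1, h2⟩ := hb1 hl
      exact ⟨Bad, h1.trans (mul_le_mul_of_nonneg_right (le_max_left _ _) hs), h2⟩)
    (fun hl => by
      obtain ⟨Bad, h1, h2⟩ := hb2 hl
      exact ⟨Bad, h1.trans (mul_le_mul_of_nonneg_right (le_max_left _ _) hs), h2⟩) hcon
  classical
  have : Fintype {i : ι // (interior (convexHull ℝ (W82.S P i))).Nonempty} := Fintype.ofFinite _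
  exact H3 L hL _ (h.toTL hi) D (fun i => F i) q (B.mono (by linarith) hMη)
    (Cst.mono (le_max_left _ _) (by linarith) (by linarith))

end C2305bB
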