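import Mathlib

/-!
# Frames, mismatch and the clamped Burgers field (numbers only)

A frame is a unit vector `(c, S)` with `c ≥ 0` (direction of the long axis of a needle, up to
sign).  Coordinates `x = X / l`, `y = l Y`, `L = l ^ 2`.  A vector `e = (x, y)` fits the frame with
radius `R` if `(c x + S y / L) ^ 2 + (c y - L S x) ^ 2 ≤ R ^ 2`.
-/

namespace C2305bB

/-- A frame: unit vector with nonnegative first coordinate. -/
structure Fr where
  c : ℝ
  S : ℝ
  nrm : c ^ 2 + S ^ 2 = 1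
  c0 : 0 ≤ c

/-- The vector `(x, y)` fits the frame `F` with radius `R`. -/
def Fits (L : ℝ) (F : Fr) (R x y : ℝ) : Prop :=
  (F.c * x + F.S * y / L) ^ 2 + (F.c * y - L * F.S * x) ^ 2 ≤ R ^ 2

/-- `|sin|` of the angle between two frames. -/
def sn (F G : Fr) : ℝ := |F.c * G.S - F.S * G.c|

/-- Mismatch of two frames. -/
def mis (L : ℝ) (F G : Fr) : ℝ := L * sn F G

/-- The clamp: slope `L S / c` where it is at most `T`, linear return in `c` beyond. -/
noncomputable def al (L T : ℝ) (F : Fr) : ℝ :=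
  if L * |F.S| ≤ T * F.c then L * F.S / F.c
  else if 0 < F.S then T * F.c * Real.sqrt (1 + T ^ 2 / L ^ 2)
  else -(T * F.c * Real.sqrt (1 + T ^ 2 / L ^ 2))

/-- The flux jump of two field values `a`, `b` over the vector `(x, y)`. -/
noncomputable def J (a b x y : ℝ) : ℝ := (a - b) * y - (a ^ 2 - b ^ 2) / 2 * x

theorem J_eq (a b x y : ℝ) : J a b x y = (a - b) * (y - (a + b) / 2 * x) := by
  unfold J; ring

theorem J_abs (a b x y : ℝ) : |J a b x y| = |a - b| * |y - (a + b) / 2 * x| := by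
  rw [J_eq, abs_mul]

theorem J_swap (a b x y : ℝ) : |J a b x y| = |J b a x y| := by
  rw [J_abs, J_abs, abs_sub_comm, add_comm a b]

theorem sn_comm (F G : Fr) : sn F G = sn G F := by
  unfold sn
  rw [← abs_neg]
  ring_nf

theorem sn_nonneg (F G : Fr) : 0 ≤ sn F G := abs_nonneg _

theorem Fr.c_le_one (F : Fr) : F.c ≤ 1 := by
  nlinarith [F.nrm, F.c0, sq_nonneg F.S]

theorem Fr.abs_S_le (F : Fr) : |F.S| ≤ 1 := by
  apply abs_le_of_sq_le_sq _ zero_le_one |>.trans_eq rfl |> fun h => h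
  nlinarith [F.nrm, sq_nonneg F.c]

theorem sn_le_one (F G : Fr) : sn F G ≤ 1 := by
  unfold sn
  apply abs_le_of_sq_le_sq _ zero_le_one
  nlinarith [F.nrm, G.nrm, sq_nonneg (F.c * G.c + F.S * G.S)]

/-- Reflection of a frame at the horizontal axis. -/
def Fr.flip (F : Fr) : Fr := ⟨F.c, -F.S, by have := F.nrm; nlinarith, F.c0⟩

theorem sn_flip (F G : Fr) : sn F.flip G.flip = sn F G := by
  unfold sn Fr.flip
  rw [← abs_neg]
  ring_nf

theorem Fits.flip {L R x y : ℝ} {F : Fr} (h : Fits L F R x y) : Fits L F.flip R x (-y) := by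
  unfold Fits Fr.flip at *
  simp only
  have e1 : F.c * x + -F.S * -y / L = F.c * x + F.S * y / L := by ring
  have e2 : F.c * -y - L * -F.S * x = -(F.c * y - L * F.S * x) := by ring
  rw [e1, e2, neg_sq]
  exact h

theorem al_flip {L T : ℝ} (hT : 0 ≤ T) (F : Fr) : al L T F.flip = - al L T F := by
  unfold al Fr.flip
  simp only [abs_neg]
  split_ifs with h1 h2 h3 h4
  · ring
  · exfalso; linarith
  · ring
  · ring
  · have h0 : F.S = 0 := by linarith
    have hc : F.c = 1 := by nlinarith [F.nrm, F.c0]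
    exfalso
    apply h1
    rw [h0, hc]
    simpa using hT

/-! ### Basic inequalities -/

/-- Two frames in the same quadrant. -/
theorem c_diff_le {F G : Fr} (hF : 0 ≤ F.S) (hG : 0 ≤ G.S) : |F.c - G.c| ≤ sn F G := by
  unfold sn
  have h1 := F.nrm
  have h2 := G.nrm
  have h3 := F.c0
  have h4 := G.c0
  have h5 := F.c_le_one
  have h6 := G.c_le_one
  have hS1 : F.S ≤ 1 := (abs_le.1 F.abs_S_le).2
  have hS2 : G.S ≤ 1 := (abs_le.1 G.abs_S_le).2
  have key : (F.c - G.c) * (F.c + G.c) = (F.c * G.S - F.S * G.c) * (F.c * G.S + F.S * G.c) := by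
    nlinarith
  by_cases h0 : F.c + G.c = 0
  · have : F.c = 0 := by linarith
    have : G.c = 0 := by linarith
    simp [*]
  · have hpos : 0 < F.c + G.c := lt_of_le_of_ne (by linarith) (Ne.symm h0)
    have hA : |F.c - G.c| * (F.c + G.c)
        = |F.c * G.S - F.S * G.c| * (F.c * G.S + F.S * G.c) := by
      have hn : 0 ≤ F.c * G.S + F.S * G.c := by positivity
      have h7 := congrArg abs key
      rw [abs_mul, abs_mul, abs_of_pos hpos, abs_of_nonneg hn] at h7
      exact h7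
    have hB : F.c * G.S + F.S * G.c ≤ F.c + G.c := by nlinarith
    have hC : |F.c - G.c| * (F.c + G.c) ≤ |F.c * G.S - F.S * G.c| * (F.c + G.c) := by
      rw [hA]
      exact mul_le_mul_of_nonneg_left hB (abs_nonneg _)
    exact le_of_mul_le_mul_right hC hpos

/-- Two frames in opposite quadrants. -/
theorem opp_ineq {F G : Fr} (hF : 0 ≤ F.S) (hG : G.S ≤ 0) :
    sn F G = F.c * (-G.S) + F.S * G.c ∧ F.c * F.S + G.c * (-G.S) ≤ sn F G := by
  have h1 := F.nrm
  have h2 := G.nrm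
  have h3 := F.c0
  have h4 := G.c0
  have hsn : sn F G = F.c * (-G.S) + F.S * G.c := by
    unfold sn
    rw [abs_sub_comm, abs_of_nonneg]
    · ring
    · nlinarith [mul_nonneg h3 (neg_nonneg.2 hG), mul_nonneg hF h4]
  refine ⟨hsn, ?_⟩
  rw [hsn]
  have key : F.c * F.S + G.c * (-G.S)
      = (F.c * (-G.S) + F.S * G.c) * (F.c * G.c + F.S * (-G.S)) := by
    have e1 : (F.c * (-G.S) + F.S * G.c) * (F.c * G.c + F.S * (-G.S))
        = (F.c ^ 2 + F.S ^ 2) * (G.c * (-G.S)) + (G.c ^ 2 + G.S ^ 2) * (F.c * F.S) := by ring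
    rw [e1, h1, h2]; ring
  have hle : F.c * G.c + F.S * (-G.S) ≤ 1 := by
    nlinarith [sq_nonneg (F.c - G.c), sq_nonneg (F.S + G.S)]
  have hn : 0 ≤ F.c * (-G.S) + F.S * G.c := by
    nlinarith [mul_nonneg h3 (neg_nonneg.2 hG), mul_nonneg hF h4]
  rw [key]
  nlinarith

theorem Fits.b2 {L R x y : ℝ} {F : Fr} (hR : 0 ≤ R) (h : Fits L F R x y) :
    |F.c * y - L * F.S * x| ≤ R := by
  apply abs_le_of_sq_le_sq _ hR
  unfold Fits at h
  nlinarith [sq_nonneg (F.c * x + F.S * y / L)]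

theorem Fits.b1 {L R x y : ℝ} {F : Fr} (hR : 0 ≤ R) (h : Fits L F R x y) :
    |F.c * x + F.S * y / L| ≤ R := by
  apply abs_le_of_sq_le_sq _ hR
  unfold Fits at h
  nlinarith [sq_nonneg (F.c * y - L * F.S * x)]

theorem Fits.x_le {L R x y : ℝ} {F : Fr} (hL : 1 ≤ L) (hR : 0 ≤ R) (h : Fits L F R x y) :
    |x| ≤ R := by
  apply abs_le_of_sq_le_sq _ hR
  unfold Fits at h
  set p := F.c * x + F.S * y / L with hp
  set q := F.c * y - L * F.S * x with hq
  have hL0 : L ≠ 0 := by positivity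
  have e : x = F.c * p - F.S / L * q := by
    rw [hp, hq]
    field_simp
    linear_combination (-(x * L)) * F.nrm
  have hs : (F.S / L) ^ 2 ≤ F.S ^ 2 := by
    rw [div_pow]
    apply div_le_self (sq_nonneg _)
    nlinarith
  have h1 := F.nrm
  have hcs : x ^ 2 ≤ (F.c ^ 2 + (F.S / L) ^ 2) * (p ^ 2 + q ^ 2) := by
    rw [e]
    nlinarith [sq_nonneg (F.c * q + F.S / L * p)]
  nlinarith [sq_nonneg p, sq_nonneg q]

/-- `|x| * mis ≤ R (c + c')`. -/
theorem x_mis_le {L R x y : ℝ} {F G : Fr} (hL : 0 ≤ L) (hR : 0 ≤ R) (hF : Fits L F R x y)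
    (hG : Fits L G R x y) : |x| * mis L F G ≤ R * (F.c + G.c) := by
  have h1 := hF.b2 hR
  have h2 := hG.b2 hR
  have e : |x| * mis L F G
      = |G.c * (F.c * y - L * F.S * x) - F.c * (G.c * y - L * G.S * x)| := by
    unfold mis sn
    rw [← abs_of_nonneg hL, ← abs_mul, ← abs_mul, abs_of_nonneg hL]
    congr 1
    ring
  rw [e]
  refine (abs_sub _ _).trans ?_
  rw [abs_mul, abs_mul, abs_of_nonneg F.c0, abs_of_nonneg G.c0]
  nlinarith [mul_le_mul_of_nonneg_left h1 G.c0, mul_le_mul_of_nonneg_left h2 F.c0]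

/-- `|y| * sn ≤ R (|S| + |S'|)`. -/
theorem y_sn_le {L R x y : ℝ} {F G : Fr} (hR : 0 ≤ R) (hF : Fits L F R x y)
    (hG : Fits L G R x y) : |y| * sn F G ≤ R * (|F.S| + |G.S|) := by
  have h1 := hF.b2 hR
  have h2 := hG.b2 hR
  have e : |y| * sn F G
      = |G.S * (F.c * y - L * F.S * x) - F.S * (G.c * y - L * G.S * x)| := by
    unfold sn
    rw [← abs_mul]
    congr 1
    ring
  rw [e]
  refine (abs_sub _ _).trans ?_
  rw [abs_mul, abs_mul]
  nlinarith [mul_le_mul_of_nonneg_left h1 (abs_nonneg G.S),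
    mul_le_mul_of_nonneg_left h2 (abs_nonneg F.S)]

/-! ### The clamp -/

section clamp

variable {L T : ℝ}

/-- `k = sqrt (1 + T ^ 2 / L ^ 2)`, between `1` and `1.01` if `10 T ≤ L`. -/
theorem k_bounds (hT : 0 < T) (hL : 10 * T ≤ L) :
    1 ≤ Real.sqrt (1 + T ^ 2 / L ^ 2) ∧ Real.sqrt (1 + T ^ 2 / L ^ 2) ≤ 101 / 100 := by
  have hL0 : 0 < L := by linarith
  have h1 : T ^ 2 / L ^ 2 ≤ 1 / 100 := by
    rw [div_le_div_iff₀ (by positivity) (by norm_num)]
    nlinarith
  have h2 : 0 ≤ T ^ 2 / L ^ 2 := by positivity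
  constructor
  · rw [show (1:ℝ) = Real.sqrt 1 by simp]
    apply Real.sqrt_le_sqrt
    linarith
  · rw [show (101 / 100:ℝ) = Real.sqrt ((101 / 100) ^ 2) by rw [Real.sqrt_sq (by norm_num)]]
    apply Real.sqrt_le_sqrt
    nlinarith

theorem k_sq : Real.sqrt (1 + T ^ 2 / L ^ 2) ^ 2 = 1 + T ^ 2 / L ^ 2 :=
  Real.sq_sqrt (by positivity)

/-- The threshold frame with slope `T`. -/
noncomputable def thr (L T : ℝ) (hT : 0 < T) (hL : 10 * T ≤ L) : Fr where
  c := 1 / Real.sqrt (1 + T ^ 2 / L ^ 2)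
  S := T / L / Real.sqrt (1 + T ^ 2 / L ^ 2)
  nrm := by
    have h := (k_bounds hT hL).1
    have h2 := k_sq (L := L) (T := T)
    have hk : Real.sqrt (1 + T ^ 2 / L ^ 2) ≠ 0 := by positivity
    rw [div_pow, div_pow, ← add_div, div_eq_one_iff_eq (by positivity), h2]
    ring
  c0 := by positivity

/-- A non steep frame has `c ≥ .99`. -/
theorem c_of_flat (hT : 0 < T) (hL : 10 * T ≤ L) {F : Fr} (h : L * |F.S| ≤ T * F.c) :
    99 / 100 ≤ F.c := by
  have hL0 : 0 < L := by linarith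
  have h1 := F.nrm
  have h2 := F.c0
  have h3 : 10 * |F.S| ≤ F.c := by
    have : 10 * T * |F.S| ≤ L * |F.S| := mul_le_mul_of_nonneg_right hL (abs_nonneg _)
    nlinarith [abs_nonneg F.S]
  have h4 : F.S ^ 2 = |F.S| ^ 2 := (sq_abs _).symm
  by_contra hc
  push Not at hc
  nlinarith [abs_nonneg F.S]

theorem al_flat {F : Fr} (h : L * |F.S| ≤ T * F.c) : al L T F = L * F.S / F.c := by
  unfold al; rw [if_pos h]

theorem al_steep_pos {F : Fr} (h : T * F.c < L * |F.S|) (hS : 0 < F.S) :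
    al L T F = T * F.c * Real.sqrt (1 + T ^ 2 / L ^ 2) := by
  unfold al; rw [if_neg (not_le.2 h), if_pos hS]

theorem al_steep_neg {F : Fr} (h : T * F.c < L * |F.S|) (hS : F.S ≤ 0) :
    al L T F = -(T * F.c * Real.sqrt (1 + T ^ 2 / L ^ 2)) := by
  unfold al; rw [if_neg (not_le.2 h), if_neg (not_lt.2 hS)]

/-- steep means `c * k < 1`. -/
theorem ck_lt_one (hT : 0 < T) (hL : 10 * T ≤ L) {F : Fr} (h : T * F.c < L * |F.S|) :
    F.c * Real.sqrt (1 + T ^ 2 / L ^ 2) ≤ 1 := by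
  have hL0 : 0 < L := by linarith
  have hk := k_bounds hT hL
  have hk2 := k_sq (L := L) (T := T)
  have h1 := F.nrm
  have h2 := F.c0
  have h3 : (T * F.c) ^ 2 ≤ L ^ 2 * F.S ^ 2 := by
    rw [← sq_abs F.S, ← mul_pow]
    exact pow_le_pow_left₀ (by positivity) h.le 2
  have h4 : F.c ^ 2 * (T ^ 2 / L ^ 2) ≤ F.S ^ 2 := by
    rw [← mul_div_assoc, div_le_iff₀ (by positivity)]
    nlinarith
  have h5 : (F.c * Real.sqrt (1 + T ^ 2 / L ^ 2)) ^ 2 ≤ 1 := by
    rw [mul_pow, hk2]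
    nlinarith
  have h6 : 0 ≤ F.c * Real.sqrt (1 + T ^ 2 / L ^ 2) := by positivity
  nlinarith

theorem abs_al_le (hT : 0 < T) (hL : 10 * T ≤ L) (F : Fr) : |al L T F| ≤ T := by
  have hL0 : 0 < L := by linarith
  by_cases h : L * |F.S| ≤ T * F.c
  · rw [al_flat h]
    have hc := c_of_flat hT hL h
    rw [abs_div, abs_mul, abs_of_pos hL0, abs_of_pos (by linarith : 0 < F.c),
      div_le_iff₀ (by linarith)]
    exact h
  · push Not at h
    have hck := ck_lt_one hT hL h
    have h0 : 0 ≤ T * F.c * Real.sqrt (1 + T ^ 2 / L ^ 2) := by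
      have := F.c0
      positivity
    have h1 : T * F.c * Real.sqrt (1 + T ^ 2 / L ^ 2) ≤ T := by nlinarith
    rcases lt_or_ge 0 F.S with hS | hS
    · rw [al_steep_pos h hS, abs_of_nonneg h0]; exact h1
    · rw [al_steep_neg h hS, abs_neg, abs_of_nonneg h0]; exact h1

/-- The defect `T - al` of a steep frame in the upper quadrant. -/
theorem T_sub_al (hT : 0 < T) (hL : 10 * T ≤ L) {F : Fr} (h : T * F.c < L * |F.S|)
    (hS : 0 < F.S) : 0 ≤ T - al L T F ∧ T - al L T F ≤ T / L * (L * F.S - T * F.c) := by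
  have hL0 : 0 < L := by linarith
  have hk := k_bounds hT hL
  have hk2 := k_sq (L := L) (T := T)
  have hk0 : (0:ℝ) < Real.sqrt (1 + T ^ 2 / L ^ 2) := by linarith
  have hck := ck_lt_one hT hL h
  rw [al_steep_pos h hS]
  set k := Real.sqrt (1 + T ^ 2 / L ^ 2) with hkdef
  rw [abs_of_pos hS] at h
  constructor
  · nlinarith
  · have hd := c_diff_le (F := thr L T hT hL) (G := F)
      (by unfold thr; simp only; positivity) hS.le
    unfold sn at hd
    have ec : (thr L T hT hL).c = 1 / k := rfl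
    have es : (thr L T hT hL).S = T / L / k := rfl
    rw [ec, es] at hd
    have e2 : 1 / k * F.S - T / L / k * F.c = (L * F.S - T * F.c) / (L * k) := by
      field_simp
    have e5 : |(L * F.S - T * F.c) / (L * k)| = (L * F.S - T * F.c) / (L * k) :=
      abs_of_nonneg (div_nonneg (by linarith) (by positivity))
    rw [e2, e5] at hd
    have h3 : 1 / k - F.c ≤ (L * F.S - T * F.c) / (L * k) := (le_abs_self _).trans hd
    have h4 : T - T * F.c * k = T * k * (1 / k - F.c) := by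
      field_simp
    rw [h4]
    calc T * k * (1 / k - F.c) ≤ T * k * ((L * F.S - T * F.c) / (L * k)) :=
          mul_le_mul_of_nonneg_left h3 (by positivity)
      _ = T / L * (L * F.S - T * F.c) := by field_simp

end clamp

end C2305bB
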