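import Pool.Agent.W_c2305b_h74.Map
import Pool.Agent.W_c2305b_h35.ExistsWin
import Pool.Agent.W_c2305b_h57.Marks
import Pool.Agent.W82_c2305b.Bridge

/-!
# Blocks of consecutive sides (MP_c2305b_co, part B)
-/

namespace C2305bB

open Set MeasureTheory C2305b.TL
open C2305bH52 (needle)

noncomputable section

/-- A block of `W` consecutive sides `(q r, q (r + 1))`, in any position. `T` is the polygonal
tiling, `D` the covered convex set, `F` the frames of the tiles, `η` the flatness. -/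
structure Blk (L R η : ℝ) {J : Type} (T : Tiling J) (D : Set V) (F : J → Fr) (W : ℕ)
    (q : ℕ → V) : Prop where
  convD : Convex ℝ D
  sub : T.R ⊆ D
  intR : (interior T.R).Nonempty
  sharp : T.Sharp
  fit : ∀ i, ∀ z ∈ T.P i, ∀ z' ∈ T.P i, Fits L (F i) R (z 0 - z' 0) (z 1 - z' 1)
  qW : ∀ r ≤ W, q r ∈ T.W
  qR : ∀ r ≤ W, q r ∈ T.R
  qD : ∀ r ≤ W, q r ∉ interior D
  ne : ∀ r < W, q (r + 1) ≠ q r
  hs : ∀ r < W, ∀ z ∈ T.R, 0 ≤ cr (q (r + 1) - q r) (z - q r)
  cap : ∀ r < W, ∃ (G : Fr) (o : V), q r ∈ needle L G o (R / 2) ∧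
    q (r + 1) ∈ needle L G o (R / 2) ∧ W82.cap D (q r) (q (r + 1)) ⊆ needle L G o (R / 2)
  flat : ∀ r < W, ∀ r' < W, 0 < sp L (q (r + 1) - q r) (q (r' + 1) - q r') ∧
    |cr (q (r + 1) - q r) (q (r' + 1) - q r')| ≤
      L * η * sp L (q (r + 1) - q r) (q (r' + 1) - q r')

open Classical in
/-- The good sides of a chain: the cap has area at least `τ / 2`. -/
def goodSides (τ : ℝ) (D : Set V) (W : ℕ) (q : ℕ → V) : Finset ℕ :=
  (Finset.range W).filter fun r => τ / 2 ≤ (volume (W82.cap D (q r) (q (r + 1)))).toReal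

/-- The pair of tiles `s` has a common edge with an end strictly beyond the directed line `A B`. -/
def Meets {J : Type} (T : Tiling J) (A B : V) (s : J × J) : Prop :=
  ∃ v w, T.Tw s.1 s.2 v w ∧ (cr (B - A) (v - A) < 0 ∨ cr (B - A) (w - A) < 0)

/-- Outside `Bad` the pairs of adjacent tiles have mismatch at most `κ`, at most six edges, area at
least `a`. -/
def Lvl1 (L κ a : ℝ) {J : Type} (T : Tiling J) (F : J → Fr) (Bad : Finset (J × J)) : Prop :=
  ∀ i j v w, T.Tw i j v w → (i, j) ∉ Bad →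
    mis L (F i) (F j) ≤ κ ∧ (T.edges i).card ≤ 6 ∧ a ≤ (volume (T.P i)).toReal

/-- Outside `Bad` the pairs of adjacent tiles have mismatch at most `κ`. -/
def Lvl2 (L κ : ℝ) {J : Type} (T : Tiling J) (F : J → Fr) (Bad : Finset (J × J)) : Prop :=
  ∀ i j v w, T.Tw i j v w → (i, j) ∉ Bad → mis L (F i) (F j) ≤ κ

open Classical in
/-- Good sides and costs of a block. -/
structure Cost (L τ a κ κ' γ A C1 C2 L1 : ℝ) {J : Type} (T : Tiling J) (D : Set V) (F : J → Fr)
    (W : ℕ) (q : ℕ → V) : Prop where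
  good : γ * W ≤ ((goodSides τ D W q).card : ℝ)
  verts : ((Tiling.sideVerts T W q).card : ℝ) ≤ A * W
  bad : L1 ≤ L → ∃ Bad1 Bad2 : Finset (J × J), Lvl1 L κ a T F Bad1 ∧ Lvl2 L κ' T F Bad2 ∧
    ((Bad1.filter fun s => Meets T (q 0) (q W) s).card : ℝ) ≤ A * C1 * W ∧
    ((Bad2.filter fun s => Meets T (q 0) (q W) s).card : ℝ) ≤ A * C2 * W

end

end C2305bB
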