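import Mathlib

/-!
# Interior points of a convex chain are strictly below its chord
-/

namespace C2305bB

/-- slope of the side `r` -/
noncomputable def slp (x y : ℕ → ℝ) (r : ℕ) : ℝ := (y (r + 1) - y r) / (x (r + 1) - x r)

variable {W : ℕ} {x y : ℕ → ℝ}

lemma slp_mul (hx : ∀ r < W, x r < x (r + 1)) {r : ℕ} (hr : r < W) :
    slp x y r * (x (r + 1) - x r) = y (r + 1) - y r := by
  have := hx r hr
  unfold slp
  rw [div_mul_cancel₀]
  linarith

lemma x_mono' (hx : ∀ r < W, x r < x (r + 1)) {r t : ℕ} (hrt : r ≤ t) (ht : t ≤ W) :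
    x r ≤ x t := by
  induction t, hrt using Nat.le_induction with
  | base => exact le_rfl
  | succ n hn ih => exact (ih (by omega)).trans (hx n (by omega)).le

lemma slp_mono (hs : ∀ r, r + 1 < W → slp x y r ≤ slp x y (r + 1)) {r t : ℕ} (hrt : r ≤ t)
    (ht : t < W) : slp x y r ≤ slp x y t := by
  induction t, hrt using Nat.le_induction with
  | base => exact le_rfl
  | succ n hn ih => exact (ih (by omega)).trans (hs n ht)

lemma left_part (hx : ∀ r < W, x r < x (r + 1))
    (hs : ∀ r, r + 1 < W → slp x y r ≤ slp x y (r + 1)) {r : ℕ} (hr : r < W) :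
    y (r + 1) - y 0 ≤ slp x y r * (x (r + 1) - x 0) - (x 1 - x 0) * (slp x y r - slp x y 0) := by
  induction r with
  | zero =>
    have := slp_mul (y := y) hx (r := 0) hr
    simp only [zero_add] at this ⊢
    linarith
  | succ n ih =>
    have h1 := ih (by omega)
    have h2 := slp_mul (y := y) hx hr
    have h3 := hs n hr
    have h4 : x 1 ≤ x (n + 1) := x_mono' hx (by omega) (by omega)
    have h5 : 0 ≤ (slp x y (n + 1) - slp x y n) * (x (n + 1) - x 1) :=
      mul_nonneg (by linarith) (by linarith)
    nlinarith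

lemma right_part (hx : ∀ r < W, x r < x (r + 1))
    (hs : ∀ r, r + 1 < W → slp x y r ≤ slp x y (r + 1)) (hW : 1 ≤ W) {d : ℕ} (hd : d < W) :
    slp x y (W - 1 - d) * (x W - x (W - 1 - d)) +
      (x W - x (W - 1)) * (slp x y (W - 1) - slp x y (W - 1 - d)) ≤ y W - y (W - 1 - d) := by
  induction d with
  | zero =>
    have h := slp_mul (y := y) hx (r := W - 1) (by omega)
    have e : W - 1 + 1 = W := by omega
    rw [e] at h
    simp only [Nat.sub_zero]
    linarith
  | succ n ih =>
    have h1 := ih (by omega)
    have h2 := slp_mul (y := y) hx (r := W - 1 - (n + 1)) (by omega)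
    have e : W - 1 - (n + 1) + 1 = W - 1 - n := by omega
    have h3 := hs (W - 1 - (n + 1)) (by omega)
    rw [e] at h2 h3
    have h4 : x (W - 1 - n) ≤ x (W - 1) := x_mono' hx (by omega) (by omega)
    have h5 : 0 ≤ (slp x y (W - 1 - n) - slp x y (W - 1 - (n + 1))) *
        (x (W - 1) - x (W - 1 - n)) := mul_nonneg (by linarith) (by linarith)
    nlinarith

/-- Points strictly inside a convex chain are strictly below its chord. -/
theorem below_chord (hx : ∀ r < W, x r < x (r + 1))
    (hs : ∀ r, r + 1 < W → slp x y r ≤ slp x y (r + 1))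
    (hlt : slp x y 0 < slp x y (W - 1)) {r : ℕ} (h0 : 1 ≤ r) (hr : r < W) :
    (x W - x 0) * (y r - y 0) - (y W - y 0) * (x r - x 0) < 0 := by
  obtain ⟨k, rfl⟩ : ∃ k, r = k + 1 := ⟨r - 1, by omega⟩
  have h1 := left_part (y := y) hx hs (r := k) (by omega)
  have h2 := right_part (y := y) hx hs (by omega) (d := W - 1 - (k + 1)) (by omega)
  have e : W - 1 - (W - 1 - (k + 1)) = k + 1 := by omega
  rw [e] at h2
  have m1 : slp x y 0 ≤ slp x y k := slp_mono hs (by omega) (by omega)
  have m2 : slp x y k ≤ slp x y (k + 1) := hs k hr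
  have m3 : slp x y (k + 1) ≤ slp x y (W - 1) := slp_mono hs (by omega) (by omega)
  have u0 : x 0 < x 1 := hx 0 (by omega)
  have u1 : x 1 ≤ x (k + 1) := x_mono' hx (by omega) (by omega)
  have v0 : x (W - 1) < x W := by
    have := hx (W - 1) (by omega)
    rwa [show W - 1 + 1 = W by omega] at this
  have v1 : x (k + 1) ≤ x (W - 1) := x_mono' hx (by omega) (by omega)
  set u := x (k + 1) - x 0 with hu
  set v := x W - x (k + 1) with hv
  set a := x 1 - x 0 with ha
  set b := x W - x (W - 1) with hb
  have hu0 : 0 < u := by linarith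
  have hv0 : 0 < v := by linarith
  have ha0 : 0 < a := by linarith
  have hb0 : 0 < b := by linarith
  set s0 := slp x y 0 with hs0
  set s1 := slp x y k with hs1
  set s2 := slp x y (k + 1) with hs2
  set s3 := slp x y (W - 1) with hs3
  have key : (x W - x 0) * (y (k + 1) - y 0) - (y W - y 0) * (x (k + 1) - x 0) =
      v * (y (k + 1) - y 0) - u * (y W - y (k + 1)) := by
    rw [hu, hv]; ring
  rw [key]
  have k1 : v * (y (k + 1) - y 0) ≤ v * (s1 * u - a * (s1 - s0)) :=
    mul_le_mul_of_nonneg_left h1 hv0.le
  have k2 : u * (s2 * v + b * (s3 - s2)) ≤ u * (y W - y (k + 1)) :=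
    mul_le_mul_of_nonneg_left h2 hu0.le
  have k3 : 0 < u * v * (s2 - s1) + v * a * (s1 - s0) + u * b * (s3 - s2) := by
    have p1 : 0 ≤ u * v * (s2 - s1) := by
      have : 0 < u * v := by positivity
      exact mul_nonneg this.le (by linarith)
    have p2 : 0 ≤ v * a * (s1 - s0) := by
      have : 0 < v * a := by positivity
      exact mul_nonneg this.le (by linarith)
    have p3 : 0 ≤ u * b * (s3 - s2) := by
      have : 0 < u * b := by positivity
      exact mul_nonneg this.le (by linarith)
    rcases m1.lt_or_eq with h | h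
    · have : 0 < v * a * (s1 - s0) := by
        have : 0 < v * a := by positivity
        exact mul_pos this (by linarith)
      linarith
    · rcases m2.lt_or_eq with h' | h'
      · have : 0 < u * v * (s2 - s1) := by
          have : 0 < u * v := by positivity
          exact mul_pos this (by linarith)
        linarith
      · have : 0 < u * b * (s3 - s2) := by
          have : 0 < u * b := by positivity
          exact mul_pos this (by linarith)
        linarith
  have e1 : v * (s1 * u - a * (s1 - s0)) - u * (s2 * v + b * (s3 - s2)) =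
      -(u * v * (s2 - s1) + v * a * (s1 - s0) + u * b * (s3 - s2)) := by ring
  linarith

end C2305bB
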