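import Pool.Agent.W_c2305b_h19.Frame

/-!
# Bounds for the flux jumps
-/

namespace C2305bB

variable {L T R x y : ℝ}

theorem J_neg (a b x y : ℝ) : J (-a) (-b) x (-y) = J a b x y := by
  unfold J; ring

theorem flat_flip {F : Fr} (h : L * |F.S| ≤ T * F.c) : L * |F.flip.S| ≤ T * F.flip.c := by
  unfold Fr.flip; simpa using h

theorem steep_flip {F : Fr} (h : T * F.c < L * |F.S|) : T * F.flip.c < L * |F.flip.S| := by
  unfold Fr.flip; simpa using h

theorem flat_fit (hT : 0 < T) (hL : 10 * T ≤ L) (hR : 0 ≤ R) {F : Fr}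
    (h : L * |F.S| ≤ T * F.c) (hF : Fits L F R x y) :
    |y - al L T F * x| ≤ 102 / 100 * R := by
  have hc := c_of_flat hT hL h
  rw [al_flat h]
  have h1 := hF.b2 hR
  have hc0 : 0 < F.c := by linarith
  have e : F.c * y - L * F.S * x = F.c * (y - L * F.S / F.c * x) := by
    field_simp
  rw [e, abs_mul, abs_of_pos hc0] at h1
  have h2 := abs_nonneg (y - L * F.S / F.c * x)
  nlinarith

theorem J_flat_flat (hT : 0 < T) (hL : 10 * T ≤ L) (hR : 0 ≤ R) {F G : Fr}
    (hF : L * |F.S| ≤ T * F.c) (hG : L * |G.S| ≤ T * G.c) (fF : Fits L F R x y)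
    (fG : Fits L G R x y) :
    |J (al L T F) (al L T G) x y| ≤ 102 / 100 * R * |al L T F - al L T G| := by
  have h1 := flat_fit hT hL hR hF fF
  have h2 := flat_fit hT hL hR hG fG
  rw [J_abs]
  have e : y - (al L T F + al L T G) / 2 * x
      = ((y - al L T F * x) + (y - al L T G * x)) / 2 := by ring
  have h3 : |y - (al L T F + al L T G) / 2 * x| ≤ 102 / 100 * R := by
    rw [e, abs_div, abs_two]
    have := abs_add_le (y - al L T F * x) (y - al L T G * x)
    linarith
  have h4 := abs_nonneg (al L T F - al L T G)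
  nlinarith

/-- The decomposition of the mismatch of a flat and a steep frame. -/
theorem mis_flat_steep (hT : 0 < T) (hL : 10 * T ≤ L) {F G : Fr}
    (hF : L * |F.S| ≤ T * F.c) (hG : T * G.c < L * |G.S|) (hS : 0 < G.S) :
    mis L F G = F.c * ((L * G.S - T * G.c) + G.c * (T - al L T F)) ∧
    0 ≤ L * G.S - T * G.c ∧ 0 ≤ T - al L T F := by
  have hL0 : 0 < L := by linarith
  have hc := c_of_flat hT hL hF
  have hc0 : 0 < F.c := by linarith
  have ha := (abs_le.1 (abs_al_le hT hL F)).2
  have h1 : 0 ≤ L * G.S - T * G.c := by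
    rw [abs_of_pos hS] at hG; linarith
  have h2 : 0 ≤ T - al L T F := by linarith
  refine ⟨?_, h1, h2⟩
  have e : L * (F.c * G.S - F.S * G.c)
      = F.c * ((L * G.S - T * G.c) + G.c * (T - al L T F)) := by
    rw [al_flat hF]
    field_simp
    ring
  have h3 : 0 ≤ L * (F.c * G.S - F.S * G.c) := by
    rw [e]
    have := G.c0
    positivity
  unfold mis sn
  rw [abs_of_nonneg, e]
  exact nonneg_of_mul_nonneg_right h3 hL0

theorem S_ge_of_c (F : Fr) (h : F.c < 1 / 2) (hS : 0 ≤ F.S) : 86 / 100 ≤ F.S := by
  have h1 := F.nrm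
  have h2 := F.c0
  by_contra hc
  push Not at hc
  nlinarith

theorem flat_steep_x (hT : 0 < T) (hL : 10 * T ≤ L) (hR : 0 ≤ R) {F G : Fr}
    (hF : L * |F.S| ≤ T * F.c) (hG : T * G.c < L * |G.S|) (hS : 0 < G.S)
    (fF : Fits L F R x y) (fG : Fits L G R x y) :
    |x| * |al L T F - al L T G| ≤ 43 / 10 * R := by
  have hL0 : 0 < L := by linarith
  have hc := c_of_flat hT hL hF
  have hc0 : 0 < F.c := by linarith
  obtain ⟨e, h1, h2⟩ := mis_flat_steep hT hL hF hG hS
  obtain ⟨w0, w1⟩ := T_sub_al hT hL hG hS
  have hx := x_mis_le hL0.le hR fF fG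
  have hx2 : |x| * mis L F G ≤ 2 * R := by nlinarith [F.c_le_one, G.c_le_one]
  rw [e] at hx2
  have hG0 := G.c0
  have hxn := abs_nonneg x
  set p := L * G.S - T * G.c with hp
  set u := T - al L T F with hu
  set w := T - al L T G with hw
  have h3 : |x| * (p + G.c * u) ≤ 203 / 100 * R := by
    have h4 : |x| * (F.c * (p + G.c * u)) = F.c * (|x| * (p + G.c * u)) := by ring
    rw [h4] at hx2
    have h5 : 0 ≤ |x| * (p + G.c * u) := by positivity
    nlinarith
  have h5 : |x| * p ≤ 203 / 100 * R := by
    have : 0 ≤ |x| * (G.c * u) := by positivity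
    nlinarith
  have h6 : |x| * (G.c * u) ≤ 203 / 100 * R := by
    have : 0 ≤ |x| * p := by positivity
    nlinarith
  have h7 : |x| * w ≤ 21 / 100 * R := by
    have hTL : T / L ≤ 1 / 10 := by
      rw [div_le_div_iff₀ hL0 (by norm_num)]; linarith
    have hTL0 : 0 ≤ T / L := by positivity
    calc |x| * w ≤ |x| * (T / L * p) := mul_le_mul_of_nonneg_left w1 hxn
      _ = T / L * (|x| * p) := by ring
      _ ≤ 1 / 10 * (203 / 100 * R) := by
        apply mul_le_mul hTL h5 (by positivity) (by norm_num)
      _ ≤ 21 / 100 * R := by nlinarith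
  have h8 : |x| * u ≤ 407 / 100 * R := by
    rcases le_or_gt (1 / 2) G.c with hg | hg
    · have h9 : |x| * (G.c * u) = G.c * (|x| * u) := by ring
      rw [h9] at h6
      have h10 : 0 ≤ |x| * u := by positivity
      nlinarith
    · have hSg := S_ge_of_c G hg hS.le
      have hp8 : 8 / 10 * L ≤ p := by nlinarith
      have hu2 : u ≤ 2 * T := by
        have := (abs_le.1 (abs_al_le hT hL F)).1
        linarith
      have h11 : |x| * (8 / 10 * L) ≤ 203 / 100 * R :=
        (mul_le_mul_of_nonneg_left hp8 hxn).trans h5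
      have h12 : |x| * u ≤ |x| * (2 / 10 * L) :=
        mul_le_mul_of_nonneg_left (by linarith) hxn
      nlinarith
  have h13 : |al L T F - al L T G| ≤ u + w := by
    have : al L T F - al L T G = w - u := by rw [hw, hu]; ring
    rw [this]
    refine (abs_sub _ _).trans ?_
    rw [abs_of_nonneg w0, abs_of_nonneg h2]
    linarith
  calc |x| * |al L T F - al L T G| ≤ |x| * (u + w) := mul_le_mul_of_nonneg_left h13 hxn
    _ = |x| * u + |x| * w := by ring
    _ ≤ 43 / 10 * R := by linarith

theorem J_flat_steep_pos (hT : 0 < T) (hL : 10 * T ≤ L) (hR : 0 ≤ R) {F G : Fr}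
    (hF : L * |F.S| ≤ T * F.c) (hG : T * G.c < L * |G.S|) (hS : 0 < G.S)
    (fF : Fits L F R x y) (fG : Fits L G R x y) :
    |J (al L T F) (al L T G) x y| ≤ 7 * R * T := by
  have h1 := flat_fit hT hL hR hF fF
  have h2 := flat_steep_x hT hL hR hF hG hS fF fG
  have a1 := abs_al_le hT hL F
  have a2 := abs_al_le hT hL G
  rw [J_abs]
  have e : y - (al L T F + al L T G) / 2 * x
      = (y - al L T F * x) + (al L T F - al L T G) * x / 2 := by ring
  have h3 : |y - (al L T F + al L T G) / 2 * x| ≤ 32 / 10 * R := by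
    rw [e]
    refine (abs_add_le _ _).trans ?_
    rw [abs_div, abs_two, abs_mul, mul_comm |al L T F - al L T G|]
    linarith
  have h4 : |al L T F - al L T G| ≤ 2 * T := (abs_sub _ _).trans (by linarith)
  calc |al L T F - al L T G| * |y - (al L T F + al L T G) / 2 * x|
      ≤ (2 * T) * (32 / 10 * R) := mul_le_mul h4 h3 (abs_nonneg _) (by linarith)
    _ ≤ 7 * R * T := by nlinarith [mul_nonneg hR hT.le]

theorem J_steep_same (hT : 0 < T) (hL : 10 * T ≤ L) (hR : 0 ≤ R) {F G : Fr}
    (hF : T * F.c < L * |F.S|) (hG : T * G.c < L * |G.S|) (hFS : 0 < F.S) (hGS : 0 < G.S)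
    (fF : Fits L F R x y) (fG : Fits L G R x y) :
    |al L T F - al L T G| ≤ 101 / 100 * T * (mis L F G / L) ∧
    |J (al L T F) (al L T G) x y| ≤ 7 * R * T := by
  have hL0 : 0 < L := by linarith
  have hk := k_bounds hT hL
  set k := Real.sqrt (1 + T ^ 2 / L ^ 2) with hkdef
  have hd := c_diff_le hFS.le hGS.le
  have hml : mis L F G / L = sn F G := by unfold mis; field_simp
  have a0 : |al L T F - al L T G| = T * k * |F.c - G.c| := by
    rw [al_steep_pos hF hFS, al_steep_pos hG hGS, ← hkdef]
    have : T * F.c * k - T * G.c * k = T * k * (F.c - G.c) := by ring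
    rw [this, abs_mul, abs_of_nonneg (by positivity : 0 ≤ T * k)]
  have hsn := sn_nonneg F G
  have a1 : |al L T F - al L T G| ≤ 101 / 100 * T * sn F G := by
    rw [a0]
    have : T * k ≤ 101 / 100 * T := by nlinarith
    exact mul_le_mul this hd (abs_nonneg _) (by positivity)
  refine ⟨by rw [hml]; exact a1, ?_⟩
  have hy := y_sn_le hR fF fG
  have hy2 : |y| * sn F G ≤ 2 * R := by
    have := F.abs_S_le
    have := G.abs_S_le
    nlinarith
  have hx := x_mis_le hL0.le hR fF fG
  have hx2 : |x| * (L * sn F G) ≤ 2 * R := by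
    unfold mis at hx
    nlinarith [F.c_le_one, G.c_le_one]
  rw [J_abs]
  have hm : |(al L T F + al L T G) / 2| ≤ T := by
    rw [abs_div, abs_two]
    have := abs_add_le (al L T F) (al L T G)
    have := abs_al_le hT hL F
    have := abs_al_le hT hL G
    linarith
  have h3 : |y - (al L T F + al L T G) / 2 * x| ≤ |y| + T * |x| := by
    refine (abs_sub _ _).trans ?_
    rw [abs_mul]
    have := mul_le_mul_of_nonneg_right hm (abs_nonneg x)
    linarith
  calc |al L T F - al L T G| * |y - (al L T F + al L T G) / 2 * x|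
      ≤ (101 / 100 * T * sn F G) * (|y| + T * |x|) :=
        mul_le_mul a1 h3 (abs_nonneg _) (by positivity)
    _ = 101 / 100 * T * (|y| * sn F G) + 101 / 100 * T * (T * (|x| * sn F G)) := by ring
    _ ≤ 7 * R * T := by
        have h4 : T * (|x| * sn F G) ≤ 2 / 10 * R := by
          have h5 : 10 * (T * (|x| * sn F G)) ≤ |x| * (L * sn F G) := by
            have h6 : 0 ≤ |x| * sn F G := mul_nonneg (abs_nonneg _) hsn
            nlinarith
          linarith
        have h7 : 0 ≤ R * T := by positivity
        nlinarith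

theorem J_steep_opp (hT : 0 < T) (hL : 10 * T ≤ L) (hR : 0 ≤ R) {F G : Fr}
    (hF : T * F.c < L * |F.S|) (hG : T * G.c < L * |G.S|) (hFS : 0 < F.S) (hGS : G.S < 0)
    (fF : Fits L F R x y) (fG : Fits L G R x y) :
    |J (al L T F) (al L T G) x y| ≤ 7 * R * T := by
  have hL0 : 0 < L := by linarith
  have hk := k_bounds hT hL
  have hk0 : 0 < Real.sqrt (1 + T ^ 2 / L ^ 2) := by linarith [hk.1]
  set k := Real.sqrt (1 + T ^ 2 / L ^ 2) with hkdef
  obtain ⟨hD, hD2⟩ := opp_ineq hFS.le hGS.le
  have b1 := fF.b2 hR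
  have b2 := fG.b2 hR
  have hF0 := F.c0
  have hG0 := G.c0
  rw [abs_of_pos hFS] at hF
  rw [abs_of_neg hGS] at hG
  have aF : al L T F = T * F.c * k := al_steep_pos (by rw [abs_of_pos hFS]; exact hF) hFS
  have aG : al L T G = -(T * G.c * k) :=
    al_steep_neg (by rw [abs_of_neg hGS]; exact hG) hGS.le
  rw [J_abs, aF, aG]
  set m := (T * F.c * k + -(T * G.c * k)) / 2 with hm
  have hm1 : |m| ≤ 51 / 100 * T := by
    rw [hm]
    have h1 : (T * F.c * k + -(T * G.c * k)) / 2 = T * k / 2 * (F.c - G.c) := by ring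
    rw [h1, abs_mul, abs_of_nonneg (by positivity)]
    have h2 : |F.c - G.c| ≤ 1 := by
      rw [abs_le]; constructor <;> linarith [F.c_le_one, G.c_le_one]
    have h3 : T * k / 2 ≤ 51 / 100 * T := by nlinarith
    calc T * k / 2 * |F.c - G.c| ≤ 51 / 100 * T * 1 :=
          mul_le_mul h3 h2 (abs_nonneg _) (by positivity)
      _ = 51 / 100 * T := by ring
  set D := sn F G with hDdef
  have hDn : 0 ≤ D := sn_nonneg F G
  set s := -G.S with hs
  have hs0 : 0 < s := by rw [hs]; linarith
  have key : (y - m * x) * (L * D)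
      = (L * s + m * G.c) * (F.c * y - L * F.S * x)
        + (L * F.S - m * F.c) * (G.c * y - L * G.S * x) := by
    have : G.S = -s := by rw [hs]; ring
    rw [hD, this]; ring
  have A1 : |L * s + m * G.c| ≤ 151 / 100 * (L * s) := by
    refine (abs_add_le _ _).trans ?_
    rw [abs_of_pos (by positivity : 0 < L * s), abs_mul, abs_of_nonneg hG0]
    have : |m| * G.c ≤ 51 / 100 * T * G.c := mul_le_mul_of_nonneg_right hm1 hG0
    nlinarith
  have A2 : |L * F.S - m * F.c| ≤ 151 / 100 * (L * F.S) := by
    refine (abs_sub _ _).trans ?_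
    rw [abs_of_pos (by positivity : 0 < L * F.S), abs_mul, abs_of_nonneg hF0]
    have : |m| * F.c ≤ 51 / 100 * T * F.c := mul_le_mul_of_nonneg_right hm1 hF0
    nlinarith
  have h5 : |y - m * x| * (L * D) ≤ 151 / 100 * R * (L * (s + F.S)) := by
    have e : |y - m * x| * (L * D) = |(y - m * x) * (L * D)| := by
      rw [abs_mul, abs_of_nonneg (by positivity : 0 ≤ L * D)]
    rw [e, key]
    refine (abs_add_le _ _).trans ?_
    rw [abs_mul, abs_mul]
    have c1 := mul_le_mul A1 b1 (abs_nonneg _) (by positivity)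
    have c2 := mul_le_mul A2 b2 (abs_nonneg _) (by positivity)
    nlinarith
  have h6 : |y - m * x| * D ≤ 151 / 100 * R * (s + F.S) := by
    have : L * (|y - m * x| * D) ≤ L * (151 / 100 * R * (s + F.S)) := by linarith
    exact le_of_mul_le_mul_left this hL0
  have h7 : (F.c + G.c) * (s + F.S) ≤ 2 * D := by nlinarith
  rcases hDn.eq_or_lt with h0 | hpos
  · have hz1 : F.c * s = 0 := by
      have : 0 ≤ F.c * s := by positivity
      have : 0 ≤ F.S * G.c := by positivity
      linarith
    have hz2 : F.S * G.c = 0 := by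
      have : 0 ≤ F.c * s := by positivity
      have : 0 ≤ F.S * G.c := by positivity
      linarith
    have z1 : F.c = 0 := by
      rcases mul_eq_zero.1 hz1 with h | h
      · exact h
      · exact absurd h hs0.ne'
    have z2 : G.c = 0 := by
      rcases mul_eq_zero.1 hz2 with h | h
      · exact absurd h hFS.ne'
      · exact h
    rw [z1, z2]
    simp only [mul_zero, zero_mul, neg_zero, sub_zero, abs_zero]
    positivity
  · have h8 : |y - m * x| * (F.c + G.c) ≤ 302 / 100 * R := by
      have h9 : (|y - m * x| * (F.c + G.c)) * D ≤ 302 / 100 * R * D := by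
        calc (|y - m * x| * (F.c + G.c)) * D = (F.c + G.c) * (|y - m * x| * D) := by ring
          _ ≤ (F.c + G.c) * (151 / 100 * R * (s + F.S)) :=
              mul_le_mul_of_nonneg_left h6 (by linarith)
          _ = 151 / 100 * R * ((F.c + G.c) * (s + F.S)) := by ring
          _ ≤ 151 / 100 * R * (2 * D) := mul_le_mul_of_nonneg_left h7 (by positivity)
          _ = 302 / 100 * R * D := by ring
      exact le_of_mul_le_mul_right h9 hpos
    have e : |T * F.c * k - -(T * G.c * k)| = T * k * (F.c + G.c) := by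
      have : T * F.c * k - -(T * G.c * k) = T * k * (F.c + G.c) := by ring
      rw [this, abs_of_nonneg (by positivity)]
    rw [e]
    calc T * k * (F.c + G.c) * |y - m * x| = T * k * (|y - m * x| * (F.c + G.c)) := by ring
      _ ≤ T * k * (302 / 100 * R) := mul_le_mul_of_nonneg_left h8 (by positivity)
      _ ≤ 7 * R * T := by
        have : T * k ≤ 101 / 100 * T := by nlinarith
        nlinarith [mul_nonneg hR hT.le]

theorem steep_S_ne {F : Fr} (hT : 0 < T) (h : T * F.c < L * |F.S|) : F.S ≠ 0 := by
  intro h0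
  rw [h0] at h
  have := F.c0
  simp at h
  nlinarith

/-- (1b): every jump is at most `7 R T`. -/
theorem J_le (hT : 0 < T) (hL : 10 * T ≤ L) (hR : 0 ≤ R) (F G : Fr)
    (fF : Fits L F R x y) (fG : Fits L G R x y) :
    |J (al L T F) (al L T G) x y| ≤ 7 * R * T := by
  have flipJ : |J (al L T F) (al L T G) x y|
      = |J (al L T F.flip) (al L T G.flip) x (-y)| := by
    rw [al_flip hT.le, al_flip hT.le, J_neg]
  rcases le_or_gt (L * |F.S|) (T * F.c) with hF | hF
  · rcases le_or_gt (L * |G.S|) (T * G.c) with hG | hG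
    · have h1 := J_flat_flat hT hL hR hF hG fF fG
      have a1 := abs_al_le hT hL F
      have a2 := abs_al_le hT hL G
      have h4 : |al L T F - al L T G| ≤ 2 * T := (abs_sub _ _).trans (by linarith)
      have : 0 ≤ R * T := by positivity
      nlinarith
    · rcases lt_or_gt_of_ne (steep_S_ne hT hG) with hS | hS
      · rw [flipJ]
        exact J_flat_steep_pos hT hL hR (flat_flip hF) (steep_flip hG)
          (by unfold Fr.flip; simp only; linarith) fF.flip fG.flip
      · exact J_flat_steep_pos hT hL hR hF hG hS fF fG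
  · rcases le_or_gt (L * |G.S|) (T * G.c) with hG | hG
    · rw [J_swap]
      rcases lt_or_gt_of_ne (steep_S_ne hT hF) with hS | hS
      · rw [← J_neg, ← al_flip hT.le, ← al_flip hT.le]
        exact J_flat_steep_pos hT hL hR (flat_flip hG) (steep_flip hF)
          (by unfold Fr.flip; simp only; linarith) fG.flip fF.flip
      · exact J_flat_steep_pos hT hL hR hG hF hS fG fF
    · rcases lt_or_gt_of_ne (steep_S_ne hT hF) with hS | hS
      · rcases lt_or_gt_of_ne (steep_S_ne hT hG) with hS' | hS'
        · rw [flipJ]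
          exact (J_steep_same hT hL hR (steep_flip hF) (steep_flip hG)
            (by unfold Fr.flip; simp only; linarith) (by unfold Fr.flip; simp only; linarith)
            fF.flip fG.flip).2
        · rw [J_swap]
          exact J_steep_opp hT hL hR hG hF hS' hS fG fF
      · rcases lt_or_gt_of_ne (steep_S_ne hT hG) with hS' | hS'
        · exact J_steep_opp hT hL hR hF hG hS hS' fF fG
        · exact (J_steep_same hT hL hR hF hG hS hS' fF fG).2

/-! ### Small mismatch -/

/-- (1c) -/
theorem J_small_flat_pos (hT : 2 ≤ T) (hL : 10 * T ≤ L) (hR : 0 ≤ R) {F G : Fr}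
    (hF : L * |F.S| ≤ T * F.c) (hG : T * G.c < L * |G.S|) (hS : 0 < G.S)
    (fF : Fits L F R x y) (hm : mis L F G ≤ 1) :
    |J (al L T F) (al L T G) x y| ≤ 3 * R * mis L F G := by
  have hT0 : 0 < T := by linarith
  have hL0 : 0 < L := by linarith
  have hL1 : 1 ≤ L := by linarith
  have hc := c_of_flat hT0 hL hF
  have hc0 : 0 < F.c := by linarith
  obtain ⟨e, h1, h2⟩ := mis_flat_steep hT0 hL hF hG hS
  obtain ⟨w0, w1⟩ := T_sub_al hT0 hL hG hS
  have hx := fF.x_le hL1 hR
  have hG0 := G.c0
  have hG1 := G.c_le_one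
  set M := mis L F G with hM
  have hM0 : 0 ≤ M := by rw [hM]; unfold mis; exact mul_nonneg hL0.le (sn_nonneg _ _)
  set p := L * G.S - T * G.c with hp
  set u := T - al L T F with hu
  set w := T - al L T G with hw
  have h3 : p + G.c * u ≤ 102 / 100 * M := by
    have h5 : 0 ≤ p + G.c * u := by positivity
    nlinarith
  have h5 : p ≤ 102 / 100 * M := by
    have : 0 ≤ G.c * u := by positivity
    linarith
  have h6 : G.c * u ≤ 102 / 100 * M := by linarith
  have hSG : G.S ≤ 16 / 100 := by
    have h7 : L * G.S ≤ 102 / 100 + T := by nlinarith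
    by_contra hc
    push Not at hc
    nlinarith
  have hGc : 98 / 100 ≤ G.c := by
    have := G.nrm
    by_contra hc
    push Not at hc
    nlinarith
  have h8 : u ≤ 105 / 100 * M := by nlinarith
  have h9 : w ≤ 11 / 100 * M := by
    have hTL : T / L ≤ 1 / 10 := by
      rw [div_le_div_iff₀ hL0 (by norm_num)]; linarith
    have hTL0 : 0 ≤ T / L := by positivity
    calc w ≤ T / L * p := w1
      _ ≤ 1 / 10 * (102 / 100 * M) := mul_le_mul hTL h5 h1 (by norm_num)
      _ ≤ 11 / 100 * M := by linarith
  have h13 : |al L T F - al L T G| ≤ 105 / 100 * M := by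
    have : al L T F - al L T G = w - u := by rw [hw, hu]; ring
    rw [this, abs_le]
    constructor <;> linarith
  have h14 := flat_fit hT0 hL hR hF fF
  rw [J_abs]
  have e2 : y - (al L T F + al L T G) / 2 * x
      = (y - al L T F * x) + (al L T F - al L T G) * x / 2 := by ring
  have h15 : |y - (al L T F + al L T G) / 2 * x| ≤ 16 / 10 * R := by
    rw [e2]
    refine (abs_add_le _ _).trans ?_
    rw [abs_div, abs_two, abs_mul]
    have : |al L T F - al L T G| * |x| ≤ 105 / 100 * 1 * R := by
      apply mul_le_mul (by linarith) hx (abs_nonneg _) (by norm_num)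
    linarith
  calc |al L T F - al L T G| * |y - (al L T F + al L T G) / 2 * x|
      ≤ (105 / 100 * M) * (16 / 10 * R) := mul_le_mul h13 h15 (abs_nonneg _) (by positivity)
    _ ≤ 3 * R * M := by nlinarith [mul_nonneg hR hM0]

theorem mis_flip (F G : Fr) : mis L F.flip G.flip = mis L F G := by
  unfold mis; rw [sn_flip]

theorem mis_comm (F G : Fr) : mis L F G = mis L G F := by
  unfold mis; rw [sn_comm]

/-- (1c): mismatch at most `1`, the first frame is not steep. -/
theorem J_small (hT : 2 ≤ T) (hL : 10 * T ≤ L) (hR : 0 ≤ R) {F G : Fr}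
    (hF : L * |F.S| ≤ T * F.c) (fF : Fits L F R x y) (fG : Fits L G R x y)
    (hm : mis L F G ≤ 1) :
    |J (al L T F) (al L T G) x y| ≤ 3 * R * mis L F G := by
  have hT0 : 0 < T := by linarith
  have hL0 : 0 < L := by linarith
  rcases le_or_gt (L * |G.S|) (T * G.c) with hG | hG
  · have h1 := J_flat_flat hT0 hL hR hF hG fF fG
    have c1 := c_of_flat hT0 hL hF
    have c2 := c_of_flat hT0 hL hG
    have e : |al L T F - al L T G| ≤ 103 / 100 * mis L F G := by
      rw [al_flat hF, al_flat hG]
      have hc1 : 0 < F.c := by linarith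
      have hc2 : 0 < G.c := by linarith
      have e1 : L * F.S / F.c - L * G.S / G.c
          = -(L * (F.c * G.S - F.S * G.c)) / (F.c * G.c) := by
        field_simp
        ring
      rw [e1, abs_div, abs_neg, abs_mul, abs_of_pos hL0,
        abs_of_pos (by positivity : 0 < F.c * G.c), div_le_iff₀ (by positivity)]
      have h3 : 98 / 100 ≤ F.c * G.c := by nlinarith
      unfold mis sn
      have h4 : 0 ≤ L * |F.c * G.S - F.S * G.c| := by positivity
      nlinarith
    have hM0 : 0 ≤ mis L F G := by unfold mis; exact mul_nonneg hL0.le (sn_nonneg _ _)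
    have h5 : 102 / 100 * R * |al L T F - al L T G|
        ≤ 102 / 100 * R * (103 / 100 * mis L F G) :=
      mul_le_mul_of_nonneg_left e (by positivity)
    nlinarith [mul_nonneg hR hM0]
  · rcases lt_or_gt_of_ne (steep_S_ne hT0 hG) with hS | hS
    · rw [← J_neg, ← al_flip hT0.le, ← al_flip hT0.le, ← mis_flip]
      exact J_small_flat_pos hT hL hR (flat_flip hF) (steep_flip hG)
        (by unfold Fr.flip; simp only; linarith) fF.flip (by rw [mis_flip]; exact hm)
    · exact J_small_flat_pos hT hL hR hF hG hS fF hm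

/-- (1d), opposite signs. -/
theorem al_small_opp (hT : 2 ≤ T) (hL : 10 * T ≤ L) {F G : Fr}
    (hF : T * F.c < L * |F.S|) (hG : T * G.c < L * |G.S|) (hFS : 0 < F.S) (hGS : G.S < 0)
    (hm : mis L F G ≤ 1) :
    |al L T F - al L T G| ≤ 21 / 10 * (T * (mis L F G / L)) := by
  have hT0 : 0 < T := by linarith
  have hL0 : 0 < L := by linarith
  have hk := k_bounds hT0 hL
  set k := Real.sqrt (1 + T ^ 2 / L ^ 2) with hkdef
  obtain ⟨hD, hD2⟩ := opp_ineq hFS.le hGS.le
  have hF0 := F.c0
  have hG0 := G.c0
  have hF1 := F.nrm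
  have hG1 := G.nrm
  have hml : mis L F G / L = sn F G := by unfold mis; field_simp
  rw [hml]
  rw [abs_of_pos hFS] at hF
  rw [abs_of_neg hGS] at hG
  have aF : al L T F = T * F.c * k := al_steep_pos (by rw [abs_of_pos hFS]; exact hF) hFS
  have aG : al L T G = -(T * G.c * k) :=
    al_steep_neg (by rw [abs_of_neg hGS]; exact hG) hGS.le
  set D := sn F G with hDdef
  have hLD : L * D ≤ 1 := hm
  set s := -G.S with hs
  have hs0 : 0 < s := by rw [hs]; linarith
  have hs2 : s ^ 2 = G.S ^ 2 := by rw [hs]; ring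
  have p1 : 0 ≤ F.c * s := by positivity
  have p2 : 0 ≤ F.S * G.c := by positivity
  have q1 : L * (F.c * s) ≤ 1 := by nlinarith
  have q2 : L * (F.S * G.c) ≤ 1 := by nlinarith
  have hFS2 : 1 / 2 ≤ F.S := by
    by_contra hc
    push Not at hc
    have c1 : 86 / 100 ≤ F.c := by
      by_contra hc'
      push Not at hc'
      nlinarith
    have c2 : L * s ≤ 117 / 100 := by nlinarith
    have c3 : G.c ≤ 59 / 100 := by nlinarith
    have c4 : 8 / 10 ≤ s := by
      by_contra hc'
      push Not at hc'
      nlinarith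
    nlinarith
  have hs2 : 1 / 2 ≤ s := by
    by_contra hc
    push Not at hc
    have c1 : 86 / 100 ≤ G.c := by
      by_contra hc'
      push Not at hc'
      nlinarith
    have c2 : L * F.S ≤ 117 / 100 := by nlinarith
    have c3 : F.c ≤ 59 / 100 := by nlinarith
    have c4 : 8 / 10 ≤ F.S := by
      by_contra hc'
      push Not at hc'
      nlinarith
    nlinarith
  have h1 : F.c + G.c ≤ 2 * D := by nlinarith
  rw [aF, aG]
  have e : T * F.c * k - -(T * G.c * k) = T * k * (F.c + G.c) := by ring
  rw [e, abs_of_nonneg (by positivity)]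
  have hTk : T * k ≤ 101 / 100 * T := by nlinarith
  calc T * k * (F.c + G.c) ≤ (101 / 100 * T) * (2 * D) :=
        mul_le_mul hTk h1 (by linarith) (by positivity)
    _ ≤ 21 / 10 * (T * D) := by
      have : 0 ≤ T * D := mul_nonneg hT0.le (sn_nonneg _ _)
      nlinarith

/-- (1d): both steep, mismatch at most `1`. -/
theorem J_small_steep (hT : 2 ≤ T) (hL : 10 * T ≤ L) {F G : Fr}
    (hF : T * F.c < L * |F.S|) (hG : T * G.c < L * |G.S|) (hm : mis L F G ≤ 1) :
    |J (al L T F) (al L T G) x y|
      ≤ 21 / 10 * (T * (mis L F G / L)) * (|y| + T * |x|) := by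
  have hT0 : 0 < T := by linarith
  have hL0 : 0 < L := by linarith
  have hM0 : 0 ≤ mis L F G := by unfold mis; exact mul_nonneg hL0.le (sn_nonneg _ _)
  have key : |al L T F - al L T G| ≤ 21 / 10 * (T * (mis L F G / L)) := by
    have same : ∀ {F G : Fr}, T * F.c < L * |F.S| → T * G.c < L * |G.S| → 0 < F.S → 0 < G.S →
        |al L T F - al L T G| ≤ 21 / 10 * (T * (mis L F G / L)) := by
      intro F G hF hG hFS hGS
      have z : Fits L F 0 0 0 := by unfold Fits; simp
      have z' : Fits L G 0 0 0 := by unfold Fits; simp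
      have h := (J_steep_same (R := 0) (x := 0) (y := 0) hT0 hL le_rfl hF hG hFS hGS z z').1
      have : 0 ≤ T * (mis L F G / L) := by
        have : 0 ≤ mis L F G := by unfold mis; exact mul_nonneg hL0.le (sn_nonneg _ _)
        positivity
      nlinarith
    rcases lt_or_gt_of_ne (steep_S_ne hT0 hF) with hS | hS
    · rcases lt_or_gt_of_ne (steep_S_ne hT0 hG) with hS' | hS'
      · have h := same (steep_flip hF) (steep_flip hG)
          (by unfold Fr.flip; simp only; linarith) (by unfold Fr.flip; simp only; linarith)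
        rw [al_flip hT0.le, al_flip hT0.le, mis_flip] at h
        have e : - al L T F - - al L T G = -(al L T F - al L T G) := by ring
        rw [e, abs_neg] at h
        exact h
      · rw [abs_sub_comm, mis_comm]
        exact al_small_opp hT hL hG hF hS' hS (by rw [mis_comm]; exact hm)
    · rcases lt_or_gt_of_ne (steep_S_ne hT0 hG) with hS' | hS'
      · exact al_small_opp hT hL hF hG hS hS' hm
      · exact same hF hG hS hS'
  rw [J_abs]
  have hmm : |(al L T F + al L T G) / 2| ≤ T := by
    rw [abs_div, abs_two]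
    have := abs_add_le (al L T F) (al L T G)
    have := abs_al_le hT0 hL F
    have := abs_al_le hT0 hL G
    linarith
  have h3 : |y - (al L T F + al L T G) / 2 * x| ≤ |y| + T * |x| := by
    refine (abs_sub _ _).trans ?_
    rw [abs_mul]
    have := mul_le_mul_of_nonneg_right hmm (abs_nonneg x)
    linarith
  exact mul_le_mul key h3 (abs_nonneg _) (by positivity)

/-- (1e): a boundary side of slope `s`, `|s| ≤ T`. -/
theorem side_loss (hT : 0 < T) (hL : 10 * T ≤ L) (hR : 0 ≤ R) {F : Fr} {s : ℝ}
    (hs : |s| ≤ T) (hx : 0 ≤ x) (fF : Fits L F R x (s * x)) :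
    x * (s - al L T F) ^ 2 ≤ 5 * R * T := by
  have hL0 : 0 < L := by linarith
  have hRT : 0 ≤ R * T := by positivity
  have main : ∀ {F : Fr} {s : ℝ}, |s| ≤ T → Fits L F R x (s * x) → T * F.c < L * |F.S| →
      0 < F.S → x * |s - al L T F| ≤ 21 / 10 * R := by
    intro F s hs fF hF hS
    obtain ⟨w0, w1⟩ := T_sub_al hT hL hF hS
    have hc := F.c0
    have b := fF.b2 hR
    rw [abs_of_pos hS] at hF
    have hs2 := (abs_le.1 hs).2
    have hs1 := (abs_le.1 hs).1
    have e : F.c * (s * x) - L * F.S * x = -(x * ((L * F.S - T * F.c) + F.c * (T - s))) := by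
      ring
    rw [e, abs_neg, abs_of_nonneg (by
      have : 0 ≤ F.c * (T - s) := mul_nonneg hc (by linarith)
      have : 0 ≤ L * F.S - T * F.c := by linarith
      positivity)] at b
    set p := L * F.S - T * F.c with hp
    have hp0 : 0 ≤ p := by linarith
    set u := T - s with hu
    have hu0 : 0 ≤ u := by linarith
    set w := T - al L T F with hw
    have h5 : x * p ≤ R := by
      have : 0 ≤ x * (F.c * u) := by positivity
      nlinarith
    have h6 : x * (F.c * u) ≤ R := by
      have : 0 ≤ x * p := by positivity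
      nlinarith
    have h7 : x * w ≤ 1 / 10 * R := by
      have hTL : T / L ≤ 1 / 10 := by
        rw [div_le_div_iff₀ hL0 (by norm_num)]; linarith
      have hTL0 : 0 ≤ T / L := by positivity
      calc x * w ≤ x * (T / L * p) := mul_le_mul_of_nonneg_left w1 hx
        _ = T / L * (x * p) := by ring
        _ ≤ 1 / 10 * R := mul_le_mul hTL h5 (by positivity) (by norm_num)
    have h8 : x * u ≤ 2 * R := by
      rcases le_or_gt (1 / 2) F.c with hg | hg
      · have h9 : x * (F.c * u) = F.c * (x * u) := by ring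
        rw [h9] at h6
        have h10 : 0 ≤ x * u := by positivity
        nlinarith
      · have hSg := S_ge_of_c F hg hS.le
        have hp8 : 8 / 10 * L ≤ p := by nlinarith
        have h11 : x * (8 / 10 * L) ≤ R := (mul_le_mul_of_nonneg_left hp8 hx).trans h5
        have h12 : x * u ≤ x * (2 / 10 * L) := mul_le_mul_of_nonneg_left (by linarith) hx
        nlinarith
    have e2 : s - al L T F = w - u := by rw [hw, hu]; ring
    have h13 : |s - al L T F| ≤ u + w := by
      rw [e2]
      refine (abs_sub _ _).trans ?_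
      rw [abs_of_nonneg w0, abs_of_nonneg hu0]
      linarith
    calc x * |s - al L T F| ≤ x * (u + w) := mul_le_mul_of_nonneg_left h13 hx
      _ = x * u + x * w := by ring
      _ ≤ 21 / 10 * R := by linarith
  have h1 : x * |s - al L T F| ≤ 21 / 10 * R := by
    rcases le_or_gt (L * |F.S|) (T * F.c) with hF | hF
    · have h := flat_fit hT hL hR hF fF
      have e : s * x - al L T F * x = x * (s - al L T F) := by ring
      rw [e, abs_mul, abs_of_nonneg hx] at h
      linarith
    · rcases lt_or_gt_of_ne (steep_S_ne hT hF) with hS | hS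
      · have e : Fits L F.flip R x (-s * x) := by
          have := fF.flip
          rwa [← neg_mul] at this
        have h := main (F := F.flip) (s := -s) (by rw [abs_neg]; exact hs) e (steep_flip hF)
          (by unfold Fr.flip; simp only; linarith)
        rw [al_flip hT.le] at h
        have e2 : -s - - al L T F = -(s - al L T F) := by ring
        rw [e2, abs_neg] at h
        exact h
      · exact main hs fF hF hS
  have h2 : |s - al L T F| ≤ 2 * T := by
    refine (abs_sub _ _).trans ?_
    have := abs_al_le hT hL F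
    linarith
  rw [← sq_abs, sq, ← mul_assoc]
  calc x * |s - al L T F| * |s - al L T F| ≤ (21 / 10 * R) * (2 * T) :=
        mul_le_mul h1 h2 (abs_nonneg _) (by positivity)
    _ ≤ 5 * R * T := by nlinarith

end C2305bB
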