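import Mathlib

/-!
# Window lemma, pure numbers (MP_c2305b_co, part B, section 5)

`W` number of sides of the block, `Q` energy of the chain, `T` the largest slope, `X` its length,
`H` its height, `w0` number of lower darts, `w1`, `w2` numbers of bad pairs at the two levels,
`N1`, `N2` numbers of good pairs which are not both steep / both steep, `J` total jump.
-/

namespace C2305bB

theorem window_num (R c0 c a1 A : ℝ) (hR : 1 ≤ R) (hc0 : 0 < c0) (hc : 0 < c) (ha1 : 0 ≤ a1)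
    (hA : 0 ≤ A) :
    ∃ κ : ℝ, 0 < κ ∧ κ ≤ 1 ∧ ∀ C1 : ℝ, 0 ≤ C1 → ∃ W0 : ℕ, ∀ W : ℕ, W0 ≤ W →
    ∃ κ' : ℝ, 0 < κ' ∧ κ' ≤ κ ∧ ∀ C2 : ℝ, 0 ≤ C2 → ∃ L0 : ℝ,
    ∀ L T Q X H N1 N2 w0 w1 w2 J : ℝ, L0 ≤ L → 0 ≤ T → 0 ≤ H → 0 < X → X ≤ R * W →
      c * (W : ℝ) ^ 3 ≤ Q → c0 * T ^ 2 ≤ Q → H ^ 2 ≤ X * Q → H ≤ L →
      N1 ≤ a1 * (X + 2 * R) * (H + 3 * R * T) → N2 ≤ a1 * (X + 2 * R) * (H + 2 * R * L) →
      w0 ≤ A * W → w1 ≤ A * C1 * W → w2 ≤ A * C2 * W →
      Q ≤ 5 * R * T * w0 + 2 * J →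
      J ≤ 7 * R * T * w1 + 3 * R * κ * N1 + 21 / 10 * (T / L) * (H + T * R) * (κ' * N2 + w2) →
      False := by
  -- constants
  set t : ℝ := 1 / Real.sqrt c0 with ht
  set r : ℝ := Real.sqrt R with hr
  set s : ℝ := Real.sqrt c with hs
  have hsc0 : 0 < Real.sqrt c0 := Real.sqrt_pos.mpr hc0
  have ht0 : 0 < t := by rw [ht]; positivity
  have hr0 : 0 < r := Real.sqrt_pos.mpr (by linarith)
  have hs0 : 0 < s := Real.sqrt_pos.mpr hc
  have hRr : r ^ 2 = R := Real.sq_sqrt (by linarith)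
  have hcs : s ^ 2 = c := Real.sq_sqrt hc.le
  have htc : t ^ 2 * c0 = 1 := by
    rw [ht, div_pow, one_pow, Real.sq_sqrt hc0.le]; field_simp
  set E1 : ℝ := 9 * R ^ 2 * a1 * (r + 3 * R * t) with hE1
  have hE10 : 0 ≤ E1 := by rw [hE1]; positivity
  refine ⟨min 1 (s / (8 * (E1 + 1))), lt_min one_pos (by positivity), min_le_left _ _, ?_⟩
  set κ := min 1 (s / (8 * (E1 + 1))) with hκ
  have hκ0 : 0 < κ := lt_min one_pos (by positivity)
  have hκE : 4 * κ * E1 ≤ s / 2 := by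
    have h1 : κ ≤ s / (8 * (E1 + 1)) := min_le_right _ _
    have h2 : κ * (8 * (E1 + 1)) ≤ s := by
      rwa [le_div_iff₀ (by positivity)] at h1
    have h3 : κ * (8 * (E1 + 1)) = 2 * (4 * κ * E1) + 8 * κ := by ring
    linarith only [h2, h3, hκ0]
  intro C1 hC1
  set E2 : ℝ := 5 * R * t * A + 14 * R * t * A * C1 with hE2
  have hE20 : 0 ≤ E2 := by rw [hE2]; positivity
  obtain ⟨W0, hW0⟩ := exists_nat_gt ((4 * E2 / s) ^ 2 + 1)
  refine ⟨W0, fun W hW => ?_⟩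
  have hWW : (4 * E2 / s) ^ 2 + 1 < W := lt_of_lt_of_le hW0 (by exact_mod_cast hW)
  set w : ℝ := Real.sqrt W with hw
  have hW1 : (1 : ℝ) < W := by
    have := sq_nonneg (4 * E2 / s)
    linarith only [this, hWW]
  have hw2 : w ^ 2 = W := Real.sq_sqrt (by linarith)
  have hw1 : 1 < w := by
    rw [hw, Real.lt_sqrt (by norm_num)]
    simpa using hW1
  have hwE : 4 * E2 / s < w := by
    rw [hw]
    apply Real.lt_sqrt_of_sq_lt
    linarith
  have hwE' : 4 * E2 < s * w := by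
    rw [div_lt_iff₀ hs0] at hwE
    linarith only [hwE]
  set E3 : ℝ := 21 / 10 * t * (r + R * t) * (a1 * (3 * R) * (1 + 2 * R)) with hE3
  have hE30 : 0 ≤ E3 := by rw [hE3]; positivity
  have hw3 : 0 < w ^ 3 := by positivity
  refine ⟨min κ (1 / (8 * (E3 + 1) * w ^ 3)), lt_min hκ0 (by positivity), min_le_left _ _, ?_⟩
  set κ' := min κ (1 / (8 * (E3 + 1) * w ^ 3)) with hκ'
  have hκ'0 : 0 < κ' := lt_min hκ0 (by positivity)
  have hκ'E : κ' * E3 * w ^ 3 ≤ 1 / 8 := by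
    have h1 : κ' ≤ 1 / (8 * (E3 + 1) * w ^ 3) := min_le_right _ _
    have h2 : κ' * (8 * (E3 + 1) * w ^ 3) ≤ 1 := by
      rwa [le_div_iff₀ (by positivity)] at h1
    have h3 : 0 ≤ κ' * w ^ 3 := by positivity
    have h4 : κ' * (8 * (E3 + 1) * w ^ 3) = 8 * (κ' * E3 * w ^ 3) + 8 * (κ' * w ^ 3) := by ring
    linarith only [h2, h3, h4]
  intro C2 hC2
  set E4 : ℝ := 21 / 10 * t * (r + R * t) * (A * C2) with hE4
  have hE40 : 0 ≤ E4 := by rw [hE4]; positivity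
  refine ⟨8 * (E4 + 1) * w ^ 3, ?_⟩
  intro L T Q X H N1 N2 w0 w1 w2 J hL hT hH hX hXR hQ hTQ hHQ hHL hN1 hN2 hw0 hw1' hw2' hQJ hJ
  have hL0 : 0 < L := lt_of_lt_of_le (by positivity) hL
  have hLE : E4 * w ^ 3 / L ≤ 1 / 8 := by
    rw [div_le_iff₀ hL0]
    have h1 : 8 * (E4 + 1) * w ^ 3 = 8 * (E4 * w ^ 3) + 8 * w ^ 3 := by ring
    linarith only [hL, h1, hw3]
  have hQ0 : 0 < Q := lt_of_lt_of_le (by positivity) hQ
  set q : ℝ := Real.sqrt Q with hq
  have hq2 : q ^ 2 = Q := Real.sq_sqrt hQ0.le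
  have hq0 : 0 < q := Real.sqrt_pos.mpr hQ0
  -- `T ≤ t q`
  have hTq : T ≤ t * q := by
    apply le_of_sq_le_sq _ (by positivity) |>.trans le_rfl
    rw [mul_pow, hq2]
    have : T ^ 2 = t ^ 2 * (c0 * T ^ 2) := by rw [← mul_assoc, htc, one_mul]
    rw [this]
    exact mul_le_mul_of_nonneg_left hTQ (by positivity)
  -- `X ≤ R w²`
  have hXw : X ≤ R * w ^ 2 := by rw [hw2]; exact hXR
  have hHq : H ≤ r * w * q := by
    apply le_of_sq_le_sq _ (by positivity) |>.trans le_rfl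
    rw [mul_pow, mul_pow, hRr, hq2]
    exact hHQ.trans (mul_le_mul_of_nonneg_right hXw hQ0.le)
  have hw2ge : 1 ≤ w ^ 2 := one_le_pow₀ hw1.le
  have hX3 : X + 2 * R ≤ 3 * R * w ^ 2 := by
    have h1 : R * 1 ≤ R * w ^ 2 := mul_le_mul_of_nonneg_left hw2ge (by linarith only [hR])
    linarith only [h1, hXw]
  have hqw : q ≤ w * q := le_mul_of_one_le_left hq0.le hw1.le
  have hH3 : H + 3 * R * T ≤ (r + 3 * R * t) * (w * q) := by
    have h1 : 3 * R * T ≤ 3 * R * (t * (w * q)) := by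
      apply mul_le_mul_of_nonneg_left _ (by positivity)
      exact hTq.trans (mul_le_mul_of_nonneg_left hqw ht0.le)
    have h2 : (r + 3 * R * t) * (w * q) = r * w * q + 3 * R * (t * (w * q)) := by ring
    linarith only [h1, h2, hHq]
  have hHT : H + T * R ≤ (r + R * t) * (w * q) := by
    have h1 : T * R ≤ (t * (w * q)) * R := by
      apply mul_le_mul_of_nonneg_right _ (by linarith only [hR])
      exact hTq.trans (mul_le_mul_of_nonneg_left hqw ht0.le)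
    have h2 : (r + R * t) * (w * q) = r * w * q + t * (w * q) * R := by ring
    linarith only [h1, h2, hHq]
  have hR0 : 0 < R := by linarith only [hR]
  have hX0 : 0 ≤ X + 2 * R := by positivity
  have hN1' : N1 ≤ a1 * (3 * R * w ^ 2) * ((r + 3 * R * t) * (w * q)) := by
    refine hN1.trans ?_
    apply mul_le_mul (mul_le_mul_of_nonneg_left hX3 ha1) hH3 (by positivity) (by positivity)
  have hN2' : N2 ≤ a1 * (3 * R * w ^ 2) * ((1 + 2 * R) * L) := by
    refine hN2.trans ?_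
    apply mul_le_mul (mul_le_mul_of_nonneg_left hX3 ha1) _ (by positivity) (by positivity)
    have h1 : (1 + 2 * R) * L = L + 2 * R * L := by ring
    linarith only [h1, hHL]
  have hw1b : 7 * R * T * w1 ≤ 7 * R * (t * q) * (A * C1 * w ^ 2) := by
    rw [hw2]
    have h1 : 7 * R * T * w1 ≤ 7 * R * T * (A * C1 * W) :=
      mul_le_mul_of_nonneg_left hw1' (by positivity)
    refine h1.trans ?_
    apply mul_le_mul_of_nonneg_right _ (by positivity)
    exact mul_le_mul_of_nonneg_left hTq (by positivity)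
  have hw0b : 5 * R * T * w0 ≤ 5 * R * (t * q) * (A * w ^ 2) := by
    rw [hw2]
    have h1 : 5 * R * T * w0 ≤ 5 * R * T * (A * W) :=
      mul_le_mul_of_nonneg_left hw0 (by positivity)
    refine h1.trans ?_
    apply mul_le_mul_of_nonneg_right _ (by positivity)
    exact mul_le_mul_of_nonneg_left hTq (by positivity)
  have hN1b : 3 * R * κ * N1 ≤ κ * E1 * w ^ 3 * q := by
    have h1 : 3 * R * κ * N1 ≤ 3 * R * κ * (a1 * (3 * R * w ^ 2) * ((r + 3 * R * t) * (w * q))) :=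
      mul_le_mul_of_nonneg_left hN1' (by positivity)
    refine h1.trans (le_of_eq ?_)
    rw [hE1]; ring
  have hlast : 21 / 10 * (T / L) * (H + T * R) * (κ' * N2 + w2) ≤ q ^ 2 / 4 := by
    have h1 : κ' * N2 + w2 ≤ κ' * (a1 * (3 * R * w ^ 2) * ((1 + 2 * R) * L)) + A * C2 * w ^ 2 := by
      rw [hw2] at *
      exact add_le_add (mul_le_mul_of_nonneg_left hN2' hκ'0.le) hw2'
    have h2 : 21 / 10 * (T / L) * (H + T * R) ≤
        21 / 10 * (t * q / L) * ((r + R * t) * (w * q)) := by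
      apply mul_le_mul _ hHT (by positivity) (by positivity)
      apply mul_le_mul_of_nonneg_left _ (by norm_num)
      exact div_le_div_of_nonneg_right hTq hL0.le
    have h3 : 0 ≤ 21 / 10 * (T / L) * (H + T * R) := by positivity
    have h4 : 0 ≤ κ' * (a1 * (3 * R * w ^ 2) * ((1 + 2 * R) * L)) + A * C2 * w ^ 2 := by
      positivity
    calc 21 / 10 * (T / L) * (H + T * R) * (κ' * N2 + w2)
        ≤ 21 / 10 * (T / L) * (H + T * R) *
          (κ' * (a1 * (3 * R * w ^ 2) * ((1 + 2 * R) * L)) + A * C2 * w ^ 2) :=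
          mul_le_mul_of_nonneg_left h1 h3
      _ ≤ 21 / 10 * (t * q / L) * ((r + R * t) * (w * q)) *
          (κ' * (a1 * (3 * R * w ^ 2) * ((1 + 2 * R) * L)) + A * C2 * w ^ 2) :=
          mul_le_mul_of_nonneg_right h2 h4
      _ = (κ' * E3 * w ^ 3) * q ^ 2 + (E4 * w ^ 3 / L) * q ^ 2 := by
          rw [hE3, hE4]; field_simp
      _ ≤ 1 / 8 * q ^ 2 + 1 / 8 * q ^ 2 := by
          apply add_le_add
          · exact mul_le_mul_of_nonneg_right hκ'E (by positivity)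
          · exact mul_le_mul_of_nonneg_right hLE (by positivity)
      _ = q ^ 2 / 4 := by ring
  have hfin : q ^ 2 ≤ E2 * w ^ 2 * q + 2 * (κ * E1 * w ^ 3 * q) + q ^ 2 / 2 := by
    have h1 : Q ≤ 5 * R * (t * q) * (A * w ^ 2) + 2 * (7 * R * (t * q) * (A * C1 * w ^ 2) +
        κ * E1 * w ^ 3 * q + q ^ 2 / 4) := by
      linarith only [hQJ, hJ, hw0b, hw1b, hN1b, hlast]
    rw [hq2]
    refine h1.trans (le_of_eq ?_)
    rw [hE2, hq2]; ring
  have hq3 : q ≤ 2 * E2 * w ^ 2 + 4 * κ * E1 * w ^ 3 := by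
    have h1 : q * q ≤ (2 * E2 * w ^ 2 + 4 * κ * E1 * w ^ 3) * q := by
      have h2 : q * q = q ^ 2 := by ring
      have h3 : (2 * E2 * w ^ 2 + 4 * κ * E1 * w ^ 3) * q =
        2 * (E2 * w ^ 2 * q) + 4 * (κ * E1 * w ^ 3 * q) := by ring
      linarith only [hfin, h2, h3]
    exact le_of_mul_le_mul_right h1 hq0
  have hqlow : s * w ^ 3 ≤ q := by
    apply le_of_sq_le_sq _ hq0.le |>.trans le_rfl
    rw [mul_pow, hcs, hq2]
    have : (w ^ 3) ^ 2 = (W : ℝ) ^ 3 := by rw [← hw2]; ring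
    rw [this]; exact hQ
  have h5 : 4 * κ * E1 * w ^ 3 ≤ s / 2 * w ^ 3 := mul_le_mul_of_nonneg_right hκE hw3.le
  have h6 : 4 * E2 * w ^ 2 < s * w * w ^ 2 := mul_lt_mul_of_pos_right hwE' (by positivity)
  have h7 : s * w * w ^ 2 = s * w ^ 3 := by ring
  linarith only [h5, h6, h7, hq3, hqlow]

end C2305bB
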