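import Pool.Agent.W_c2305b_h19.Bricks
import Pool.Agent.W_c2305b_h19.Below
import Pool.Agent.W_c2305b_h19.WindowNum
import Pool.Agent.W_c2305b_h19.Frame2

/-!
# The window of a block in horizontal position (MP_c2305b_co, part B)
-/

namespace C2305bB

open Set MeasureTheory C2305b.TL
open C2305bH52 (needle)
open C2305bH68 (Chain)

/-- **Core of the window lemma**, in horizontal position. -/
theorem core {L R η τ a κ κ' γ A C1 C2 L1 L0 c : ℝ} {J : Type} [Fintype J] {T : Tiling J}
    {D : Set V} {F : J → Fr} {W : ℕ} {q : ℕ → V} (B : Blk L R η T D F W q)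
    (Cst : Cost L τ a κ κ' γ A C1 C2 L1 T D F W q)
    (hL : 1 ≤ L) (hR : 1 ≤ R) (hτ : 0 < τ) (ha : 0 < a) (hA : 1 ≤ A) (hκ0 : 0 < κ) (hκ1 : κ ≤ 1)
    (hκ' : 0 < κ') (hc : 0 < c)
    (hη0 : 0 < η) (hη1 : η ≤ 1 / 10) (hη2 : η ≤ τ / (2 * R ^ 2)) (hη3 : η * (R * W) ≤ 1)
    (hL0 : L0 ≤ L) (hL1 : L1 ≤ L)
    (hnum : ∀ L T Q X H N1 N2 w0 w1 w2 J : ℝ, L0 ≤ L → 0 ≤ T → 0 ≤ H → 0 < X → X ≤ R * W →
      c * (W : ℝ) ^ 3 ≤ Q → τ / (4 * R) * T ^ 2 ≤ Q → H ^ 2 ≤ X * Q → H ≤ L →
      N1 ≤ 12 / a * (X + 2 * R) * (H + 3 * R * T) → N2 ≤ 12 / a * (X + 2 * R) * (H + 2 * R * L) →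
      w0 ≤ 2 * A * W → w1 ≤ 2 * A * C1 * W → w2 ≤ 2 * A * C2 * W →
      Q ≤ 5 * R * T * w0 + 2 * J →
      J ≤ 7 * R * T * w1 + 3 * R * κ * N1 + 21 / 10 * (T / L) * (H + T * R) * (κ' * N2 + w2) →
      False)
    (hW2 : 4 * R ≤ c * (W : ℝ) ^ 2) (hC1 : 0 ≤ C1) (hC2 : 0 ≤ C2)
    {α β : ℕ} (hα : 1 ≤ α) (hαβ : α + 1 < β) (hβ : β + 1 ≤ W) (G : Finset ℕ)
    (hG : ∀ r ∈ G, α ≤ r ∧ r < β ∧ r ∈ goodSides τ D W q) (hGα : α ∈ G) (hGβ : β - 1 ∈ G)
    (hK : 10 ≤ G.card)
    (hKc : c * (W : ℝ) ^ 3 ≤ (τ / (4 * R)) * ((2 * τ / R ^ 2) ^ 2 * (G.card : ℝ) ^ 3 / 100))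
    (hq0 : q α 1 = 0) (hq1 : q β 1 = 0) (hpos : q α 0 < q β 0) : False := by
  classical
  have hR0 : 0 < R := by linarith
  have hL0' : 0 < L := by linarith
  have hαβ' : α < β := by omega
  have hβW : β ≤ W := by omega
  have h1 : q α 1 = q β 1 := by rw [hq0, hq1]
  have hx : ∀ r < W, q r 0 < q (r + 1) 0 := fun r hr => B.x_lt hαβ' hβW h1 hpos hr
  have hs : ∀ r < W, |(q (r + 1) 1 - q r 1) / (q (r + 1) 0 - q r 0)| ≤ L * η :=
    fun r hr => B.slope_le hαβ' hβW h1 hpos hr
  have hm : ∀ r, r + 1 < W → (q (r + 1) 1 - q r 1) / (q (r + 1) 0 - q r 0) ≤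
      (q (r + 2) 1 - q (r + 1) 1) / (q (r + 2) 0 - q (r + 1) 0) :=
    fun r hr => B.slope_mono hαβ' hβW h1 hpos hr
  obtain ⟨hext, hen, hgap⟩ := B.energy_ge hL hR0 hτ hη0.le (le_min hη1 hη2) hx hs hm hα hαβ' hβ G
    hG hK
  set X0 : ℕ → ℝ := fun k => q k 0 with hX0
  set Y0 : ℕ → ℝ := fun k => q k 1 with hY0
  have hs' : ∀ r, r + 1 < W → slp X0 Y0 r ≤ slp X0 Y0 (r + 1) := fun r hr => hm r hr
  have hτ1 : 0 < 2 * τ / R ^ 2 := by positivity
  have hc0 : 0 < τ / (4 * R) := by positivity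
  -- strict increase of the slopes
  have hgα := hgap α hGα
  have eα : α - 1 + 1 = α := by omega
  have hsα : slp X0 Y0 (α - 1) < slp X0 Y0 (α + 1) := by
    have e : slp X0 Y0 (α - 1) = (q α 1 - q (α - 1) 1) / (q α 0 - q (α - 1) 0) := by
      unfold slp
      rw [eα]
    have e' : slp X0 Y0 (α + 1) =
      (q (α + 2) 1 - q (α + 1) 1) / (q (α + 2) 0 - q (α + 1) 0) := rfl
    rw [e, e']
    linarith
  have hlt : slp X0 Y0 0 < slp X0 Y0 (W - 1) :=
    (slp_mono hs' (by omega) (by omega)).trans_lt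
      (hsα.trans_le (slp_mono hs' (by omega) (by omega)))
  -- the chain
  set m := β - α with hm'
  set p : ℕ → V := fun k => q (α + k) with hp
  have hmβ : α + m = β := by omega
  have hm1 : 1 ≤ m := by omega
  -- some point is below the chord
  have hneg : ∃ r ≤ m, p r 1 < 0 := by
    -- otherwise the first slope is nonnegative and the last nonpositive
    by_contra hcon
    push Not at hcon
    have e1 := hcon 1 hm1
    have e2 := hcon (m - 1) (by omega)
    have a1 : 0 ≤ slp X0 Y0 α := by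
      unfold slp
      apply div_nonneg
      · show 0 ≤ q (α + 1) 1 - q α 1
        rw [hq0]
        simpa [hp] using e1
      · show 0 ≤ q (α + 1) 0 - q α 0
        linarith [hx α (by omega)]
    have a2 : slp X0 Y0 (β - 1) ≤ 0 := by
      unfold slp
      apply div_nonpos_of_nonpos_of_nonneg
      · show q (β - 1 + 1) 1 - q (β - 1) 1 ≤ 0
        rw [show β - 1 + 1 = β by omega, hq1]
        have : p (m - 1) = q (β - 1) := by
          show q (α + (m - 1)) = _
          congr 1
          omega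
        rw [this] at e2
        linarith
      · show 0 ≤ q (β - 1 + 1) 0 - q (β - 1) 0
        linarith [hx (β - 1) (by omega)]
    -- the slopes are equal to zero between α and β - 1, so the gap at α or β - 1 is violated
    have a3 : slp X0 Y0 α ≤ slp X0 Y0 (β - 1) := slp_mono hs' (by omega) (by omega)
    -- use a third good side strictly between
    obtain ⟨r, hr, hr1, hr2⟩ : ∃ r ∈ G, r ≠ α ∧ r ≠ β - 1 := by
      by_contra hno
      push Not at hno
      have hsub : G ⊆ {α, β - 1} := by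
        intro r hr
        by_cases h : r = α
        · simp [h]
        · simp [hno r hr h]
      have := Finset.card_le_card hsub
      have h2 : ({α, β - 1} : Finset ℕ).card ≤ 2 := Finset.card_le_two
      omega
    obtain ⟨b1, b2, -⟩ := hG r hr
    have hgr := hgap r hr
    have f1 : slp X0 Y0 α ≤ slp X0 Y0 (r - 1) := slp_mono hs' (by omega) (by omega)
    have f2 : slp X0 Y0 (r + 1) ≤ slp X0 Y0 (β - 1) := slp_mono hs' (by omega) (by omega)
    have e : slp X0 Y0 (r - 1) = (q r 1 - q (r - 1) 1) / (q r 0 - q (r - 1) 0) := by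
      unfold slp
      rw [show r - 1 + 1 = r by omega]
    have e' : slp X0 Y0 (r + 1) =
      (q (r + 2) 1 - q (r + 1) 1) / (q (r + 2) 0 - q (r + 1) 0) := rfl
    linarith
  have hp0 : p 0 1 = 0 := by simpa [hp] using hq0
  have hpm : p m 1 = 0 := by
    show q (α + m) 1 = 0
    rw [hmβ]; exact hq1
  obtain ⟨Z, z1, z2, z3, z4, z5, z6, z7, z8, z9⟩ := Tiling.exists_win B.sharp (m := m) (p := p) hm1
    (fun r hr => B.qW _ (by omega)) (fun r hr => B.qR _ (by omega))
    (fun r hr => hx (α + r) (by omega)) (fun r hr => B.hs (α + r) (by omega)) hp0 hpm hneg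
  have : Fintype {i : J // (interior (T.P i ∩ {z | z 1 ≤ 0})).Nonempty} := Fintype.ofFinite _
  let _ : LinearOrder {i : J // (interior (T.P i ∩ {z | z 1 ≤ 0})).Nonempty} :=
    IsWellOrder.linearOrder WellOrderingRel
  have hcount := z9
  have C : Chain m (fun r => p r 0) (fun r => p r 1) := by
    have := Z.C
    rwa [z1, z2, z3] at this
  -- slopes
  have sl_eq : ∀ r, C2305bH68.slope (fun r => p r 0) (fun r => p r 1) r = slp X0 Y0 (α + r) :=
    fun r => rfl
  set Q := C2305bH68.energy m (fun r => p r 0) (fun r => p r 1) with hQ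
  set X := p m 0 - p 0 0 with hX
  have hXpos : 0 < X := by
    have := C.width_pos
    exact this
  have hXW : X ≤ R * W := by
    have h := B.width_le hL hR0.le (a := α) (b := β) (by omega) (by omega)
    have e1 : p m = q β := by
      show q (α + m) = q β
      rw [hmβ]
    have e2 : p 0 = q α := rfl
    rw [hX, e1, e2]
    refine h.trans ?_
    apply mul_le_mul_of_nonneg_left _ hR0.le
    exact_mod_cast (by omega : β - α ≤ W)
  set T0 := max |C2305bH68.slope (fun r => p r 0) (fun r => p r 1) 0|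
    |C2305bH68.slope (fun r => p r 0) (fun r => p r 1) (m - 1)| with hT0
  have hT0nn : 0 ≤ T0 := (abs_nonneg _).trans (le_max_left _ _)
  have hT0L : T0 ≤ L * η := by
    apply max_le
    · exact hs (α + 0) (by omega)
    · exact hs (α + (m - 1)) (by omega)
  -- energy against slope
  have hQT : τ / (4 * R) * T0 ^ 2 ≤ Q := by
    have key : ∀ r < m, τ / (4 * R) ≤ p (r + 1) 0 - p r 0 → τ / (4 * R) *
        |C2305bH68.slope (fun r => p r 0) (fun r => p r 1) r| ^ 2 ≤ Q := by
      intro r hr he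
      rw [sq_abs]
      have h2 : C2305bH68.ext (fun r => p r 0) r *
          C2305bH68.slope (fun r => p r 0) (fun r => p r 1) r ^ 2 ≤ Q :=
        Finset.single_le_sum (f := fun r => C2305bH68.ext (fun r => p r 0) r *
          C2305bH68.slope (fun r => p r 0) (fun r => p r 1) r ^ 2)
          (fun r hr => mul_nonneg (C.ext_pos (Finset.mem_range.mp hr)).le (sq_nonneg _))
          (Finset.mem_range.mpr hr)
      exact (mul_le_mul_of_nonneg_right he (sq_nonneg _)).trans h2
    rcases max_choice |C2305bH68.slope (fun r => p r 0) (fun r => p r 1) 0|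
      |C2305bH68.slope (fun r => p r 0) (fun r => p r 1) (m - 1)| with h | h
    · rw [hT0, h]
      exact key 0 (by omega) (hext α hGα)
    · rw [hT0, h]
      refine key (m - 1) (by omega) ?_
      have := hext (β - 1) hGβ
      have e1 : β - 1 + 1 = α + (m - 1 + 1) := by omega
      have e2 : β - 1 = α + (m - 1) := by omega
      rw [e1, e2] at this
      exact this
  have hQX : Q ≤ X * T0 ^ 2 := by
    have h2 : Q ≤ ∑ r ∈ Finset.range m, C2305bH68.ext (fun r => p r 0) r * T0 ^ 2 := by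
      apply Finset.sum_le_sum
      intro r hr
      have hr' := Finset.mem_range.mp hr
      apply mul_le_mul_of_nonneg_left _ (C.ext_pos hr').le
      have := C.abs_slope_le hr'
      rw [← sq_abs]
      exact pow_le_pow_left₀ (abs_nonneg _) this 2
    rw [← Finset.sum_mul, C.sum_ext] at h2
    exact h2
  have hQc : c * (W : ℝ) ^ 3 ≤ Q := hKc.trans hen
  have hWpos : (0 : ℝ) < W := by
    have : 0 < W := by omega
    exact_mod_cast this
  have hQpos : 0 < Q := lt_of_lt_of_le (by positivity) hQc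
  have hT02 : 2 ≤ T0 := by
    by_contra hcon
    push Not at hcon
    have h3 : T0 ^ 2 < 4 := by
      have := pow_lt_pow_left₀ hcon hT0nn (n := 2) (by norm_num)
      norm_num at this ⊢
      exact this
    have h4 : X * T0 ^ 2 ≤ R * W * T0 ^ 2 := mul_le_mul_of_nonneg_right hXW (sq_nonneg _)
    have h5 : R * W * T0 ^ 2 < R * W * 4 := mul_lt_mul_of_pos_left h3 (by positivity)
    have h6 : 4 * R * W ≤ c * (W : ℝ) ^ 2 * W := mul_le_mul_of_nonneg_right hW2 hWpos.le
    have h7 : c * (W : ℝ) ^ 2 * W = c * (W : ℝ) ^ 3 := by ring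
    have h8 : R * W * 4 = 4 * R * W := by ring
    linarith
  have hLT : 10 * T0 ≤ L := by
    have : L * η ≤ L * (1 / 10) := mul_le_mul_of_nonneg_left hη1 hL0'.le
    linarith
  set H := Real.sqrt (X * Q) with hH
  have hH0 : 0 ≤ H := Real.sqrt_nonneg _
  have hHsq : H ^ 2 = X * Q := Real.sq_sqrt (by positivity)
  have hHL : H ≤ L := by
    have h2 : H ^ 2 ≤ (X * T0) ^ 2 := by
      rw [hHsq, mul_pow]
      have : X * Q ≤ X * (X * T0 ^ 2) := mul_le_mul_of_nonneg_left hQX hXpos.le
      linarith [this, (by ring : X * (X * T0 ^ 2) = X ^ 2 * T0 ^ 2)]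
    have h3 : H ≤ X * T0 := by
      exact le_of_sq_le_sq h2 (by positivity)
    have h4 : X * T0 ≤ (R * W) * (L * η) := mul_le_mul hXW hT0L hT0nn (by positivity)
    have h5 : (R * W) * (L * η) = L * (η * (R * W)) := by ring
    have h6 : L * (η * (R * W)) ≤ L * 1 := mul_le_mul_of_nonneg_left hη3 hL0'.le
    linarith
  have hHZ : ∀ z ∈ Z.T.R, -H ≤ z 1 := by
    intro z hz
    rw [Z.hR] at hz
    have hconv : Convex ℝ {z : V | -H ≤ z 1} := by
      intro u hu v hv s t hs0 ht0 hst
      simp only [Set.mem_ofPred_eq, PiLp.add_apply, PiLp.smul_apply, smul_eq_mul] at *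
      have e1 := mul_le_mul_of_nonneg_left hu hs0
      have e2 := mul_le_mul_of_nonneg_left hv ht0
      have e3 : -H = s * -H + t * -H := by rw [← add_mul, hst, one_mul]
      linarith
    refine convexHull_min ?_ hconv hz
    rintro _ ⟨r, hr, rfl⟩
    have hr' : r ≤ m := by
      have : r ≤ Z.m := hr
      omega
    have h2 := C.height_le hr'
    have h3 : Z.p r 1 = p r 1 := by rw [z4]
    show -H ≤ Z.p r 1
    rw [h3]
    exact (abs_le.1 h2).1
  have hAB : ∀ z ∈ Z.T.R, cr (q W - q 0) (z - q 0) < 0 := by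
    intro z hz
    rw [Z.hR] at hz
    have hconv : Convex ℝ {z : V | cr (q W - q 0) (z - q 0) < 0} := by
      intro u hu v hv s t hs0 ht0 hst
      have e : s • u + t • v - q 0 = s • (u - q 0) + t • (v - q 0) := by
        have : q 0 = (s + t) • q 0 := by rw [hst, one_smul]
        nth_rewrite 1 [this]
        module
      show cr (q W - q 0) (s • u + t • v - q 0) < 0
      rw [e, cr_add_right, cr_smul_right, cr_smul_right]
      rcases hs0.lt_or_eq with h | h
      · have := mul_neg_of_pos_of_neg h hu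
        have := mul_nonpos_of_nonneg_of_nonpos ht0 (le_of_lt hv)
        linarith
      · rw [← h, zero_add] at hst
        rw [← h, hst, zero_mul, one_mul, zero_add]
        exact hv
    refine convexHull_min ?_ hconv hz
    rintro _ ⟨r, hr, rfl⟩
    have hr' : r ≤ m := by
      have : r ≤ Z.m := hr
      omega
    show cr (q W - q 0) (Z.p r - q 0) < 0
    rw [z4, cr_crd]
    exact below_chord (x := X0) (y := Y0) (W := W) hx hs' hlt (r := α + r) (by omega) (by omega)
  obtain ⟨Bad1, Bad2, l1, l2, k1, k2⟩ := Cst.bad hL1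
  have hXZ : X = Z.x Z.m - Z.x 0 := by rw [z1, z2]
  obtain ⟨N1, N2, n1, n2, n3, n4, n5⟩ := jump_le (L := L) (R := R) (T0 := T0) (κ := κ) (κ' := κ')
    (a := a) (X := X) (H := H) F Z z6 z7
    (fun i j hij d hd => by
      obtain ⟨d0, h2, h3, -⟩ := z8 i j hij d hd
      exact ⟨d0, h2, h3⟩) B.fit hR hT02 hLT ha hκ0.le hκ1 hκ'.le hXZ hH0 hHZ (q 0) (q W) hAB
    Bad1 Bad2 l1 l2
  have hfin := Z.energy_le (fun i => al L T0 (F i.1)) (5 * R * T0) (by
    intro i r hr d hd
    have hmem := (Z.mem_low).mp hd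
    have hd1 : d.1 ∈ T.P i.1 := by
      have := hmem.1.1.2
      rw [z6] at this
      exact this.1
    have hd2 : d.2 ∈ T.P i.1 := by
      have := hmem.1.2.1.2
      rw [z6] at this
      exact this.1
    have hf := B.fit i.1 d.2 hd2 d.1 hd1
    rw [Z.low_slope hd] at hf
    rw [z1] at hr
    refine side_loss (by linarith) hLT hR0.le ?_ (by linarith [hmem.2.2.2.2]) hf
    rw [z2, z3]
    exact C.abs_slope_le hr)
  rw [z1, z2, z3] at hfin
  have hsv : ((Tiling.sideVerts T m p).card : ℝ) ≤ A * W := by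
    refine le_trans ?_ Cst.verts
    have : (Tiling.sideVerts T m p) ⊆ (Tiling.sideVerts T W q) := by
      intro w hw
      unfold Tiling.sideVerts at hw ⊢
      rw [Finset.mem_filter] at hw ⊢
      obtain ⟨hwW, r, hr, hwr⟩ := hw
      exact ⟨hwW, α + r, by omega, hwr⟩
    exact_mod_cast Finset.card_le_card this
  have hcnt : ((∑ i, ∑ r ∈ Finset.range m, (Z.low i r).card : ℕ) : ℝ) ≤ 2 * A * W := by
    have h2 : ((∑ i, ∑ r ∈ Finset.range m, (Z.low i r).card : ℕ) : ℝ) ≤
        ((m + (Tiling.sideVerts T m p).card : ℕ) : ℝ) := by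
      exact_mod_cast hcount
    refine h2.trans ?_
    push_cast
    have h3 : (m : ℝ) ≤ W := by exact_mod_cast (by omega : m ≤ W)
    have h4 : (W : ℝ) ≤ A * W := le_mul_of_one_le_left hWpos.le hA
    linarith
  refine hnum L T0 Q X H N1 N2 _ _ _ _ hL0 hT0nn hH0 hXpos hXW hQc hQT hHsq.le hHL n3 n4 hcnt
    (le_trans k1 ?_) (le_trans k2 ?_) hfin n5
  · have : 0 ≤ A * C1 * W := by positivity
    linarith
  · have : 0 ≤ A * C2 * W := by positivity
    linarith

end C2305bB
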