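import Pool.Agent.W_c2305b_h19.Pos
import Pool.Agent.W_c2305b_h68.Eng
import Pool.Agent.W_c2305b_h35.Jump
import Pool.Agent.W_c2305b_h73.Move

/-! The three bricks in the form used by the assembly (MP_c2305b_co, part B). -/

namespace C2305bB

open Set MeasureTheory C2305b.TL
open C2305bH52 (needle)

theorem Blk.energy_ge {L R η τ : ℝ} {J : Type} {T : Tiling J} {D : Set V} {F : J → Fr} {W : ℕ}
    {q : ℕ → V} (B : Blk L R η T D F W q) (hL : 1 ≤ L) (hR : 0 < R) (hτ : 0 < τ)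
    (hη0 : 0 ≤ η) (hη1 : η ≤ min (1 / 10) (τ / (2 * R ^ 2)))
    (hx : ∀ r < W, q r 0 < q (r + 1) 0)
    (hs : ∀ r < W, |(q (r + 1) 1 - q r 1) / (q (r + 1) 0 - q r 0)| ≤ L * η)
    (hm : ∀ r, r + 1 < W → (q (r + 1) 1 - q r 1) / (q (r + 1) 0 - q r 0) ≤
      (q (r + 2) 1 - q (r + 1) 1) / (q (r + 2) 0 - q (r + 1) 0))
    {α β : ℕ} (hα : 1 ≤ α) (hαβ : α < β) (hβ : β + 1 ≤ W) (G : Finset ℕ)
    (hG : ∀ r ∈ G, α ≤ r ∧ r < β ∧ r ∈ goodSides τ D W q) (hK : 10 ≤ G.card) :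
    (∀ r ∈ G, τ / (4 * R) ≤ q (r + 1) 0 - q r 0) ∧
    (τ / (4 * R)) * ((2 * τ / R ^ 2) ^ 2 * (G.card : ℝ) ^ 3 / 100) ≤
      C2305bH68.energy (β - α) (fun k => q (α + k) 0) (fun k => q (α + k) 1) ∧
    ∀ r ∈ G, 2 * τ / R ^ 2 ≤ (q (r + 2) 1 - q (r + 1) 1) / (q (r + 2) 0 - q (r + 1) 0) -
      (q r 1 - q (r - 1) 1) / (q r 0 - q (r - 1) 0) := by
  obtain ⟨h1, h2, h3⟩ := C2305bH68.eng B hL hR hτ hη0 hη1 hx hs hm hα hαβ hβ hG hK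
  refine ⟨h1, h3, fun r hr => ?_⟩
  have h4 := h2 r hr
  obtain ⟨k, rfl⟩ : ∃ k, r = k + 1 := ⟨r - 1, by have := (hG r hr).1; omega⟩
  exact h4

open Classical in
theorem jump_le {L R T0 κ κ' a X H : ℝ} {J0 : Type} {T : Tiling J0}
    (F : J0 → Fr) (Z : Win {i : J0 // (interior (T.P i ∩ {z | z 1 ≤ 0})).Nonempty})
    (hZP : ∀ i, Z.T.P i = T.P i.1 ∩ {z | z 1 ≤ 0}) (hZs : Z.T.Sharp)
    (hZc : ∀ i j, i ≠ j → ∀ d ∈ Z.T.common i j, ∃ d0 ∈ T.common i.1 j.1,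
        segment ℝ d.1 d.2 ⊆ segment ℝ d0.1 d0.2)
    [Fintype {i : J0 // (interior (T.P i ∩ {z | z 1 ≤ 0})).Nonempty}]
    [LinearOrder {i : J0 // (interior (T.P i ∩ {z | z 1 ≤ 0})).Nonempty}]
    (hfit : ∀ i, ∀ z ∈ T.P i, ∀ z' ∈ T.P i, Fits L (F i) R (z 0 - z' 0) (z 1 - z' 1))
    (hR : 1 ≤ R) (hT0 : 2 ≤ T0) (hLT : 10 * T0 ≤ L) (ha : 0 < a) (hκ0 : 0 ≤ κ) (hκ1 : κ ≤ 1)
    (hκ' : 0 ≤ κ') (hX : X = Z.x Z.m - Z.x 0) (hH : 0 ≤ H) (hHZ : ∀ z ∈ Z.T.R, -H ≤ z 1)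
    (A B : V) (hAB : ∀ z ∈ Z.T.R, cr (B - A) (z - A) < 0) (Bad1 Bad2 : Finset (J0 × J0))
    (h1 : Lvl1 L κ a T F Bad1) (h2 : Lvl2 L κ' T F Bad2) :
    ∃ N1 N2 : ℝ, 0 ≤ N1 ∧ 0 ≤ N2 ∧ N1 ≤ 12 / a * (X + 2 * R) * (H + 3 * R * T0) ∧
      N2 ≤ 12 / a * (X + 2 * R) * (H + 2 * R * L) ∧
      ∑ i, ∑ j ∈ Finset.univ.filter (fun j => i < j), ∑ d ∈ Z.T.common i j,
        |C2305bB.J (al L T0 (F i)) (al L T0 (F j)) (d.2 0 - d.1 0) (d.2 1 - d.1 1)| ≤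
      7 * R * T0 * (Bad1.filter fun s => Meets T A B s).card + 3 * R * κ * N1 +
        21 / 10 * (T0 / L) * (H + T0 * R) *
          (κ' * N2 + (Bad2.filter fun s => Meets T A B s).card) :=
  jump_le_aux (e := Subtype.val) Subtype.val_injective Z hZP hZs hZc hfit hR hT0 hLT ha hκ0 hκ1 hκ'
    hX hH hHZ hAB h1 h2

theorem exists_move {L R η τ a κ κ' γ A C1 C2 L1 : ℝ} {J : Type} {T : Tiling J} {D : Set V}
    {F : J → Fr} {W : ℕ} {q : ℕ → V} (hL : 0 < L) (B : Blk L R η T D F W q)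
    (Cst : Cost L τ a κ κ' γ A C1 C2 L1 T D F W q) (b : V) {g1 g2 : ℝ}
    (h : g1 ^ 2 + g2 ^ 2 = 1) :
    ∃ (T' : Tiling J) (D' : Set V) (F' : J → Fr),
      Blk L R η T' D' F' W (fun r => rot L g1 g2 hL.ne' h (q r - b)) ∧
      Cost L τ a κ κ' γ A C1 C2 L1 T' D' F' W (fun r => rot L g1 g2 hL.ne' h (q r - b)) ∧
      goodSides τ D' W (fun r => rot L g1 g2 hL.ne' h (q r - b)) = goodSides τ D W q :=
  ⟨_, _, _, B.move hL b h, Cst.move hL b h, goodSides_mv hL.ne' h τ D W q b⟩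

end C2305bB
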