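import Pool.Agent.W_c2305b_h35.Count3
import Pool.Agent.W_c2305b_h86.FieldDefs

/-!
# Tiles of a window (MP_c2305b_co, class Gap + Sym): counting, flat regular tiles
-/

namespace C2305bG

open Set MeasureTheory C2305b.TL
open C2305bB (Fr mis Fits al Meets)

section Flat

variable {L ε c0 a H : ℝ} {J : Type} {T : Tiling J} {F : J → Fr} {i : J}

/-- A regular tile with a point below the base is not steep. -/
theorem RegTile.flat' (h : RegTile L ε c0 a T F i) (hL : 0 < L) (hc0 : 0 < c0) (hc01 : c0 ≤ 1)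
    (hH : 0 ≤ H) {z : V} (hz : z ∈ T.P i) (hz1 : z 1 ≤ 0)
    (hw : ∀ w ∈ T.R, w 1 ≤ 0 → -H ≤ w 1) : L * |(F i).S| ≤ (H + 1) / c0 := by
  rw [le_div_iff₀ hc0]
  by_cases hs : L * |(F i).S| ≤ 1
  · have h1 : L * |(F i).S| * c0 ≤ 1 * 1 := mul_le_mul hs hc01 hc0.le zero_le_one
    linarith only [h1, hH]
  push Not at hs
  set F' := F i with hF
  have hn := F'.nrm
  have hc := F'.c0
  have hc1 := F'.c_le_one
  have hS0 : 0 < |F'.S| := by
    by_contra hcon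
    push Not at hcon
    have h0 : |F'.S| = 0 := le_antisymm hcon (abs_nonneg _)
    rw [h0, mul_zero] at hs
    linarith only [hs]
  have hLS : 0 < L * |F'.S| := by positivity
  -- the sign
  obtain ⟨σ, hσ1, hσ2⟩ : ∃ σ : ℝ, |σ| = 1 ∧ σ * F'.S = |F'.S| := by
    rcases le_total 0 F'.S with h0 | h0
    · exact ⟨1, abs_one, by rw [abs_of_nonneg h0, one_mul]⟩
    · exact ⟨-1, by rw [abs_neg, abs_one], by rw [abs_of_nonpos h0]; ring⟩
  have hb : |F'.c / (L * |F'.S|)| ≤ 1 := by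
    rw [abs_of_nonneg (by positivity), div_le_one hLS]
    linarith only [hc1, hs]
  obtain ⟨w, hwR, hwx⟩ := h.low σ (F'.c / (L * |F'.S|)) (by rw [hσ1]; norm_num)
    (by rw [hσ1]) hb
  have h1 := hwx z hz
  have hσσ : σ * σ = 1 := by
    have := abs_mul_abs_self σ
    rw [hσ1] at this
    linarith only [this]
  have e : σ * lx L (F i) (w - z) + F'.c / (L * |F'.S|) * ly L (F i) (w - z) =
      (w 1 - z 1) / (L * |F'.S|) := by
    unfold lx ly
    rw [← hF]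
    have e0 : (w - z) 0 = w 0 - z 0 := rfl
    have e1 : (w - z) 1 = w 1 - z 1 := rfl
    rw [e0, e1, eq_div_iff hLS.ne']
    have k1 : F'.c / (L * |F'.S|) * (F'.c * (w 1 - z 1) - L * F'.S * (w 0 - z 0)) *
        (L * |F'.S|) = F'.c * (F'.c * (w 1 - z 1) - L * F'.S * (w 0 - z 0)) := by
      field_simp
    have k2 : σ * (F'.c * (w 0 - z 0) + F'.S * (w 1 - z 1) / L) * (L * |F'.S|) =
        σ * |F'.S| * (L * F'.c * (w 0 - z 0) + F'.S * (w 1 - z 1)) := by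
      field_simp
    rw [add_mul, k1, k2]
    have k3 : σ * |F'.S| = F'.S := by rw [← hσ2, ← mul_assoc, hσσ, one_mul]
    rw [k3]
    linear_combination (w 1 - z 1) * hn
  rw [e, div_le_iff₀ hLS] at h1
  have h2 : w 1 ≤ 0 := by
    have : 0 < c0 * (L * |F'.S|) := by positivity
    linarith only [h1, hz1, this]
  have h3 := hw w hwR h2
  linarith only [h1, h3, hz1]

end Flat

section Count

variable {J0 K : Type} {T : Tiling J0} {e : K → J0} {F : J0 → Fr} {L R Tc a H : ℝ}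

theorem card_flat_win (he : Function.Injective e) (Z : Win K)
    (hP : ∀ i, Z.T.P i = T.P (e i) ∩ {z | z 1 ≤ 0}) (hT : 0 < Tc) (hL : 10 * Tc ≤ L)
    (hL1 : 1 ≤ L) (hR : 0 ≤ R)
    (hfit : ∀ i, ∀ z ∈ T.P i, ∀ z' ∈ T.P i, Fits L (F i) R (z 0 - z' 0) (z 1 - z' 1))
    (hH : 0 ≤ H) (hH2 : ∀ z ∈ Z.T.R, -H ≤ z 1) {S : Finset K}
    (hS : ∀ i ∈ S, a ≤ (volume (T.P (e i))).toReal ∧
      L * |(F (e i)).S| ≤ Tc * (F (e i)).c) :
    (S.card : ℝ) * a ≤ (Z.x Z.m - Z.x 0 + 2 * R) * (H + 2 * ((102 / 100 + Tc) * R)) := by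
  have h := card_flat_le T (S := S.map ⟨e, he⟩) hT hL hL1 hR hfit (sub_nonneg.mp Z.C.width_pos.le)
    hH (a := a) (x0 := Z.x 0) (x1 := Z.x Z.m) (F := F) ?_
  · rwa [Finset.card_map] at h
  · intro j hj
    obtain ⟨i, hi, rfl⟩ := Finset.mem_map.mp hj
    obtain ⟨h1, h2⟩ := hS i hi
    refine ⟨h1, h2, ?_⟩
    obtain ⟨z, hz⟩ := Z.T.nonem i
    have hz' := interior_subset hz
    have hzR := Z.tile_sub i hz'
    have hzP := hz'
    rw [hP i] at hzP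
    obtain ⟨b1, b2, b3⟩ := Z.region_box hzR
    exact ⟨z, hzP.1, b1, b2, hH2 z hzR, hzP.2⟩

theorem card_base_win (he : Function.Injective e) (Z : Win K)
    (hP : ∀ i, Z.T.P i = T.P (e i) ∩ {z | z 1 ≤ 0}) (hT : 0 < Tc) (hL : 10 * Tc ≤ L)
    (hL1 : 1 ≤ L) (hR : 0 ≤ R)
    (hfit : ∀ i, ∀ z ∈ T.P i, ∀ z' ∈ T.P i, Fits L (F i) R (z 0 - z' 0) (z 1 - z' 1))
    {S : Finset K}
    (hS : ∀ i ∈ S, a ≤ (volume (T.P (e i))).toReal ∧
      L * |(F (e i)).S| ≤ Tc * (F (e i)).c ∧ ∃ z ∈ T.P (e i), 0 ≤ z 1) :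
    (S.card : ℝ) * a ≤ (Z.x Z.m - Z.x 0 + 2 * R) * (2 * ((102 / 100 + Tc) * R)) := by
  have h := card_base_le T (S := S.map ⟨e, he⟩) hT hL hL1 hR hfit (sub_nonneg.mp Z.C.width_pos.le)
    (a := a) (x0 := Z.x 0) (x1 := Z.x Z.m) (F := F) ?_
  · rwa [Finset.card_map] at h
  · intro j hj
    obtain ⟨i, hi, rfl⟩ := Finset.mem_map.mp hj
    obtain ⟨h1, h2, h3⟩ := hS i hi
    refine ⟨h1, h2, ?_, h3⟩
    obtain ⟨z, hz⟩ := Z.T.nonem i
    have hz' := interior_subset hz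
    have hzR := Z.tile_sub i hz'
    have hzP := hz'
    rw [hP i] at hzP
    obtain ⟨b1, b2, b3⟩ := Z.region_box hzR
    exact ⟨z, hzP.1, b1, b2, hzP.2⟩

end Count

end C2305bG
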