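import Pool.Agent.W_c2305b_h19.Asm
import Pool.Agent.W_c2305b_h19.CountG

/-!
# The window of a block in horizontal position (MP_c2305b_co, class Gap + Sym)
-/

namespace C2305bG

open Set MeasureTheory C2305b.TL
open C2305bB (Fr mis Fits al Meets Blk goodSides slp slp_mono below_chord cr_crd side_loss)
open C2305bH68 (Chain)

open Classical in
/-- The conclusion of the signed jump estimate. -/
def JumpG (R μ c0 m0 a κ3 κ c1 ω ε Cb C4 θ : ℝ) : Prop :=
    ∀ {J0 : Type} {T : Tiling J0} (F : J0 → Fr)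
      (Z : Win {i : J0 // (interior (T.P i ∩ {z | z 1 ≤ 0})).Nonempty})
      (_ : Z.T.R = T.R ∩ {z | z 1 ≤ 0}) (_ : ∀ i, Z.T.P i = T.P i.1 ∩ {z | z 1 ≤ 0})
      (_ : Z.T.Sharp)
      (_ : ∀ i j, i ≠ j → ∀ d ∈ Z.T.common i j, ∃ d0 ∈ T.common i.1 j.1,
        segment ℝ d.1 d.2 ⊆ segment ℝ d0.1 d0.2)
      [Fintype {i : J0 // (interior (T.P i ∩ {z | z 1 ≤ 0})).Nonempty}]
      [LinearOrder {i : J0 // (interior (T.P i ∩ {z | z 1 ≤ 0})).Nonempty}]
      (L Tc T0 H : ℝ)
      (_ : ∀ i, ∀ z ∈ T.P i, ∀ z' ∈ T.P i, Fits L (F i) R (z 0 - z' 0) (z 1 - z' 1))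
      (_ : 1 ≤ L) (_ : C4 ≤ T0) (_ : T0 ≤ Tc) (_ : Tc ≤ 2 * T0) (_ : Tc ≤ θ * L) (_ : 0 ≤ H)
      (_ : H + 1 ≤ c0 * θ * L) (_ : ∀ z ∈ Z.T.R, -H ≤ z 1)
      (A B : V) (_ : ∀ z ∈ Z.T.R, cr (B - A) (z - A) < 0)
      (Bad : Finset (J0 × J0)) (m g : J0 → V) (_ : Lvl L μ ε c0 a T F Bad)
      (_ : Field L R m0 ω (κ * c1 ^ 2) κ c1 T F Bad m g)
      (S0 : Finset {i : J0 // (interior (T.P i ∩ {z | z 1 ≤ 0})).Nonempty})
      (_ : ∀ i, i ∈ S0 ↔ RegTile L ε c0 a T F i.1 ∧ L * |(F i.1).S| ≤ 3 * T0 * (F i.1).c),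
    ∃ fa : {i : J0 // (interior (T.P i ∩ {z | z 1 ≤ 0})).Nonempty} → ℝ,
      (∀ i r, ∀ d ∈ Z.low i r, fa i = al L Tc (F i.1)) ∧
      |Z.T.Sg fa| ≤ 7 * R * Tc * ((Bad.filter fun s => Meets T A B s).card : ℝ) +
        κ3 * (S0.card : ℝ) +
        Cb * (((Bad.filter fun s => Meets T A B s).card : ℝ) +
          ((S0.filter fun i => ∃ z ∈ T.P i.1, 0 ≤ z 1).card : ℝ) +
          ((S0.filter fun i => |L * |(F i.1).S| / (F i.1).c - Tc| ≤ C4).card : ℝ)) +
        2 * Tc * (μ / L) * (H + Tc * R) *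
          ((Finset.univ.filter fun i : {i : J0 // (interior (T.P i ∩ {z | z 1 ≤ 0})).Nonempty} =>
            RegTile L ε c0 a T F i.1).card : ℝ)

/-- The conclusion of the numerical lemma for a block of `W` sides. -/
def NumG (R cT cQ a1 A μ cL k3 Cb s C1 : ℝ) (W : ℕ) (η : ℝ) : Prop :=
  ∀ (L T0 T Q X H N Nb Nt Na w0 w1 S : ℝ) (K : ℕ), 0 < L → 0 ≤ T0 → 0 ≤ T → T ≤ 2 * T0 →
    T0 ≤ 2 * η * L → 0 ≤ H → 0 < X → X ≤ R * W → cQ * (W : ℝ) ^ 3 ≤ Q → cT * T0 ^ 2 ≤ Q →
    Q ≤ X * T0 ^ 2 → H ^ 2 ≤ X * Q → T0 < s * (K + 1) → 0 ≤ N →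
    N ≤ a1 * (X + 2 * R) * (H + R + R * T0) → Nb ≤ a1 * (X + 2 * R) * (R + R * T0) →
    Nt * K ≤ N → 0 ≤ Nt → Na ≤ a1 * (X + 2 * R) * (cL * (H + 1)) → w0 ≤ A * W →
    w1 ≤ A * C1 * W → Q ≤ 5 * R * T * w0 + 2 * S →
    S ≤ 7 * R * T * w1 + k3 * N + Cb * (w1 + Nb + Nt) + 2 * T * (μ / L) * (H + T * R) * Na →
    False

/-- **Core of the window lemma**, in horizontal position, class Gap + Sym. -/
theorem coreG {L R η τ a μ c0 m0 ε c1 ω κ κ3 Cb C4 θ A C1 c : ℝ} {J : Type} [Fintype J]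
    {T : Tiling J} {D : Set V} {F : J → Fr} {W : ℕ} {q : ℕ → V} (B : Blk L R η T D F W q)
    (hverts : ((Tiling.sideVerts T W q).card : ℝ) ≤ A * W) {Bad : Finset (J × J)}
    (hbad : ∀ S : Finset (J × J), (∀ s, s ∈ S ↔ s ∈ Bad ∧ Meets T (q 0) (q W) s) →
      (S.card : ℝ) ≤ A * C1 * W)
    (hLvl : Lvl L μ ε c0 a T F Bad) {mm gg : J → V}
    (hF : Field L R m0 ω (κ * c1 ^ 2) κ c1 T F Bad mm gg)
    (hL : 1 ≤ L) (hR : 1 ≤ R) (hτ : 0 < τ) (ha : 0 < a) (hA : 1 ≤ A) (hμ : 0 ≤ μ)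
    (hc0 : 0 < c0) (hc01 : c0 ≤ 1) (hc : 0 < c) (hC4 : 2 ≤ C4) (hθ : 0 < θ) (hθ1 : θ ≤ 1 / 10)
    (hη0 : 0 < η) (hη1 : η ≤ 1 / 30) (hη2 : η ≤ τ / (2 * R ^ 2))
    (hη3 : η * (4 * (R * W)) ≤ c0 * θ) (hη4 : η ≤ θ / 2) (hL0 : 4 ≤ c0 * θ * L)
    (hj : JumpG R μ c0 m0 a κ3 κ c1 ω ε Cb C4 θ)
    (hnum : NumG R (τ / (4 * R)) c (6 / a) (2 * A) μ (R / c0) κ3 Cb (2 * C4 + 1) C1 W η)
    (hW : (2 * C4 + 1) ^ 2 * R ≤ c * (W : ℝ) ^ 2) (hC1 : 0 ≤ C1)
    {α β : ℕ} (hα : 1 ≤ α) (hαβ : α + 1 < β) (hβ : β + 1 ≤ W) (G : Finset ℕ)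
    (hG : ∀ r ∈ G, α ≤ r ∧ r < β ∧ r ∈ goodSides τ D W q) (hGα : α ∈ G) (hGβ : β - 1 ∈ G)
    (hK : 10 ≤ G.card)
    (hKc : c * (W : ℝ) ^ 3 ≤ (τ / (4 * R)) * ((2 * τ / R ^ 2) ^ 2 * (G.card : ℝ) ^ 3 / 100))
    (hq0 : q α 1 = 0) (hq1 : q β 1 = 0) (hpos : q α 0 < q β 0) : False := by
  classical
  have hR0 : 0 < R := by linarith
  have hL0' : 0 < L := by linarith
  have hαβ' : α < β := by omega
  have hβW : β ≤ W := by omega
  have h1 : q α 1 = q β 1 := by rw [hq0, hq1]
  have hx : ∀ r < W, q r 0 < q (r + 1) 0 := fun r hr => B.x_lt hαβ' hβW h1 hpos hr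
  have hs : ∀ r < W, |(q (r + 1) 1 - q r 1) / (q (r + 1) 0 - q r 0)| ≤ L * η :=
    fun r hr => B.slope_le hαβ' hβW h1 hpos hr
  have hm : ∀ r, r + 1 < W → (q (r + 1) 1 - q r 1) / (q (r + 1) 0 - q r 0) ≤
      (q (r + 2) 1 - q (r + 1) 1) / (q (r + 2) 0 - q (r + 1) 0) :=
    fun r hr => B.slope_mono hαβ' hβW h1 hpos hr
  obtain ⟨hext, hen, hgap⟩ := C2305bB.Blk.energy_ge B hL hR0 hτ hη0.le (le_min (hη1.trans (by norm_num)) hη2) hx hs hm hα hαβ' hβ G
    hG hK
  set X0 : ℕ → ℝ := fun k => q k 0 with hX0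
  set Y0 : ℕ → ℝ := fun k => q k 1 with hY0
  have hs' : ∀ r, r + 1 < W → slp X0 Y0 r ≤ slp X0 Y0 (r + 1) := fun r hr => hm r hr
  have hτ1 : 0 < 2 * τ / R ^ 2 := by positivity
  have hτR : 0 < τ / (4 * R) := by positivity
  -- strict increase of the slopes
  have hgα := hgap α hGα
  have eα : α - 1 + 1 = α := by omega
  have hsα : slp X0 Y0 (α - 1) < slp X0 Y0 (α + 1) := by
    have e : slp X0 Y0 (α - 1) = (q α 1 - q (α - 1) 1) / (q α 0 - q (α - 1) 0) := by
      unfold slp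
      rw [eα]
    have e' : slp X0 Y0 (α + 1) =
      (q (α + 2) 1 - q (α + 1) 1) / (q (α + 2) 0 - q (α + 1) 0) := rfl
    rw [e, e']
    linarith
  have hlt : slp X0 Y0 0 < slp X0 Y0 (W - 1) :=
    (slp_mono hs' (by omega) (by omega)).trans_lt
      (hsα.trans_le (slp_mono hs' (by omega) (by omega)))
  -- the chain
  set m := β - α with hm'
  set p : ℕ → V := fun k => q (α + k) with hp
  have hmβ : α + m = β := by omega
  have hm1 : 1 ≤ m := by omega
  -- some point is below the chord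
  have hneg : ∃ r ≤ m, p r 1 < 0 := by
    -- otherwise the first slope is nonnegative and the last nonpositive
    by_contra hcon
    push Not at hcon
    have e1 := hcon 1 hm1
    have e2 := hcon (m - 1) (by omega)
    have a1 : 0 ≤ slp X0 Y0 α := by
      unfold slp
      apply div_nonneg
      · show 0 ≤ q (α + 1) 1 - q α 1
        rw [hq0]
        simpa [hp] using e1
      · show 0 ≤ q (α + 1) 0 - q α 0
        linarith [hx α (by omega)]
    have a2 : slp X0 Y0 (β - 1) ≤ 0 := by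
      unfold slp
      apply div_nonpos_of_nonpos_of_nonneg
      · show q (β - 1 + 1) 1 - q (β - 1) 1 ≤ 0
        rw [show β - 1 + 1 = β by omega, hq1]
        have : p (m - 1) = q (β - 1) := by
          show q (α + (m - 1)) = _
          congr 1
          omega
        rw [this] at e2
        linarith
      · show 0 ≤ q (β - 1 + 1) 0 - q (β - 1) 0
        linarith [hx (β - 1) (by omega)]
    -- the slopes are equal to zero between α and β - 1, so the gap at α or β - 1 is violated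
    have a3 : slp X0 Y0 α ≤ slp X0 Y0 (β - 1) := slp_mono hs' (by omega) (by omega)
    -- use a third good side strictly between
    obtain ⟨r, hr, hr1, hr2⟩ : ∃ r ∈ G, r ≠ α ∧ r ≠ β - 1 := by
      by_contra hno
      push Not at hno
      have hsub : G ⊆ {α, β - 1} := by
        intro r hr
        by_cases h : r = α
        · simp [h]
        · simp [hno r hr h]
      have := Finset.card_le_card hsub
      have h2 : ({α, β - 1} : Finset ℕ).card ≤ 2 := Finset.card_le_two
      omega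
    obtain ⟨b1, b2, -⟩ := hG r hr
    have hgr := hgap r hr
    have f1 : slp X0 Y0 α ≤ slp X0 Y0 (r - 1) := slp_mono hs' (by omega) (by omega)
    have f2 : slp X0 Y0 (r + 1) ≤ slp X0 Y0 (β - 1) := slp_mono hs' (by omega) (by omega)
    have e : slp X0 Y0 (r - 1) = (q r 1 - q (r - 1) 1) / (q r 0 - q (r - 1) 0) := by
      unfold slp
      rw [show r - 1 + 1 = r by omega]
    have e' : slp X0 Y0 (r + 1) =
      (q (r + 2) 1 - q (r + 1) 1) / (q (r + 2) 0 - q (r + 1) 0) := rfl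
    linarith
  have hp0 : p 0 1 = 0 := by simpa [hp] using hq0
  have hpm : p m 1 = 0 := by
    show q (α + m) 1 = 0
    rw [hmβ]; exact hq1
  obtain ⟨Z, z1, z2, z3, z4, z5, z6, z7, z8, z9⟩ := Tiling.exists_win B.sharp (m := m) (p := p) hm1
    (fun r hr => B.qW _ (by omega)) (fun r hr => B.qR _ (by omega))
    (fun r hr => hx (α + r) (by omega)) (fun r hr => B.hs (α + r) (by omega)) hp0 hpm hneg
  have : Fintype {i : J // (interior (T.P i ∩ {z | z 1 ≤ 0})).Nonempty} := Fintype.ofFinite _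
  let _ : LinearOrder {i : J // (interior (T.P i ∩ {z | z 1 ≤ 0})).Nonempty} :=
    IsWellOrder.linearOrder WellOrderingRel
  have hcount := z9
  have C : Chain m (fun r => p r 0) (fun r => p r 1) := by
    have := Z.C
    rwa [z1, z2, z3] at this
  -- slopes
  have sl_eq : ∀ r, C2305bH68.slope (fun r => p r 0) (fun r => p r 1) r = slp X0 Y0 (α + r) :=
    fun r => rfl
  set Q := C2305bH68.energy m (fun r => p r 0) (fun r => p r 1) with hQ
  set X := p m 0 - p 0 0 with hX
  have hXpos : 0 < X := by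
    have := C.width_pos
    exact this
  have hXW : X ≤ R * W := by
    have h := B.width_le hL hR0.le (a := α) (b := β) (by omega) (by omega)
    have e1 : p m = q β := by
      show q (α + m) = q β
      rw [hmβ]
    have e2 : p 0 = q α := rfl
    rw [hX, e1, e2]
    refine h.trans ?_
    apply mul_le_mul_of_nonneg_left _ hR0.le
    exact_mod_cast (by omega : β - α ≤ W)
  set T0 := max |C2305bH68.slope (fun r => p r 0) (fun r => p r 1) 0|
    |C2305bH68.slope (fun r => p r 0) (fun r => p r 1) (m - 1)| with hT0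
  have hT0nn : 0 ≤ T0 := (abs_nonneg _).trans (le_max_left _ _)
  have hT0L : T0 ≤ L * η := by
    apply max_le
    · exact hs (α + 0) (by omega)
    · exact hs (α + (m - 1)) (by omega)
  -- energy against slope
  have hQT : τ / (4 * R) * T0 ^ 2 ≤ Q := by
    have key : ∀ r < m, τ / (4 * R) ≤ p (r + 1) 0 - p r 0 → τ / (4 * R) *
        |C2305bH68.slope (fun r => p r 0) (fun r => p r 1) r| ^ 2 ≤ Q := by
      intro r hr he
      rw [sq_abs]
      have h2 : C2305bH68.ext (fun r => p r 0) r *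
          C2305bH68.slope (fun r => p r 0) (fun r => p r 1) r ^ 2 ≤ Q :=
        Finset.single_le_sum (f := fun r => C2305bH68.ext (fun r => p r 0) r *
          C2305bH68.slope (fun r => p r 0) (fun r => p r 1) r ^ 2)
          (fun r hr => mul_nonneg (C.ext_pos (Finset.mem_range.mp hr)).le (sq_nonneg _))
          (Finset.mem_range.mpr hr)
      exact (mul_le_mul_of_nonneg_right he (sq_nonneg _)).trans h2
    rcases max_choice |C2305bH68.slope (fun r => p r 0) (fun r => p r 1) 0|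
      |C2305bH68.slope (fun r => p r 0) (fun r => p r 1) (m - 1)| with h | h
    · rw [hT0, h]
      exact key 0 (by omega) (hext α hGα)
    · rw [hT0, h]
      refine key (m - 1) (by omega) ?_
      have := hext (β - 1) hGβ
      have e1 : β - 1 + 1 = α + (m - 1 + 1) := by omega
      have e2 : β - 1 = α + (m - 1) := by omega
      rw [e1, e2] at this
      exact this
  have hQX : Q ≤ X * T0 ^ 2 := by
    have h2 : Q ≤ ∑ r ∈ Finset.range m, C2305bH68.ext (fun r => p r 0) r * T0 ^ 2 := by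
      apply Finset.sum_le_sum
      intro r hr
      have hr' := Finset.mem_range.mp hr
      apply mul_le_mul_of_nonneg_left _ (C.ext_pos hr').le
      have := C.abs_slope_le hr'
      rw [← sq_abs]
      exact pow_le_pow_left₀ (abs_nonneg _) this 2
    rw [← Finset.sum_mul, C.sum_ext] at h2
    exact h2
  have hQc : c * (W : ℝ) ^ 3 ≤ Q := hKc.trans hen
  have hWpos : (0 : ℝ) < W := by
    have : 0 < W := by omega
    exact_mod_cast this
  have hQpos : 0 < Q := lt_of_lt_of_le (by positivity) hQc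
  have hWsq : c * (W : ℝ) ^ 2 ≤ R * T0 ^ 2 := by
    have h4 : X * T0 ^ 2 ≤ R * W * T0 ^ 2 := mul_le_mul_of_nonneg_right hXW (sq_nonneg _)
    have h5 : c * (W : ℝ) ^ 2 * W ≤ R * T0 ^ 2 * W := by
      have e1 : c * (W : ℝ) ^ 2 * W = c * (W : ℝ) ^ 3 := by ring
      have e2 : R * T0 ^ 2 * W = R * W * T0 ^ 2 := by ring
      rw [e1, e2]
      exact hQc.trans (hQX.trans h4)
    exact le_of_mul_le_mul_right h5 hWpos
  set s : ℝ := 2 * C4 + 1 with hs_def
  have hs1 : 5 ≤ s := by rw [hs_def]; linarith only [hC4]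
  have hsT : s ≤ T0 := by
    have h1 : s ^ 2 * R ≤ T0 ^ 2 * R := by
      have e : T0 ^ 2 * R = R * T0 ^ 2 := by ring
      rw [e]; exact hW.trans hWsq
    have h2 : s ^ 2 ≤ T0 ^ 2 := le_of_mul_le_mul_right h1 hR0
    exact le_of_sq_le_sq h2 hT0nn
  have hT0p : 0 < T0 := by linarith only [hs1, hsT]
  have hLη : L * η ≤ L * (1 / 30) := mul_le_mul_of_nonneg_left hη1 hL0'.le
  have hLT3 : 10 * (3 * T0) ≤ L := by linarith only [hLη, hT0L]
  set H := Real.sqrt (X * Q) with hH
  have hH0 : 0 ≤ H := Real.sqrt_nonneg _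
  have hHsq : H ^ 2 = X * Q := Real.sq_sqrt (by positivity)
  have hHXT : H ≤ X * T0 := by
    have h2 : H ^ 2 ≤ (X * T0) ^ 2 := by
      rw [hHsq, mul_pow]
      have : X * Q ≤ X * (X * T0 ^ 2) := mul_le_mul_of_nonneg_left hQX hXpos.le
      linarith only [this, (by ring : X * (X * T0 ^ 2) = X ^ 2 * T0 ^ 2)]
    exact le_of_sq_le_sq h2 (by positivity)
  have hHL : 2 * (H + 1) ≤ c0 * θ * L := by
    have h4 : X * T0 ≤ (R * W) * (L * η) := mul_le_mul hXW hT0L hT0nn (by positivity)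
    have h5 : (R * W) * (L * η) * 4 = L * (η * (4 * (R * W))) := by ring
    have h6 : L * (η * (4 * (R * W))) ≤ L * (c0 * θ) := mul_le_mul_of_nonneg_left hη3 hL0'.le
    have h7 : L * (c0 * θ) = c0 * θ * L := by ring
    linarith only [hHXT, h4, h5, h6, h7, hL0]
  have hHZ : ∀ z ∈ Z.T.R, -H ≤ z 1 := by
    intro z hz
    rw [Z.hR] at hz
    have hconv : Convex ℝ {z : V | -H ≤ z 1} := by
      intro u hu v hv s t hs0 ht0 hst
      simp only [Set.mem_ofPred_eq, PiLp.add_apply, PiLp.smul_apply, smul_eq_mul] at *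
      have e1 := mul_le_mul_of_nonneg_left hu hs0
      have e2 := mul_le_mul_of_nonneg_left hv ht0
      have e3 : -H = s * -H + t * -H := by rw [← add_mul, hst, one_mul]
      linarith only [e1, e2, e3]
    refine convexHull_min ?_ hconv hz
    rintro _ ⟨r, hr, rfl⟩
    have hr' : r ≤ m := by
      have : r ≤ Z.m := hr
      omega
    have h2 := C.height_le hr'
    have h3 : Z.p r 1 = p r 1 := by rw [z4]
    show -H ≤ Z.p r 1
    rw [h3]
    exact (abs_le.1 h2).1
  have hAB : ∀ z ∈ Z.T.R, cr (q W - q 0) (z - q 0) < 0 := by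
    intro z hz
    rw [Z.hR] at hz
    have hconv : Convex ℝ {z : V | cr (q W - q 0) (z - q 0) < 0} := by
      intro u hu v hv s t hs0 ht0 hst
      have e : s • u + t • v - q 0 = s • (u - q 0) + t • (v - q 0) := by
        have : q 0 = (s + t) • q 0 := by rw [hst, one_smul]
        nth_rewrite 1 [this]
        module
      show cr (q W - q 0) (s • u + t • v - q 0) < 0
      rw [e, cr_add_right, cr_smul_right, cr_smul_right]
      rcases hs0.lt_or_eq with h | h
      · have k1 := mul_neg_of_pos_of_neg h hu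
        have k2 := mul_nonpos_of_nonneg_of_nonpos ht0 (le_of_lt hv)
        linarith only [k1, k2, hH0, hR0]
      · rw [← h, zero_add] at hst
        rw [← h, hst, zero_mul, one_mul, zero_add]
        exact hv
    refine convexHull_min ?_ hconv hz
    rintro _ ⟨r, hr, rfl⟩
    have hr' : r ≤ m := by
      have : r ≤ Z.m := hr
      omega
    show cr (q W - q 0) (Z.p r - q 0) < 0
    rw [z4, cr_crd]
    exact below_chord (x := X0) (y := Y0) (W := W) hx hs' hlt (r := α + r) (by omega) (by omega)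
  have hXZ : X = Z.x Z.m - Z.x 0 := by rw [z1, z2]
  have hc4 : ∀ i, ∀ z ∈ T.P i, ∀ z' ∈ T.P i, Fits L (F i) R (z 0 - z' 0) (z 1 - z' 1) := B.fit
  -- the tiles with flat frames
  set S0 : Finset {i : J // (interior (T.P i ∩ {z | z 1 ≤ 0})).Nonempty} :=
    Finset.univ.filter fun i => RegTile L ε c0 a T F i.1 ∧
      L * |(F i.1).S| ≤ 3 * T0 * (F i.1).c with hS0
  have hS0m : ∀ i, i ∈ S0 ↔ RegTile L ε c0 a T F i.1 ∧ L * |(F i.1).S| ≤ 3 * T0 * (F i.1).c := by
    intro i
    rw [hS0, Finset.mem_filter]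
    exact ⟨fun h => h.2, fun h => ⟨Finset.mem_univ _, h⟩⟩
  -- the level
  set K : ℕ := ⌊T0 / s⌋₊ with hKdef
  have hsp : 0 < s := by linarith only [hs1]
  have hTs : 0 ≤ T0 / s := by positivity
  have hK1 : 1 ≤ K := by
    rw [hKdef, Nat.one_le_floor_iff, one_le_div hsp]
    exact hsT
  have hKle : s * K ≤ T0 := by
    have := Nat.floor_le hTs
    rw [le_div_iff₀ hsp] at this
    rw [mul_comm]; exact this
  have hKlt : T0 < s * (K + 1) := by
    have := Nat.lt_floor_add_one (T0 / s)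
    rw [div_lt_iff₀ hsp] at this
    rw [mul_comm]; exact this
  obtain ⟨k, hkK, hkc⟩ := exists_level S0 (fun i => L * |(F i.1).S| / (F i.1).c) (T0 := T0)
    (s := s) (C := C4) (by rw [hs_def]; linarith only []) hK1
  set Tc : ℝ := T0 + s * k with hTc
  have hTc0 : T0 ≤ Tc := by
    rw [hTc]
    have : 0 ≤ s * (k : ℝ) := by positivity
    linarith only [this]
  have hTc2 : Tc ≤ 2 * T0 := by
    have h1 : (k : ℝ) ≤ K := by exact_mod_cast hkK.le
    have h2 : s * (k : ℝ) ≤ s * K := mul_le_mul_of_nonneg_left h1 hsp.le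
    rw [hTc]
    linarith only [h2, hKle]
  have hTcp : 0 < Tc := by linarith only [hT0p, hTc0]
  have hTcL : Tc ≤ θ * L := by
    have h1 : L * η ≤ L * (θ / 2) := mul_le_mul_of_nonneg_left hη4 hL0'.le
    linarith only [h1, hTc2, hT0L]
  have hLT : 10 * Tc ≤ L := by linarith only [hTc2, hLT3, hT0p]
  obtain ⟨fa, f1, f2⟩ := hj F Z z5 z6 z7
    (fun i j hij d hd => by
      obtain ⟨d0, h2, h3, -⟩ := z8 i j hij d hd
      exact ⟨d0, h2, h3⟩) L Tc T0 H hc4 hL (by linarith only [hsT, hs_def, hC4]) hTc0 hTc2 hTcL hH0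
    (by linarith only [hHL, hH0]) hHZ (q 0) (q W) hAB Bad mm gg hLvl hF S0 hS0m
  have hfin := Z.energy_le_signed fa (5 * R * Tc) (by
    intro i r hr d hd
    have hmem := (Z.mem_low).mp hd
    have hd1 : d.1 ∈ T.P i.1 := by
      have := hmem.1.1.2
      rw [z6] at this
      exact this.1
    have hd2 : d.2 ∈ T.P i.1 := by
      have := hmem.1.2.1.2
      rw [z6] at this
      exact this.1
    have hf := B.fit i.1 d.2 hd2 d.1 hd1
    rw [Z.low_slope hd] at hf
    rw [z1] at hr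
    rw [f1 i r d hd]
    refine side_loss hTcp hLT hR0.le ?_ (by linarith only [hmem.2.2.2.2]) hf
    rw [z2, z3]
    exact (C.abs_slope_le hr).trans hTc0)
  rw [z1, z2, z3] at hfin
  have hsv : ((Tiling.sideVerts T m p).card : ℝ) ≤ A * W := by
    refine le_trans ?_ hverts
    have : (Tiling.sideVerts T m p) ⊆ (Tiling.sideVerts T W q) := by
      intro w hw
      unfold Tiling.sideVerts at hw ⊢
      rw [Finset.mem_filter] at hw ⊢
      obtain ⟨hwW, r, hr, hwr⟩ := hw
      exact ⟨hwW, α + r, by omega, hwr⟩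
    exact_mod_cast Finset.card_le_card this
  have hcnt : ((∑ i, ∑ r ∈ Finset.range m, (Z.low i r).card : ℕ) : ℝ) ≤ 2 * A * W := by
    have h2 : ((∑ i, ∑ r ∈ Finset.range m, (Z.low i r).card : ℕ) : ℝ) ≤
        ((m + (Tiling.sideVerts T m p).card : ℕ) : ℝ) := by
      exact_mod_cast hcount
    refine h2.trans ?_
    push_cast
    have h3 : (m : ℝ) ≤ W := by exact_mod_cast (by omega : m ≤ W)
    have h4 : (W : ℝ) ≤ A * W := le_mul_of_one_le_left hWpos.le hA
    linarith only [h3, h4, hsv]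
  have hX2 : 0 ≤ X + 2 * R := by linarith only [hXpos, hR0]
  have hinj : Function.Injective
      (Subtype.val : {i : J // (interior (T.P i ∩ {z | z 1 ≤ 0})).Nonempty} → J) :=
    Subtype.val_injective
  -- the number of flat tiles
  have hN : (S0.card : ℝ) ≤ 6 / a * (X + 2 * R) * (H + R + R * T0) := by
    have h1 := card_flat_win (F := F) (a := a) (H := H) hinj Z z6
      (by linarith only [hT0p] : 0 < 3 * T0) hLT3 hL hR0.le hc4 hH0 hHZ (S := S0)
      (fun i hi => ⟨((hS0m i).1 hi).1.area, ((hS0m i).1 hi).2⟩)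
    rw [← hXZ] at h1
    have h2 : (X + 2 * R) * (H + 2 * ((102 / 100 + 3 * T0) * R)) ≤
        (X + 2 * R) * (6 * (H + R + R * T0)) := by
      apply mul_le_mul_of_nonneg_left _ hX2
      have : 0 ≤ R * T0 := by positivity
      linarith only [hH0, hR0, this]
    have h3 : 6 / a * (X + 2 * R) * (H + R + R * T0) =
        (X + 2 * R) * (6 * (H + R + R * T0)) / a := by ring
    rw [h3, le_div_iff₀ ha]
    exact h1.trans h2
  have hNb : ((S0.filter fun i => ∃ z ∈ T.P i.1, 0 ≤ z 1).card : ℝ) ≤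
      6 / a * (X + 2 * R) * (R + R * T0) := by
    have h1 := card_base_win (F := F) (a := a) hinj Z z6
      (by linarith only [hT0p] : 0 < 3 * T0) hLT3 hL hR0.le hc4
      (S := S0.filter fun i => ∃ z ∈ T.P i.1, 0 ≤ z 1)
      (fun i hi => by
        obtain ⟨h2, h3⟩ := Finset.mem_filter.mp hi
        exact ⟨((hS0m i).1 h2).1.area, ((hS0m i).1 h2).2, h3⟩)
    rw [← hXZ] at h1
    have h2 : (X + 2 * R) * (2 * ((102 / 100 + 3 * T0) * R)) ≤
        (X + 2 * R) * (6 * (R + R * T0)) := by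
      apply mul_le_mul_of_nonneg_left _ hX2
      have : 0 ≤ R * T0 := by positivity
      linarith only [hR0, this]
    have h3 : 6 / a * (X + 2 * R) * (R + R * T0) =
        (X + 2 * R) * (6 * (R + R * T0)) / a := by ring
    rw [h3, le_div_iff₀ ha]
    exact h1.trans h2
  have hNa : ((Finset.univ.filter fun i : {i : J // (interior (T.P i ∩ {z | z 1 ≤ 0})).Nonempty} =>
      RegTile L ε c0 a T F i.1).card : ℝ) ≤
      6 / a * (X + 2 * R) * (R / c0 * (H + 1)) := by
    set Tf : ℝ := 102 / 100 * ((H + 1) / c0) with hTf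
    have hH1 : 0 < (H + 1) / c0 := by positivity
    have hHc : (H + 1) / c0 ≤ θ * L / 2 := by
      rw [div_le_iff₀ hc0]
      have : θ * L / 2 * c0 = c0 * θ * L / 2 := by ring
      linarith only [this, hHL]
    have hθL : θ * L ≤ L / 10 := by
      have := mul_le_mul_of_nonneg_right hθ1 hL0'.le
      linarith only [this]
    have h1 := card_flat_win (F := F) (a := a) (H := H) (Tc := Tf) hinj Z z6
      (by positivity) (by rw [hTf]; linarith only [hHc, hθL, hL0']) hL hR0.le hc4 hH0 hHZ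
      (S := Finset.univ.filter fun i : {i : J // (interior (T.P i ∩ {z | z 1 ≤ 0})).Nonempty} =>
        RegTile L ε c0 a T F i.1)
      (fun i hi => by
        have hreg := (Finset.mem_filter.mp hi).2
        refine ⟨hreg.area, ?_⟩
        obtain ⟨z, hz⟩ := Z.T.nonem i
        have hz' := interior_subset hz
        have hzR := Z.tile_sub i hz'
        have hzP := hz'
        rw [z6 i] at hzP
        have hfl := hreg.flat' hL0' hc0 hc01 hH0 hzP.1 hzP.2 (fun w hw hw1 => by
          apply hHZ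
          rw [z5]
          exact ⟨hw, hw1⟩)
        -- c ≥ 100 / 102
        have hS : |(F i.1).S| ≤ 1 / 20 := by
          have k1 : L * |(F i.1).S| ≤ L * (1 / 20) := by
            linarith only [hfl, hHc, hθL]
          exact le_of_mul_le_mul_left k1 hL0'
        have hcc : 100 / 102 ≤ (F i.1).c := by
          have k1 := (F i.1).nrm
          have k2 := (F i.1).c0
          by_contra hcon
          push Not at hcon
          have k3 : (F i.1).c ^ 2 ≤ (100 / 102) ^ 2 := pow_le_pow_left₀ k2 hcon.le 2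
          have k4 : (F i.1).S ^ 2 ≤ (1 / 20) ^ 2 := by
            rw [← sq_abs]
            exact pow_le_pow_left₀ (abs_nonneg _) hS 2
          norm_num at k3 k4
          linarith only [k1, k3, k4]
        have k5 : (H + 1) / c0 * (100 / 102) ≤ (H + 1) / c0 * (F i.1).c :=
          mul_le_mul_of_nonneg_left hcc hH1.le
        rw [hTf]
        linarith only [hfl, k5])
    rw [← hXZ] at h1
    have hRc : R ≤ R / c0 := by
      rw [le_div_iff₀ hc0]
      have := mul_le_mul_of_nonneg_left hc01 hR0.le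
      linarith only [this]
    have h2 : (X + 2 * R) * (H + 2 * ((102 / 100 + Tf) * R)) ≤
        (X + 2 * R) * (6 * (R / c0 * (H + 1))) := by
      apply mul_le_mul_of_nonneg_left _ hX2
      have e1 : Tf * R = 102 / 100 * (R / c0 * (H + 1)) := by
        rw [hTf]; field_simp
      have e2 : 2 * ((102 / 100 + Tf) * R) = 204 / 100 * R + 2 * (Tf * R) := by ring
      rw [e2, e1]
      have k1 : R ≤ R / c0 * (H + 1) := by
        have : R / c0 * 1 ≤ R / c0 * (H + 1) :=
          mul_le_mul_of_nonneg_left (by linarith only [hH0]) (by positivity)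
        linarith only [this, hRc]
      have k2 : H ≤ R / c0 * (H + 1) := by
        have k3 : 1 ≤ R / c0 := hR.trans hRc
        have : 1 * (H + 1) ≤ R / c0 * (H + 1) :=
          mul_le_mul_of_nonneg_right k3 (by linarith only [hH0])
        linarith only [this]
      linarith only [k1, k2, hH0, hR0]
    have h3 : 6 / a * (X + 2 * R) * (R / c0 * (H + 1)) =
        (X + 2 * R) * (6 * (R / c0 * (H + 1))) / a := by ring
    rw [h3, le_div_iff₀ ha]
    exact h1.trans h2
  have hbd : ((Bad.filter fun s => Meets T (q 0) (q W) s).card : ℝ) ≤ 2 * A * C1 * W := by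
    have h1 := hbad (Bad.filter fun s => Meets T (q 0) (q W) s)
      (fun s => by rw [Finset.mem_filter])
    have : 0 ≤ A * C1 * W := by positivity
    linarith only [h1, this]
  have hT0η : T0 ≤ 2 * η * L := by
    have : 0 ≤ L * η := by positivity
    linarith only [hT0L, this]
  refine hnum L T0 Tc Q X H _ _ _ _ _ _ _ K hL0' hT0nn hTcp.le hTc2 hT0η hH0 hXpos hXW hQc hQT hQX
    hHsq.le hKlt (Nat.cast_nonneg _) hN hNb ?_ (Nat.cast_nonneg _) hNa hcnt hbd hfin f2
  exact_mod_cast hkc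

end C2305bG
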