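import Pool.Agent.W_c2305b_h73.MoveG

/-! The move lemmas are in `Pool.Agent.W_c2305b_h73.MoveG`. -/
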