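import Pool.Agent.W_c2305b_h19.Asm

/-!
# There is no block with many good sides and small cost (MP_c2305b_co, part B)
-/

namespace C2305bB

open Set MeasureTheory C2305b.TL
open C2305bH52 (needle)

/-- **Window lemma.** -/
theorem no_block (R τ a γ A : ℝ) (hR : 1 ≤ R) (hτ : 0 < τ) (ha : 0 < a) (hγ : 0 < γ)
    (hA : 1 ≤ A) :
    ∃ κ : ℝ, 0 < κ ∧ κ ≤ 1 ∧ ∀ C1 : ℝ, 0 ≤ C1 → ∃ W : ℕ, 1 ≤ W ∧ ∃ κ' : ℝ, 0 < κ' ∧ κ' ≤ κ ∧
    ∀ C2 : ℝ, 0 ≤ C2 → ∀ L1 : ℝ, ∃ η : ℝ, 0 < η ∧ ∀ L : ℝ, 1 ≤ L →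
    ∀ (J : Type) [Fintype J] (T : Tiling J) (D : Set V) (F : J → Fr) (q : ℕ → V),
      Blk L R η T D F W q → Cost L τ a κ κ' γ A C1 C2 L1 T D F W q → False := by
  have hR0 : 0 < R := by linarith
  set c0 : ℝ := τ / (4 * R) with hc0
  set τ1 : ℝ := 2 * τ / R ^ 2 with hτ1
  have hc0p : 0 < c0 := by rw [hc0]; positivity
  have hτ1p : 0 < τ1 := by rw [hτ1]; positivity
  set c : ℝ := c0 * (τ1 ^ 2 * (γ / 2) ^ 3 / 100) with hc
  have hcp : 0 < c := by rw [hc]; positivity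
  obtain ⟨κ, hκ0, hκ1, H1⟩ := window_num R c0 c (12 / a) (2 * A) hR hc0p hcp (by positivity)
    (by linarith)
  refine ⟨κ, hκ0, hκ1, fun C1 hC1 => ?_⟩
  obtain ⟨W0, H2⟩ := H1 C1 hC1
  obtain ⟨n1, hn1⟩ := exists_nat_gt (20 / γ)
  obtain ⟨n2, hn2⟩ := exists_nat_gt (4 * R / c)
  set W : ℕ := max W0 (max n1 (max n2 1)) with hW
  have hWW0 : W0 ≤ W := le_max_left _ _
  have hWn1 : n1 ≤ W := (le_max_left _ _).trans (le_max_right _ _)
  have hWn2 : n2 ≤ W := (le_max_left _ _).trans ((le_max_right _ _).trans (le_max_right _ _))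
  have hW1 : 1 ≤ W := (le_max_right _ _).trans ((le_max_right _ _).trans (le_max_right _ _))
  have hWγ : 20 ≤ γ * W := by
    have : 20 / γ ≤ W := hn1.le.trans (by exact_mod_cast hWn1)
    rw [div_le_iff₀ hγ] at this
    linarith
  have hW1r : (1 : ℝ) ≤ W := by exact_mod_cast hW1
  have hWR : 4 * R ≤ c * (W : ℝ) ^ 2 := by
    have h1 : 4 * R / c ≤ W := hn2.le.trans (by exact_mod_cast hWn2)
    rw [div_le_iff₀ hcp] at h1
    have h2 : (W : ℝ) * c ≤ W * c * W := by
      have : 0 ≤ (W : ℝ) * c := by positivity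
      exact le_mul_of_one_le_right this hW1r
    have h3 : (W : ℝ) * c * W = c * (W : ℝ) ^ 2 := by ring
    linarith
  obtain ⟨κ', hκ'0, hκ'1, H3⟩ := H2 W hWW0
  refine ⟨W, hW1, κ', hκ'0, hκ'1, fun C2 hC2 L1 => ?_⟩
  obtain ⟨L0, H4⟩ := H3 C2 hC2
  set L2 : ℝ := max 1 (max L0 L1) with hL2
  have hL2p : 0 < L2 := lt_of_lt_of_le one_pos (le_max_left _ _)
  have hWp : (0 : ℝ) < W := by linarith
  refine ⟨min (min (1 / 10) (τ / (2 * R ^ 2))) (min (1 / (R * W)) (τ1 / (4 * L2))),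
    lt_min (lt_min (by norm_num) (by positivity)) (lt_min (by positivity) (by positivity)), ?_⟩
  set η := min (min (1 / 10) (τ / (2 * R ^ 2))) (min (1 / (R * W)) (τ1 / (4 * L2))) with hη
  have hη0 : 0 < η :=
    lt_min (lt_min (by norm_num) (by positivity)) (lt_min (by positivity) (by positivity))
  have hη1 : η ≤ 1 / 10 := (min_le_left _ _).trans (min_le_left _ _)
  have hη2 : η ≤ τ / (2 * R ^ 2) := (min_le_left _ _).trans (min_le_right _ _)
  have hη3 : η * (R * W) ≤ 1 := by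
    have h1 : η ≤ 1 / (R * W) := (min_le_right _ _).trans (min_le_left _ _)
    rwa [le_div_iff₀ (by positivity)] at h1
  have hη4 : η * (4 * L2) ≤ τ1 := by
    have h1 : η ≤ τ1 / (4 * L2) := (min_le_right _ _).trans (min_le_right _ _)
    rwa [le_div_iff₀ (by positivity)] at h1
  intro L hL J _ T D F q B Cst
  have hLp : 0 < L := by linarith
  classical
  -- the good sides strictly inside the block
  set G : Finset ℕ := (goodSides τ D W q).filter fun r => 1 ≤ r ∧ r + 2 ≤ W with hG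
  have hcard : (goodSides τ D W q).card ≤ G.card + 2 := by
    have hsub : goodSides τ D W q ⊆ G ∪ {0, W - 1} := by
      intro r hr
      have hrW : r < W := by
        unfold goodSides at hr
        exact Finset.mem_range.mp (Finset.mem_filter.mp hr).1
      rw [Finset.mem_union, hG, Finset.mem_filter]
      by_cases h0 : r = 0
      · right; simp [h0]
      · by_cases h1 : r = W - 1
        · right; simp [h1]
        · left; exact ⟨hr, by omega, by omega⟩
    have h1 := Finset.card_le_card hsub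
    have h2 := Finset.card_union_le G ({0, W - 1} : Finset ℕ)
    have h3 : ({0, W - 1} : Finset ℕ).card ≤ 2 := Finset.card_le_two
    omega
  have hGc : γ / 2 * W ≤ (G.card : ℝ) := by
    have h1 := Cst.good
    have h2 : ((goodSides τ D W q).card : ℝ) ≤ (G.card : ℝ) + 2 := by exact_mod_cast hcard
    linarith
  have hG10 : 10 ≤ G.card := by
    have : (10 : ℝ) ≤ G.card := by linarith
    exact_mod_cast this
  have hGne : G.Nonempty := Finset.card_pos.mp (by omega)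
  set α := G.min' hGne with hα
  set μ := G.max' hGne with hμ
  have hαG : α ∈ G := G.min'_mem hGne
  have hμG : μ ∈ G := G.max'_mem hGne
  have hrange : ∀ r ∈ G, α ≤ r ∧ r < μ + 1 := fun r hr =>
    ⟨G.min'_le r hr, Nat.lt_succ_of_le (G.le_max' r hr)⟩
  have hGsub : G ⊆ Finset.Ico α (μ + 1) := fun r hr => Finset.mem_Ico.mpr (hrange r hr)
  have hlen : G.card ≤ μ + 1 - α := by
    have := Finset.card_le_card hGsub
    rwa [Nat.card_Ico] at this
  have hα1 : 1 ≤ α := by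
    rw [hG, Finset.mem_filter] at hαG
    exact hαG.2.1
  have hμW : μ + 2 ≤ W := by
    rw [hG, Finset.mem_filter] at hμG
    exact hμG.2.2
  have hαβ : α + 1 < μ + 1 := by omega
  -- the horizontal position
  have hne : q (μ + 1) - q α ≠ 0 := B.chord_ne (by omega) (by omega)
  obtain ⟨g1, g2, hg, hr1, hr0⟩ := exists_rot hLp hne
  obtain ⟨T', D', F', B', Cst', hgs⟩ := exists_move hLp B Cst (q α) hg
  set q' : ℕ → V := fun r => rot L g1 g2 hLp.ne' hg (q r - q α) with hq'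
  have hq0 : q' α = 0 := by
    show rot L g1 g2 hLp.ne' hg (q α - q α) = 0
    rw [sub_self, map_zero]
  have hq01 : q' α 1 = 0 := by rw [hq0]; rfl
  have hq00 : q' α 0 = 0 := by rw [hq0]; rfl
  have hqβ1 : q' (μ + 1) 1 = 0 := hr1
  have hpos : q' α 0 < q' (μ + 1) 0 := by rw [hq00]; exact hr0
  have hG' : ∀ r ∈ G, α ≤ r ∧ r < μ + 1 ∧ r ∈ goodSides τ D' W q' := by
    intro r hr
    obtain ⟨h1, h2⟩ := hrange r hr
    refine ⟨h1, h2, ?_⟩
    rw [hgs]
    exact (Finset.mem_filter.mp hr).1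
  have h1' : q' α 1 = q' (μ + 1) 1 := by rw [hq01, hqβ1]
  rcases lt_or_ge L L2 with hlt | hge
  · -- bounded eccentricity
    have hx : ∀ r < W, q' r 0 < q' (r + 1) 0 := fun r hr =>
      B'.x_lt (by omega) (by omega) h1' hpos hr
    have hs : ∀ r < W, |(q' (r + 1) 1 - q' r 1) / (q' (r + 1) 0 - q' r 0)| ≤ L * η :=
      fun r hr => B'.slope_le (by omega) (by omega) h1' hpos hr
    have hm : ∀ r, r + 1 < W → (q' (r + 1) 1 - q' r 1) / (q' (r + 1) 0 - q' r 0) ≤
        (q' (r + 2) 1 - q' (r + 1) 1) / (q' (r + 2) 0 - q' (r + 1) 0) :=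
      fun r hr => B'.slope_mono (by omega) (by omega) h1' hpos hr
    obtain ⟨-, -, hgap⟩ := B'.energy_ge hL hR0 hτ hη0.le (le_min hη1 hη2) hx hs hm hα1
      (by omega : α < μ + 1) (by omega) G hG' hG10
    have h2 := hgap α hαG
    have h3 := hs (α + 1) (by omega)
    have h4 := hs (α - 1) (by omega)
    rw [show α - 1 + 1 = α by omega] at h4
    have h5 := (abs_le.1 h3).2
    have h6 := (abs_le.1 h4).1
    have h7 : (q' (α + 1 + 1) 1 - q' (α + 1) 1) / (q' (α + 1 + 1) 0 - q' (α + 1) 0) =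
      (q' (α + 2) 1 - q' (α + 1) 1) / (q' (α + 2) 0 - q' (α + 1) 0) := rfl
    rw [h7] at h5
    have h8 : L * η < L2 * η := mul_lt_mul_of_pos_right hlt hη0
    have h9 : η * (4 * L2) = 4 * (L2 * η) := by ring
    have h10 : 0 < L * η := by positivity
    linarith
  · have hL0' : L0 ≤ L := ((le_max_left _ _).trans (le_max_right _ _)).trans hge
    have hL1' : L1 ≤ L := ((le_max_right _ _).trans (le_max_right _ _)).trans hge
    refine core B' Cst' hL hR hτ ha hA hκ0 hκ1 hκ'0 hcp hη0 hη1 hη2 hη3 hL0' hL1' H4 hWR hC1 hC2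
      hα1 hαβ (by omega) G hG' hαG (by simpa using hμG) hG10 ?_ hq01 hqβ1 hpos
    have h1 : (γ / 2 * W) ^ 3 ≤ (G.card : ℝ) ^ 3 := pow_le_pow_left₀ (by positivity) hGc 3
    have h2 : c * (W : ℝ) ^ 3 = c0 * (τ1 ^ 2 * (γ / 2 * W) ^ 3 / 100) := by
      rw [hc]; ring
    rw [h2]
    apply mul_le_mul_of_nonneg_left _ hc0p.le
    apply div_le_div_of_nonneg_right _ (by norm_num)
    exact mul_le_mul_of_nonneg_left h1 (by positivity)

end C2305bB
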