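import Pool.Agent.W_c2305b_h19.CoreG
import Pool.Agent.W_c2305b_h19.NoBlock
import Pool.Agent.W_c2305b_h73.MoveG
import Pool.Agent.W_c2305b_h28.WindowNumG

/-!
# There is no block with many good sides and small cost (MP_c2305b_co, class Gap + Sym)
-/

namespace C2305bG

open Set MeasureTheory C2305b.TL
open C2305bB (Fr mis Fits al Meets Blk goodSides mvT mv goodSides_move meets_move
  card_sideVerts_move)
open C2305bH52 (needle)

open Classical in
/-- **Window lemma**, class Gap + Sym. -/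
theorem no_blockG (R τ a γ A μ c0 m0 : ℝ) (hR : 1 ≤ R) (hτ : 0 < τ) (ha : 0 < a) (hγ : 0 < γ)
    (hA : 1 ≤ A) (hμ : 0 ≤ μ) (hc0 : 0 < c0) (hc01 : c0 ≤ 1)
    (hjump : ∀ κ3 : ℝ, 0 < κ3 → ∃ κ : ℝ, 0 < κ ∧ κ ≤ 1 ∧ ∀ c1 : ℝ, 0 < c1 → c1 ≤ 1 →
      ∀ ω : ℝ, 0 < ω → ∃ ε : ℝ, 0 < ε ∧ ∃ Cb : ℝ, 0 ≤ Cb ∧ ∃ C4 : ℝ, 2 ≤ C4 ∧ ∃ θ : ℝ, 0 < θ ∧
      θ ≤ 1 / 10 ∧ JumpG R μ c0 m0 a κ3 κ c1 ω ε Cb C4 θ) :
    ∃ κ : ℝ, 0 < κ ∧ κ ≤ 1 ∧ ∀ c1 : ℝ, 0 < c1 → c1 ≤ 1 → ∀ ω : ℝ, 0 < ω → ∃ ε : ℝ, 0 < ε ∧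
    ∀ C1 : ℝ, 0 ≤ C1 → ∃ W : ℕ, 1 ≤ W ∧ ∀ L1 : ℝ, ∃ η : ℝ, 0 < η ∧ ∀ (L : ℝ) (hL : 1 ≤ L)
    (J : Type) [Fintype J] (T : Tiling J) (D : Set V) (F : J → Fr) (q : ℕ → V)
    (Bad : Finset (J × J)), Blk L R η T D F W q →
      γ * W ≤ ((goodSides τ D W q).card : ℝ) →
      ((Tiling.sideVerts T W q).card : ℝ) ≤ A * W →
      ((Bad.filter fun s => Meets T (q 0) (q W) s).card : ℝ) ≤ A * C1 * W →
      (L1 ≤ L → Lvl L μ ε c0 a T F Bad ∧
        ∀ (z : V) (g1 g2 : ℝ) (hg : g1 ^ 2 + g2 ^ 2 = 1), ∃ m g : J → V,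
          Field L R m0 ω (κ * c1 ^ 2) κ c1 (mvT T (by linarith : (0 : ℝ) < L).ne' hg z)
            (fun i => (F i).rot g1 g2 hg) Bad m g) → False := by
  have hR0 : 0 < R := by linarith
  obtain ⟨e0, he0⟩ : ∃ e0 : ℝ, e0 = τ / (4 * R) := ⟨_, rfl⟩
  obtain ⟨τ1, hτ1⟩ : ∃ τ1 : ℝ, τ1 = 2 * τ / R ^ 2 := ⟨_, rfl⟩
  have he0p : 0 < e0 := by rw [he0]; positivity
  have hτ1p : 0 < τ1 := by rw [hτ1]; positivity
  obtain ⟨c, hc⟩ : ∃ c : ℝ, c = e0 * (τ1 ^ 2 * (γ / 2) ^ 3 / 100) := ⟨_, rfl⟩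
  have hcp : 0 < c := by rw [hc]; positivity
  obtain ⟨κ3, hκ3, H1⟩ := window_numG R e0 c (6 / a) (2 * A) μ (R / c0) hR he0p hcp
    (by positivity) (by linarith) hμ (by positivity)
  obtain ⟨κ, hκ0, hκ1, H2⟩ := hjump κ3 hκ3
  refine ⟨κ, hκ0, hκ1, fun c1 hc1 hc11 ω hω => ?_⟩
  obtain ⟨ε, hε, Cb, hCb, C4, hC4, θ, hθ, hθ1, hJ⟩ := H2 c1 hc1 hc11 ω hω
  refine ⟨ε, hε, fun C1 hC1 => ?_⟩
  obtain ⟨W0, H3⟩ := H1 Cb hCb (2 * C4 + 1) (by linarith) C1 hC1
  obtain ⟨n1, hn1⟩ := exists_nat_gt (20 / γ)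
  obtain ⟨n2, hn2⟩ := exists_nat_gt ((2 * C4 + 1) ^ 2 * R / c)
  obtain ⟨W, hW⟩ : ∃ W : ℕ, W = max W0 (max n1 (max n2 1)) := ⟨_, rfl⟩
  have hWW0 : W0 ≤ W := by rw [hW]; exact le_max_left _ _
  have hWn1 : n1 ≤ W := by rw [hW]; exact (le_max_left _ _).trans (le_max_right _ _)
  have hWn2 : n2 ≤ W := by
    rw [hW]; exact (le_max_left _ _).trans ((le_max_right _ _).trans (le_max_right _ _))
  have hW1 : 1 ≤ W := by
    rw [hW]; exact (le_max_right _ _).trans ((le_max_right _ _).trans (le_max_right _ _))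
  have hWγ : 20 ≤ γ * W := by
    have : 20 / γ ≤ W := hn1.le.trans (by exact_mod_cast hWn1)
    rw [div_le_iff₀ hγ] at this
    linarith only [this]
  have hW1r : (1 : ℝ) ≤ W := by exact_mod_cast hW1
  have hWR : (2 * C4 + 1) ^ 2 * R ≤ c * (W : ℝ) ^ 2 := by
    have h1 : (2 * C4 + 1) ^ 2 * R / c ≤ W := hn2.le.trans (by exact_mod_cast hWn2)
    rw [div_le_iff₀ hcp] at h1
    have h2 : (W : ℝ) * c ≤ W * c * W := by
      have : 0 ≤ (W : ℝ) * c := by positivity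
      exact le_mul_of_one_le_right this hW1r
    have h3 : (W : ℝ) * c * W = c * (W : ℝ) ^ 2 := by ring
    linarith only [h1, h2, h3]
  obtain ⟨η0, hη00, H4⟩ := H3 W hWW0
  refine ⟨W, hW1, fun L1 => ?_⟩
  obtain ⟨L2, hL2⟩ : ∃ L2 : ℝ, L2 = max 1 (max (4 / (c0 * θ)) L1) := ⟨_, rfl⟩
  have hL2p : 0 < L2 := by rw [hL2]; exact lt_of_lt_of_le one_pos (le_max_left _ _)
  have hL2a : 4 / (c0 * θ) ≤ L2 := by
    rw [hL2]; exact (le_max_left _ _).trans (le_max_right _ _)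
  have hL2b : L1 ≤ L2 := by
    rw [hL2]; exact (le_max_right _ _).trans (le_max_right _ _)
  have hWp : (0 : ℝ) < W := by linarith only [hW1r]
  have hcθ : 0 < c0 * θ := by positivity
  obtain ⟨η, hη0, hη1, hη2, hη3, hη4, hη5, hη6⟩ : ∃ η : ℝ, 0 < η ∧ η ≤ 1 / 30 ∧
      η ≤ τ / (2 * R ^ 2) ∧ η * (4 * (R * W)) ≤ c0 * θ ∧ η ≤ θ / 2 ∧ η * (4 * L2) ≤ τ1 ∧
      η ≤ η0 := by
    obtain ⟨η, hη⟩ : ∃ η : ℝ, η = min (min (min (1 / 30) (τ / (2 * R ^ 2)))
      (min (c0 * θ / (4 * (R * W))) (θ / 2))) (min (τ1 / (4 * L2)) η0) := ⟨_, rfl⟩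
    have k1 : η ≤ 1 / 30 := by
      rw [hη]; exact (min_le_left _ _).trans ((min_le_left _ _).trans (min_le_left _ _))
    have k2 : η ≤ τ / (2 * R ^ 2) := by
      rw [hη]; exact (min_le_left _ _).trans ((min_le_left _ _).trans (min_le_right _ _))
    have k3 : η ≤ c0 * θ / (4 * (R * W)) := by
      rw [hη]; exact (min_le_left _ _).trans ((min_le_right _ _).trans (min_le_left _ _))
    have k4 : η ≤ θ / 2 := by
      rw [hη]; exact (min_le_left _ _).trans ((min_le_right _ _).trans (min_le_right _ _))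
    have k5 : η ≤ τ1 / (4 * L2) := by
      rw [hη]; exact (min_le_right _ _).trans (min_le_left _ _)
    have k6 : η ≤ η0 := by
      rw [hη]; exact (min_le_right _ _).trans (min_le_right _ _)
    refine ⟨η, ?_, k1, k2, ?_, k4, ?_, k6⟩
    · rw [hη]
      exact lt_min (lt_min (lt_min (by norm_num) (by positivity))
        (lt_min (by positivity) (by positivity))) (lt_min (by positivity) hη00)
    · rwa [le_div_iff₀ (by positivity)] at k3
    · rwa [le_div_iff₀ (by positivity)] at k5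
  refine ⟨η, hη0, ?_⟩
  intro L hL J _ T D F q Bad B hgood hverts hbad hreg
  have hLp : 0 < L := by linarith only [hL]
  -- the good sides strictly inside the block
  obtain ⟨G, hG⟩ : ∃ G : Finset ℕ, G = (goodSides τ D W q).filter fun r => 1 ≤ r ∧ r + 2 ≤ W :=
    ⟨_, rfl⟩
  have hcard : (goodSides τ D W q).card ≤ G.card + 2 := by
    have hsub : goodSides τ D W q ⊆ G ∪ {0, W - 1} := by
      intro r hr
      have hrW : r < W := by
        unfold goodSides at hr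
        exact Finset.mem_range.mp (Finset.mem_filter.mp hr).1
      rw [Finset.mem_union, hG, Finset.mem_filter]
      by_cases h0 : r = 0
      · right; simp [h0]
      · by_cases h1 : r = W - 1
        · right; simp [h1]
        · left; exact ⟨hr, by omega, by omega⟩
    have h1 := Finset.card_le_card hsub
    have h2 := Finset.card_union_le G ({0, W - 1} : Finset ℕ)
    have h3 : ({0, W - 1} : Finset ℕ).card ≤ 2 := Finset.card_le_two
    omega
  have hGc : γ / 2 * W ≤ (G.card : ℝ) := by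
    have h2 : ((goodSides τ D W q).card : ℝ) ≤ (G.card : ℝ) + 2 := by exact_mod_cast hcard
    linarith only [hgood, h2, hWγ]
  have hG10 : 10 ≤ G.card := by
    have : (10 : ℝ) ≤ G.card := by linarith only [hGc, hWγ]
    exact_mod_cast this
  have hGne : G.Nonempty := Finset.card_pos.mp (by omega)
  obtain ⟨α, hα⟩ : ∃ α, α = G.min' hGne := ⟨_, rfl⟩
  obtain ⟨ν, hν⟩ : ∃ ν, ν = G.max' hGne := ⟨_, rfl⟩
  have hαG : α ∈ G := by rw [hα]; exact G.min'_mem hGne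
  have hνG : ν ∈ G := by rw [hν]; exact G.max'_mem hGne
  have hrange : ∀ r ∈ G, α ≤ r ∧ r < ν + 1 := fun r hr =>
    ⟨by rw [hα]; exact G.min'_le r hr, Nat.lt_succ_of_le (by rw [hν]; exact G.le_max' r hr)⟩
  have hGsub : G ⊆ Finset.Ico α (ν + 1) := fun r hr => Finset.mem_Ico.mpr (hrange r hr)
  have hlen : G.card ≤ ν + 1 - α := by
    have := Finset.card_le_card hGsub
    rwa [Nat.card_Ico] at this
  have hα1 : 1 ≤ α := by
    rw [hG, Finset.mem_filter] at hαG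
    exact hαG.2.1
  have hνW : ν + 2 ≤ W := by
    rw [hG, Finset.mem_filter] at hνG
    exact hνG.2.2
  have hαβ : α + 1 < ν + 1 := by omega
  -- the horizontal position
  have hne : q (ν + 1) - q α ≠ 0 := B.chord_ne (by omega) (by omega)
  obtain ⟨g1, g2, hg, hr1, hr0⟩ := exists_rot hLp hne
  have B' := B.move' hLp.ne' hg (q α)
  have hgs : goodSides τ (mv L g1 g2 hLp.ne' hg (q α) '' D) W
      (fun r => mv L g1 g2 hLp.ne' hg (q α) (q r)) = goodSides τ D W q :=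
    goodSides_move D W q hLp.ne' hg (q α) τ
  obtain ⟨q', hq'⟩ : ∃ q' : ℕ → V, q' = fun r => mv L g1 g2 hLp.ne' hg (q α) (q r) := ⟨_, rfl⟩
  rw [← hq'] at B' hgs
  have hq0 : q' α = 0 := by
    rw [hq']
    show rot L g1 g2 hLp.ne' hg (q α - q α) = 0
    rw [sub_self, map_zero]
  have hq01 : q' α 1 = 0 := by rw [hq0]; rfl
  have hq00 : q' α 0 = 0 := by rw [hq0]; rfl
  have hqβ1 : q' (ν + 1) 1 = 0 := by rw [hq']; exact hr1
  have hpos : q' α 0 < q' (ν + 1) 0 := by rw [hq00, hq']; exact hr0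
  have hG' : ∀ r ∈ G, α ≤ r ∧ r < ν + 1 ∧
      r ∈ goodSides τ (mv L g1 g2 hLp.ne' hg (q α) '' D) W q' := by
    intro r hr
    obtain ⟨h1, h2⟩ := hrange r hr
    refine ⟨h1, h2, ?_⟩
    rw [hgs]
    rw [hG] at hr
    exact (Finset.mem_filter.mp hr).1
  have h1' : q' α 1 = q' (ν + 1) 1 := by rw [hq01, hqβ1]
  rcases lt_or_ge L L2 with hlt | hge
  · -- bounded eccentricity
    have hx : ∀ r < W, q' r 0 < q' (r + 1) 0 := fun r hr =>
      B'.x_lt (by omega) (by omega) h1' hpos hr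
    have hs : ∀ r < W, |(q' (r + 1) 1 - q' r 1) / (q' (r + 1) 0 - q' r 0)| ≤ L * η :=
      fun r hr => B'.slope_le (by omega) (by omega) h1' hpos hr
    have hm : ∀ r, r + 1 < W → (q' (r + 1) 1 - q' r 1) / (q' (r + 1) 0 - q' r 0) ≤
        (q' (r + 2) 1 - q' (r + 1) 1) / (q' (r + 2) 0 - q' (r + 1) 0) :=
      fun r hr => B'.slope_mono (by omega) (by omega) h1' hpos hr
    obtain ⟨-, -, hgap⟩ := C2305bB.Blk.energy_ge B' hL hR0 hτ hη0.le
      (le_min (hη1.trans (by norm_num)) hη2) hx hs hm hα1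
      (by omega : α < ν + 1) (by omega) G hG' hG10
    have h2 := hgap α hαG
    have h3 := hs (α + 1) (by omega)
    have h4 := hs (α - 1) (by omega)
    rw [show α - 1 + 1 = α by omega] at h4
    have h5 := (abs_le.1 h3).2
    have h6 := (abs_le.1 h4).1
    have h7 : (q' (α + 1 + 1) 1 - q' (α + 1) 1) / (q' (α + 1 + 1) 0 - q' (α + 1) 0) =
      (q' (α + 2) 1 - q' (α + 1) 1) / (q' (α + 2) 0 - q' (α + 1) 0) := rfl
    rw [h7] at h5
    rw [← hτ1] at h2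
    have h8 : L * η < L2 * η := mul_lt_mul_of_pos_right hlt hη0
    have h9 : η * (4 * L2) = 4 * (L2 * η) := by ring
    have h10 : 0 < L * η := by positivity
    linarith only [h2, h5, h6, h8, h9, h10, hη5]
  · obtain ⟨hLvl, hField⟩ := hreg (hL2b.trans hge)
    obtain ⟨mm, gg, hF⟩ := hField (q α) g1 g2 hg
    have hLvl' := hLvl.move hLp.ne' hg (q α)
    have hL0 : 4 ≤ c0 * θ * L := by
      have h1 := hL2a.trans hge
      rw [div_le_iff₀ hcθ] at h1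
      linarith only [h1]
    refine coreG B' ?_ ?_ hLvl' hF hL hR hτ ha hA hμ hc0 hc01 hcp hC4 hθ hθ1 hη0 hη1 hη2 hη3 hη4
      hL0 hJ ?_ hWR hC1 hα1 hαβ (by omega) G hG' hαG (by simpa using hνG) hG10 ?_ hq01 hqβ1 hpos
    · rw [hq', card_sideVerts_move]
      exact hverts
    · intro S hS
      refine le_trans ?_ hbad
      have : S = Bad.filter fun s => Meets T (q 0) (q W) s := by
        ext s
        rw [hS, Finset.mem_filter, hq']
        exact and_congr_right fun _ => meets_move T W q hLp.ne' hg (q α) s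
      rw [this]
    · intro L' T0 T' Q X H N Nb Nt Na w0 w1 S K a1 a2 a3 a4 a5
      rw [← he0]
      refine H4 L' T0 T' Q X H N Nb Nt Na w0 w1 S K a1 a2 a3 a4 (a5.trans ?_)
      have : η * L' ≤ η0 * L' := mul_le_mul_of_nonneg_right hη6 a1.le
      linarith only [this]
    · have h1 : (γ / 2 * W) ^ 3 ≤ (G.card : ℝ) ^ 3 := pow_le_pow_left₀ (by positivity) hGc 3
      have h2 : c * (W : ℝ) ^ 3 = e0 * (τ1 ^ 2 * (γ / 2 * W) ^ 3 / 100) := by
        rw [hc]; ring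
      rw [h2, ← he0, ← hτ1]
      apply mul_le_mul_of_nonneg_left _ he0p.le
      apply div_le_div_of_nonneg_right _ (by norm_num)
      exact mul_le_mul_of_nonneg_left h1 (by positivity)

end C2305bG
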