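import Pool.Agent.W_c2305b_h19.NoBlockG
import Pool.Agent.W_c2305b_h19.PartB

/-!
# A violation has boundedly many boundary corners (MP_c2305b_co, class Gap + Sym)
-/

namespace C2305bG

open Set MeasureTheory C2305b.TL
open C2305bB (Fr mis Fits al Meets Blk goodSides mvT mv exists_tan_le)
open C2305bH52 (needle)

open Classical in
/-- **The window argument**, class Gap + Sym, from the signed jump estimate. -/
theorem partBG_of_jump {R τ G a μ c0 m0 : ℝ} (hR : 1 ≤ R) (hτ : 0 < τ) (hG : 0 < G) (ha : 0 < a)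
    (hμ : 0 ≤ μ) (hc0 : 0 < c0) (hc01 : c0 ≤ 1)
    (hjump : ∀ κ3 : ℝ, 0 < κ3 → ∃ κ : ℝ, 0 < κ ∧ κ ≤ 1 ∧ ∀ c1 : ℝ, 0 < c1 → c1 ≤ 1 →
      ∀ ω : ℝ, 0 < ω → ∃ ε : ℝ, 0 < ε ∧ ∃ Cb : ℝ, 0 ≤ Cb ∧ ∃ C4 : ℝ, 2 ≤ C4 ∧ ∃ θ : ℝ, 0 < θ ∧
      θ ≤ 1 / 10 ∧ JumpG R μ c0 m0 a κ3 κ c1 ω ε Cb C4 θ) : PartBG R τ G a μ c0 m0 := by
  obtain ⟨A, hA⟩ : ∃ A : ℝ, A = max (8 * G / τ * (G / τ + 4 * (G + 1))) 1 := ⟨_, rfl⟩
  have hA1 : 1 ≤ A := by rw [hA]; exact le_max_right _ _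
  have hA2 : 8 * G / τ * (G / τ + 4 * (G + 1)) ≤ A := by rw [hA]; exact le_max_left _ _
  obtain ⟨κ, hκ0, hκ1, H1⟩ := no_blockG R τ a (τ / (8 * G)) A μ c0 m0 hR hτ ha (by positivity)
    hA1 hμ hc0 hc01 hjump
  refine ⟨κ, hκ0, hκ1, fun c1 hc1 hc11 ω hω => ?_⟩
  obtain ⟨ε, hε, H2⟩ := H1 c1 hc1 hc11 ω hω
  refine ⟨ε, hε, fun C1 hC1 L1 => ?_⟩
  have hC1' : (1 : ℝ) ≤ max C1 1 := le_max_right _ _
  obtain ⟨W, hW, H3⟩ := H2 (max C1 1) (by linarith only [hC1'])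
  obtain ⟨η, hη, H4⟩ := H3 L1
  obtain ⟨M, hM, hMη⟩ := exists_tan_le hη
  obtain ⟨B0, H5⟩ := W82.sel_block hR hτ hG W M hW hM hC1' hC1'
  refine ⟨B0, ?_⟩
  intro L hL ι _ D P h hi F o Lam hneed hvol hLam hcap hTv hreg
  by_contra hcon
  push Not at hcon
  have hs : 0 ≤ Lam + ((W82.Vb D P).ncard : ℝ) := by positivity
  obtain ⟨Bad, hBad, hBad2⟩ : ∃ Bad :
      Finset ({i : ι // (interior (convexHull ℝ (W82.S P i))).Nonempty} ×
          {i : ι // (interior (convexHull ℝ (W82.S P i))).Nonempty}),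
      (Bad.card : ℝ) ≤ max C1 1 * (Lam + (W82.Vb D P).ncard) ∧
      (L1 ≤ L → Lvl L μ ε c0 a (h.toTL hi) (fun i => F i) Bad ∧
        ∀ (z : V) (g1 g2 : ℝ) (hg : g1 ^ 2 + g2 ^ 2 = 1),
          ∃ m g : {i : ι // (interior (convexHull ℝ (W82.S P i))).Nonempty} → V,
            Field L R m0 ω (κ * c1 ^ 2) κ c1
              (C2305bB.mvT (h.toTL hi) (by linarith : (0 : ℝ) < L).ne' hg z)
              (fun i => (F i).rot g1 g2 hg) Bad m g) := by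
    by_cases hLL : L1 ≤ L
    · obtain ⟨Bad, h1, h2, h3⟩ := hreg hLL
      exact ⟨Bad, h1.trans (mul_le_mul_of_nonneg_right (le_max_left _ _) hs), fun _ => ⟨h2, h3⟩⟩
    · refine ⟨∅, ?_, fun h0 => absurd h0 hLL⟩
      rw [Finset.card_empty, Nat.cast_zero]
      positivity
  obtain ⟨q, B, hgood, hverts, hb1, -⟩ := H5 L hL ι D P h hi F o Lam hneed hvol hLam hcap hTv
    Bad Bad hBad hBad hcon
  have : Fintype {i : ι // (interior (convexHull ℝ (W82.S P i))).Nonempty} := Fintype.ofFinite _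
  have hWn : (0 : ℝ) ≤ (W : ℝ) := Nat.cast_nonneg _
  refine H4 L hL _ (h.toTL hi) D (fun i => F i) q Bad (B.mono (by linarith) hMη) hgood
    (hverts.trans (mul_le_mul_of_nonneg_right hA2 hWn)) ?_ hBad2
  refine le_trans ?_ (mul_le_mul_of_nonneg_right
    (mul_le_mul_of_nonneg_right hA2 (by linarith only [hC1'] : (0 : ℝ) ≤ max C1 1)) hWn)
  exact hb1

theorem RegTile.mono {L ε c0 c0' a : ℝ} {J : Type} {T : Tiling J} {F : J → Fr} {i : J}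
    (hc : c0' ≤ c0) (H : RegTile L ε c0 a T F i) : RegTile L ε c0' a T F i where
  area := H.area
  inn := H.inn
  sub := H.sub
  ext := H.ext
  sym := H.sym
  low := by
    intro α β hα hα1 hβ
    obtain ⟨w, hw, hwx⟩ := H.low α β hα hα1 hβ
    exact ⟨w, hw, fun x hx => (hwx x hx).trans (neg_le_neg hc)⟩

theorem Lvl.mono {L μ ε c0 c0' a : ℝ} {J : Type} {T : Tiling J} {F : J → Fr}
    {Bad : Finset (J × J)} (hc : c0' ≤ c0) (H : Lvl L μ ε c0 a T F Bad) :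
    Lvl L μ ε c0' a T F Bad := by
  intro i j v w hvw hij
  obtain ⟨h1, h2, h3⟩ := H i j v w hvw hij
  exact ⟨h1, h2.mono hc, h3.mono hc⟩

theorem Field.mono {L R m0 m0' ω δ κ c1 : ℝ} {J : Type} {T : Tiling J} {F : J → Fr}
    {Bad : Finset (J × J)} {m g : J → V} (hm : m0' ≤ m0)
    (H : Field L R m0 ω δ κ c1 T F Bad m g) : Field L R m0' ω δ κ c1 T F Bad m g where
  bd := by
    intro i j v w h1 h2 h3
    obtain ⟨k1, k2⟩ := H.bd i j v w h1 h2 h3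
    exact ⟨hm.trans k1, k2⟩
  rel := H.rel

/-- The interface is monotone in the depth and in the width. -/
theorem PartBG.mono {R τ G a μ c0 c0' m0 m0' : ℝ} (hc : c0' ≤ c0) (hm : m0' ≤ m0)
    (H : PartBG R τ G a μ c0' m0') : PartBG R τ G a μ c0 m0 := by
  obtain ⟨κ, hκ0, hκ1, H1⟩ := H
  refine ⟨κ, hκ0, hκ1, fun c1 hc1 hc11 ω hω => ?_⟩
  obtain ⟨ε, hε, H2⟩ := H1 c1 hc1 hc11 ω hω
  refine ⟨ε, hε, fun C1 hC1 L1 => ?_⟩
  obtain ⟨B, H3⟩ := H2 C1 hC1 L1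
  refine ⟨B, ?_⟩
  intro L hL ι _ D P h hi F o Lam hneed hvol hLam hcap hTv hreg
  refine H3 L hL ι D P h hi F o Lam hneed hvol hLam hcap hTv fun hLL => ?_
  obtain ⟨Bad, h1, h2, h3⟩ := hreg hLL
  refine ⟨Bad, h1, h2.mono hc, fun z g1 g2 hg => ?_⟩
  obtain ⟨m, g, h4⟩ := h3 z g1 g2 hg
  exact ⟨m, g, h4.mono hm⟩

end C2305bG
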