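import Pool.Agent.W_c2305b_h19.PartBG
import Pool.Agent.W_c2305b_h35.JumpG

/-!
# The window argument, class Gap + Sym, final statement (MP_c2305b_co)
-/

namespace C2305bG

/-- **The window argument**, class Gap + Sym. -/
theorem partBG {R τ G a μ c0 m0 : ℝ} (hR : 1 ≤ R) (hτ : 0 < τ) (hG : 0 < G) (ha : 0 < a)
    (hμ : 0 < μ) (hc0 : 0 < c0) (hm0 : 0 < m0) : PartBG R τ G a μ c0 m0 := by
  have h1 : 0 < min c0 1 := lt_min hc0 one_pos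
  have h2 : 0 < min m0 1 := lt_min hm0 one_pos
  refine PartBG.mono (min_le_left c0 1) (min_le_left m0 1) ?_
  refine partBG_of_jump hR hτ hG ha hμ.le h1 (min_le_right _ _) fun κ3 hκ3 => ?_
  obtain ⟨κ, k1, k2, k3⟩ := jump_leG R μ (min c0 1) (min m0 1) a hR hμ.le h1 (min_le_right _ _)
    h2 (min_le_right _ _) ha κ3 hκ3
  refine ⟨κ, k1, k2, fun c1 hc1 hc11 ω hω => ?_⟩
  obtain ⟨ε, hε, Cb, hCb, C4, hC4, θ, hθ, hθ1, hJ⟩ := k3 c1 hc1 hc11 ω hω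
  exact ⟨ε, hε, Cb, hCb, C4, hC4, θ, hθ, hθ1, hJ⟩

end C2305bG
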