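import Pool.Agent.W_c2305b_h19.Blk

/-!
# Blocks in horizontal position (MP_c2305b_co, part B)
-/

namespace C2305bB

open Set MeasureTheory C2305b.TL
open C2305bH52 (needle)
open C2305bH68 (Chain)

lemma cr_crd (u v z w : V) : cr (u - v) (z - w) =
    (u 0 - v 0) * (z 1 - w 1) - (u 1 - v 1) * (z 0 - w 0) := by
  simp [cr]

lemma sp_add_left (L : ℝ) (e e' f : V) : sp L (e + e') f = sp L e f + sp L e' f := by
  unfold sp
  simp only [PiLp.add_apply]
  ring

namespace Blk

variable {L R η : ℝ} {J : Type} {T : Tiling J} {D : Set V} {F : J → Fr} {W : ℕ} {q : ℕ → V}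

/-- A chord of the block is flat with respect to every side of the block. -/
theorem flat_chord (B : Blk L R η T D F W q) {α β r : ℕ} (hαβ : α < β) (hβ : β ≤ W)
    (hr : r < W) :
    0 < sp L (q β - q α) (q (r + 1) - q r) ∧ |cr (q β - q α) (q (r + 1) - q r)| ≤
      L * η * sp L (q β - q α) (q (r + 1) - q r) := by
  induction β, hαβ using Nat.le_induction with
  | base => exact B.flat α (by omega) r hr
  | succ n hn ih =>
    obtain ⟨h1, h2⟩ := ih (by omega)
    obtain ⟨h3, h4⟩ := B.flat n (by omega) r hr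
    have e : q (n + 1) - q α = (q n - q α) + (q (n + 1) - q n) := by abel
    rw [e, sp_add_left, cr_add_left]
    refine ⟨by linarith, ?_⟩
    calc |cr (q n - q α) (q (r + 1) - q r) + cr (q (n + 1) - q n) (q (r + 1) - q r)|
        ≤ |cr (q n - q α) (q (r + 1) - q r)| + |cr (q (n + 1) - q n) (q (r + 1) - q r)| :=
          abs_add_le _ _
      _ ≤ _ := by
          rw [mul_add]
          exact add_le_add h2 h4

/-- A chord of the block is not zero. -/
theorem chord_ne (B : Blk L R η T D F W q) {α β : ℕ} (hαβ : α < β) (hβ : β ≤ W) :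
    q β - q α ≠ 0 := by
  intro h
  have h1 := (B.flat_chord (r := α) hαβ hβ (by omega)).1
  rw [h] at h1
  unfold sp at h1
  simp at h1

section position

variable {α β : ℕ}

theorem x_lt (B : Blk L R η T D F W q) (hαβ : α < β) (hβ : β ≤ W)
    (h1 : q α 1 = q β 1) (hpos : q α 0 < q β 0) {r : ℕ} (hr : r < W) : q r 0 < q (r + 1) 0 := by
  have h := (B.flat_chord (r := r) hαβ hβ hr).1
  unfold sp at h
  simp only [PiLp.sub_apply] at h
  have e : q β 1 - q α 1 = 0 := by linarith
  rw [e, zero_mul, zero_div, add_zero] at h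
  have h2 : 0 < q β 0 - q α 0 := by linarith
  have h3 : 0 < (q β 0 - q α 0) * (q (r + 1) 0 - q r 0) := h
  have := (mul_pos_iff_of_pos_left h2).mp h3
  linarith

theorem slope_le (B : Blk L R η T D F W q) (hαβ : α < β) (hβ : β ≤ W)
    (h1 : q α 1 = q β 1) (hpos : q α 0 < q β 0) {r : ℕ} (hr : r < W) :
    |C2305bH68.slope (fun k => q k 0) (fun k => q k 1) r| ≤ L * η := by
  have h := (B.flat_chord (r := r) hαβ hβ hr).2
  have hx := B.x_lt hαβ hβ h1 hpos hr
  unfold sp cr at h
  simp only [PiLp.sub_apply] at h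
  have e : q β 1 - q α 1 = 0 := by linarith
  rw [e] at h
  have h2 : 0 < q β 0 - q α 0 := by linarith
  have h3 : 0 < q (r + 1) 0 - q r 0 := by linarith
  unfold C2305bH68.slope
  rw [abs_div, abs_of_pos h3, div_le_iff₀ h3]
  have h4 : (q β 0 - q α 0) * |q (r + 1) 1 - q r 1| ≤
      (q β 0 - q α 0) * (L * η * (q (r + 1) 0 - q r 0)) := by
    have e1 : |(q β 0 - q α 0) * (q (r + 1) 1 - q r 1) - 0 * (q (r + 1) 0 - q r 0)| =
        (q β 0 - q α 0) * |q (r + 1) 1 - q r 1| := by
      rw [zero_mul, sub_zero, abs_mul, abs_of_pos h2]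
    rw [e1] at h
    refine h.trans (le_of_eq ?_)
    ring
  exact le_of_mul_le_mul_left h4 h2

theorem slope_mono (B : Blk L R η T D F W q) (hαβ : α < β) (hβ : β ≤ W)
    (h1 : q α 1 = q β 1) (hpos : q α 0 < q β 0) {r : ℕ} (hr : r + 1 < W) :
    C2305bH68.slope (fun k => q k 0) (fun k => q k 1) r ≤
      C2305bH68.slope (fun k => q k 0) (fun k => q k 1) (r + 1) := by
  have hx := B.x_lt hαβ hβ h1 hpos (r := r) (by omega)
  have hx' := B.x_lt hαβ hβ h1 hpos hr
  have h := B.hs r (by omega) (q (r + 2)) (B.qR (r + 2) (by omega))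
  rw [cr_crd] at h
  unfold C2305bH68.slope
  rw [div_le_div_iff₀ (by linarith) (by linarith)]
  show (q (r + 1) 1 - q r 1) * (q (r + 2) 0 - q (r + 1) 0) ≤
    (q (r + 2) 1 - q (r + 1) 1) * (q (r + 1) 0 - q r 0)
  nlinarith

theorem slope_mono' (B : Blk L R η T D F W q) (hαβ : α < β) (hβ : β ≤ W)
    (h1 : q α 1 = q β 1) (hpos : q α 0 < q β 0) {r t : ℕ} (hrt : r ≤ t) (ht : t < W) :
    C2305bH68.slope (fun k => q k 0) (fun k => q k 1) r ≤
      C2305bH68.slope (fun k => q k 0) (fun k => q k 1) t := by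
  induction t, hrt using Nat.le_induction with
  | base => exact le_rfl
  | succ n hn ih => exact (ih (by omega)).trans (B.slope_mono hαβ hβ h1 hpos ht)

/-- extents are at most `R` -/
theorem ext_le (B : Blk L R η T D F W q) (hL : 1 ≤ L) (hR : 0 ≤ R) {r : ℕ} (hr : r < W) :
    q (r + 1) 0 - q r 0 ≤ R := by
  obtain ⟨G, o, h1, h2, -⟩ := B.cap r hr
  have h3 := C2305bH52.Fits.abs_x_le hL (by linarith) (C2305bH52.needle_sub h2 h1)
  have := (abs_le.1 h3).2
  linarith

theorem width_le (B : Blk L R η T D F W q) (hL : 1 ≤ L) (hR : 0 ≤ R) {a b : ℕ} (hab : a ≤ b)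
    (hb : b ≤ W) : q b 0 - q a 0 ≤ R * (b - a : ℕ) := by
  induction b, hab using Nat.le_induction with
  | base => simp
  | succ n hn ih =>
    have h1 := ih (by omega)
    have h2 := B.ext_le hL hR (r := n) (by omega)
    have e : ((n + 1 - a : ℕ) : ℝ) = ((n - a : ℕ) : ℝ) + 1 := by
      have : n + 1 - a = (n - a) + 1 := by omega
      rw [this]; push_cast; ring
    rw [e, mul_add, mul_one]
    linarith

end position

end Blk

end C2305bB
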